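import Pool.Agent.MP_ecfd11_lc.Rec

/-!
Cardinalities, regular cardinals, clubs and stationary sets.
-/

namespace Pool.Agent.MP_ecfd11_lc

universe u

open ZFSet Function Classical Cardinal

/-- The set `ω`. -/
noncomputable abbrev om : ZFSet.{u} := Ordinal.omega0.toZFSet

theorem card_le_of_inj {a b : ZFSet.{u}} (F : ZFSet.{u} → ZFSet.{u}) (h1 : ∀ x ∈ a, F x ∈ b)
    (h2 : ∀ x ∈ a, ∀ y ∈ a, F x = F y → x = y) : card a ≤ card b := by
  rw [← Cardinal.lift_le.{u + 1}, ← cardinalMk_coe_sort, ← cardinalMk_coe_sort]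
  exact mk_le_of_injective (f := fun x : a => (⟨F x, h1 x x.2⟩ : b)) fun x y e =>
    Subtype.ext (h2 x x.2 y y.2 (congrArg Subtype.val e))

theorem exists_inj_of_card_le {a b : ZFSet.{u}} (h : card a ≤ card b) :
    ∃ F : ZFSet.{u} → ZFSet.{u}, (∀ x ∈ a, F x ∈ b) ∧ ∀ x ∈ a, ∀ y ∈ a, F x = F y → x = y := by
  rw [← Cardinal.lift_le.{u + 1}, ← cardinalMk_coe_sort, ← cardinalMk_coe_sort] at h
  obtain ⟨f⟩ := h
  refine ⟨fun x => if h : x ∈ a then (f ⟨x, h⟩ : ZFSet.{u}) else ∅, fun x hx => ?_,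
    fun x hx y hy e => ?_⟩
  · simp only [hx, dif_pos]; exact (f ⟨x, hx⟩).2
  · simp only [hx, hy, dif_pos] at e
    exact congrArg Subtype.val (f.injective (Subtype.ext e))

theorem card_le_of_surj {a b : ZFSet.{u}} (F : ZFSet.{u} → ZFSet.{u})
    (h : ∀ y ∈ b, ∃ x ∈ a, F x = y) : card b ≤ card a := by
  choose! g h1 h2 using h
  exact card_le_of_inj g h1 fun x hx y hy e => by rw [← h2 x hx, e, h2 y hy]

theorem exists_surj_of_card_le {a b : ZFSet.{u}} (h : card b ≤ card a) :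
    ∃ F : ZFSet.{u} → ZFSet.{u}, ∀ y ∈ b, ∃ x ∈ a, F x = y := by
  obtain ⟨g, h1, h2⟩ := exists_inj_of_card_le h
  refine ⟨fun x => if h : ∃ y ∈ b, g y = x then h.choose else ∅, fun y hy => ⟨g y, h1 y hy, ?_⟩⟩
  have h : ∃ y' ∈ b, g y' = g y := ⟨y, hy, rfl⟩
  simp only [h, dif_pos]
  exact h2 _ h.choose_spec.1 _ hy h.choose_spec.2

theorem card_img_le (F : ZFSet.{u} → ZFSet.{u}) (x : ZFSet.{u}) : card (img F x) ≤ card x :=
  card_le_of_surj F fun _ hy => mem_img.1 hy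

theorem card_prod_le (a b : ZFSet.{u}) : card (prod a b) ≤ card a * card b := by
  rw [← Cardinal.lift_le.{u + 1}, lift_mul, ← cardinalMk_coe_sort, ← cardinalMk_coe_sort,
    ← cardinalMk_coe_sort, mul_def]
  refine mk_le_of_surjective
    (f := fun p : a × b => (⟨pair p.1 p.2, pair_mem_prod.2 ⟨p.1.2, p.2.2⟩⟩ : prod a b)) ?_
  rintro ⟨z, hz⟩
  obtain ⟨x, hx, y, hy, rfl⟩ := mem_prod.1 hz
  exact ⟨(⟨x, hx⟩, ⟨y, hy⟩), rfl⟩

theorem card_ord' (c : Cardinal.{u}) : card c.ord.toZFSet = c := by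
  rw [Ordinal.card_toZFSet, card_ord]

theorem card_sUnion_img_le {F : ZFSet.{u} → ZFSet.{u}} {x : ZFSet.{u}} {k : Cardinal.{u}}
    (h : ∀ i ∈ x, card (F i) ≤ k) : card (⋃₀ img F x : ZFSet.{u}) ≤ card x * k := by
  have h' : ∀ i ∈ x, ∃ G : ZFSet.{u} → ZFSet.{u}, ∀ y ∈ F i, ∃ j ∈ k.ord.toZFSet, G j = y :=
    fun i hi => exists_surj_of_card_le (by rw [card_ord']; exact h i hi)
  choose! G hG using h'
  refine (card_le_of_surj (a := prod x k.ord.toZFSet) (fun z => G (fst z) (snd z)) ?_).trans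
    ((card_prod_le _ _).trans (by rw [card_ord']))
  intro y hy
  obtain ⟨_, h1, h2⟩ := mem_sUnion.1 hy
  obtain ⟨i, hi, rfl⟩ := mem_img.1 h1
  obtain ⟨j, hj, e⟩ := hG i hi y h2
  exact ⟨pair i j, pair_mem_prod.2 ⟨hi, hj⟩, by simpa using e⟩

theorem mem_ord_iff {x : ZFSet.{u}} (hx : x.IsOrdinal) {c : Cardinal.{u}} :
    x ∈ c.ord.toZFSet ↔ card x < c := by
  rw [← hx.toZFSet_rank_eq, Ordinal.toZFSet_mem_toZFSet_iff, lt_ord, Ordinal.card_toZFSet]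

theorem card_om : card om.{u} = ℵ₀ := by
  rw [Ordinal.card_toZFSet, Ordinal.card_omega0]

theorem mem_om_iff {x : ZFSet.{u}} (hx : x.IsOrdinal) : x ∈ om ↔ card x < ℵ₀ := by
  rw [← mem_ord_iff hx, ord_aleph0]

theorem om_subset_iff {x : ZFSet.{u}} (hx : x.IsOrdinal) : om ⊆ x ↔ ℵ₀ ≤ card x := by
  rw [← hx.notMem_iff_subset (isOrdinal_toZFSet _), mem_om_iff hx, not_lt]

theorem empty_mem_of_ne {x : ZFSet.{u}} (hx : x.IsOrdinal) (h : x ≠ ∅) : ∅ ∈ x :=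
  ((isOrdinal_empty.subset_iff_eq_or_mem hx).1 (empty_subset x)).resolve_left h.symm

theorem isOrdinal_sUnion {x : ZFSet.{u}} (h : ∀ y ∈ x, y.IsOrdinal) :
    (⋃₀ x : ZFSet.{u}).IsOrdinal :=
  isOrdinal_iff_forall_mem_isOrdinal.2 ⟨IsTransitive.sUnion' fun y hy => (h y hy).isTransitive,
    fun y hy => by obtain ⟨z, hz, hy⟩ := mem_sUnion.1 hy; exact (h z hz).mem hy⟩

theorem isOrdinal_union {x y : ZFSet.{u}} (hx : x.IsOrdinal) (hy : y.IsOrdinal) :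
    (x ∪ y).IsOrdinal :=
  isOrdinal_sUnion (x := {x, y}) fun z hz => by
    rcases mem_pair.1 hz with rfl | rfl <;> assumption

theorem union_mem {x y l : ZFSet.{u}} (hl : l.IsOrdinal) (hx : x ∈ l) (hy : y ∈ l) :
    x ∪ y ∈ l := by
  rcases (hl.mem hx).subset_total (hl.mem hy) with h | h
  · have : x ∪ y = y := by ext z; simpa using fun hz => h hz
    rwa [this]
  · have : x ∪ y = x := by ext z; simpa using fun hz => h hz
    rwa [this]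

/-- A least element of a class of sets. -/
theorem exists_min_mem {p : ZFSet.{u} → Prop} {x : ZFSet.{u}} (hx : p x) :
    ∃ y, p y ∧ ∀ z ∈ y, ¬ p z := by
  obtain ⟨y, h1, h2⟩ := mem_wf.has_min {y | p y} ⟨x, hx⟩
  exact ⟨y, h1, fun z hz hp => h2 z hp hz⟩

instance Df.cardLe {A : Set ZFSet.{u}} [Ctx Set.univ A] (s t : (ℕ → ZFSet.{u}) → ZFSet.{u})
    [Tm Set.univ A s] [Tm Set.univ A t] : Df Set.univ A (fun v => card (s v) ≤ card (t v)) :=
  Df.of (fun v => ∃ f, IsInj (s v) (t v) f) (by infer_instance) fun v _ => by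
    constructor
    · rintro ⟨f, h1, h2⟩
      exact card_le_of_inj (app f) (fun x hx => (pair_mem_prod.1 (h1.1 (h1.app_mem hx))).2)
        fun x hx y hy e => h2 x y _ (h1.app_mem hx) (e ▸ h1.app_mem hy)
    · intro h
      obtain ⟨F, h1, h2⟩ := exists_inj_of_card_le h
      refine ⟨gr F (s v), isFunc_gr h1, fun x x' y hx hx' => ?_⟩
      rw [pair_mem_gr] at hx hx'
      exact h2 x hx.1 x' hx'.1 (hx.2.trans hx'.2.symm)

section regular

variable {C : Set ZFSet.{u}} {l : ZFSet.{u}}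

theorem Regular.bdd_fun (hC : InnerModel C) (hl : Regular C l) {a : ZFSet.{u}} (ha : a ∈ l)
    (F : ZFSet.{u} → ZFSet.{u}) (hF : Tm C C (fun v => F (v 0))) (h : ∀ i ∈ a, F i ∈ l) :
    ∃ b ∈ l, ∀ i ∈ a, F i ∈ b := by
  have := hC.ctx
  have ha' : Tm C C (fun _ => a) := Tm.ofOrd (hl.1.mem ha)
  have hg : Tm C C (fun _ => gr F a) := Tm.gr (fun _ => a) (fun _ => F) (h := hF)
  obtain ⟨b, hb, h2⟩ := hl.2.2 a ha (gr F a) (hg.mem (fun _ => ∅) fun _ => this.empty_mem)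
    (isFunc_gr h)
  exact ⟨b, hb, fun i hi => h2 i _ (pair_mem_gr.2 ⟨hi, rfl⟩)⟩

theorem Regular.empty_mem (hl : Regular C l) : ∅ ∈ l :=
  empty_mem_of_ne hl.1 fun e => notMem_empty _ (e ▸ hl.2.1)

theorem Regular.succ (hC : InnerModel C) (hl : Regular C l) {x : ZFSet.{u}} (hx : x ∈ l) :
    ∃ b ∈ l, x ∈ b := by
  have := hC.ctx
  obtain ⟨b, hb, h⟩ := hl.bdd_fun hC hl.2.1 (fun _ => x) (Tm.ofOrd (hl.1.mem hx)) fun _ _ => hx
  exact ⟨b, hb, h ∅ ((mem_om_iff isOrdinal_empty).2 (by rw [card_empty]; exact aleph0_pos))⟩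

theorem Regular.bdd (hC : InnerModel C) (hl : Regular C l) {a : ZFSet.{u}} (ha : a ∈ l)
    (R : ZFSet.{u} → ZFSet.{u} → Prop) (hR : Df C C (fun v => R (v 0) (v 1)))
    (h : ∀ i ∈ a, ∃ b ∈ l, ∀ x ∈ l, R i x → x ∈ b) :
    ∃ b ∈ l, ∀ i ∈ a, ∀ x ∈ l, R i x → x ∈ b := by
  have := hC.ctx
  have hl' : Tm C C (fun _ => l) := Tm.ofOrd hl.1
  have hR' := Df.two (C := C) (A := C) R
  let F : ZFSet.{u} → ZFSet.{u} := fun i => ⋃₀ img (fun x => insert x x) (l.sep (R i))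
  have hF : ∀ i, (F i).IsOrdinal := fun i => isOrdinal_sUnion fun y hy => by
    obtain ⟨x, hx, rfl⟩ := mem_img.1 hy
    exact isOrdinal_succ (hl.1.mem (mem_sep.1 hx).1)
  obtain ⟨b, hb, h2⟩ := hl.bdd_fun hC ha F
    (Tm.of (fun v => ⋃₀ img (fun x => insert x x) (l.sep fun x => R (v 0) x))
      (by infer_instance) fun _ _ => rfl) fun i hi => by
    obtain ⟨b, hb, h⟩ := h i hi
    refine (hF i).mem_of_subset_of_mem hl.1 (fun z hz => ?_) hb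
    obtain ⟨_, h1, h2⟩ := mem_sUnion.1 hz
    obtain ⟨x, hx, rfl⟩ := mem_img.1 h1
    have hxb := h x (mem_sep.1 hx).1 (mem_sep.1 hx).2
    rcases mem_insert_iff.1 h2 with rfl | h2
    · exact hxb
    · exact (hl.1.mem hb).mem_trans h2 hxb
  refine ⟨b, hb, fun i hi x hx hR => (hl.1.mem hb).mem_trans ?_ (h2 i hi)⟩
  exact mem_sUnion.2 ⟨_, mem_img.2 ⟨x, mem_sep.2 ⟨hx, hR⟩, rfl⟩, mem_insert _ _⟩

theorem Regular.card_lt (hl : Regular Set.univ l) {a : ZFSet.{u}} (ha : a ∈ l) :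
    card a < card l := by
  by_contra h
  obtain ⟨F, hF⟩ := exists_surj_of_card_le (not_lt.1 h)
  obtain ⟨b, hb, h⟩ := hl.2.2 a ha (gr (fun i => if F i ∈ l then F i else ∅) a) trivial
    (isFunc_gr fun i _ => by split_ifs with h; exacts [h, hl.empty_mem])
  obtain ⟨i, hi, e⟩ := hF b hb
  exact mem_irrefl b (h i b (pair_mem_gr.2 ⟨hi, by simp [e, hb]⟩))

theorem Regular.mem_of_card_lt (hl : Regular Set.univ l) {a : ZFSet.{u}} (ha : a.IsOrdinal)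
    (h : card a < card l) : a ∈ l :=
  (ha.mem_or_subset hl.1).resolve_right fun h' => (card_mono h').not_gt h

theorem Regular.aleph0_lt (hl : Regular Set.univ l) : ℵ₀ < card l :=
  card_om ▸ hl.card_lt hl.2.1

theorem Regular.bddV (hl : Regular Set.univ l) {x : ZFSet.{u}} (hx : card x < card l)
    (F : ZFSet.{u} → ZFSet.{u}) (h : ∀ i ∈ x, F i ∈ l) : ∃ b ∈ l, ∀ i ∈ x, F i ∈ b := by
  obtain ⟨G, hG⟩ := exists_surj_of_card_le (a := (card x).ord.toZFSet) (b := x)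
    (by rw [card_ord'])
  obtain ⟨b, hb, h2⟩ := hl.2.2 _
    (hl.mem_of_card_lt (isOrdinal_toZFSet (card x).ord) (by rwa [card_ord']))
    (gr (fun j => if G j ∈ x then F (G j) else ∅) _) trivial
    (isFunc_gr fun i _ => by split_ifs with h'; exacts [h _ h', hl.empty_mem])
  refine ⟨b, hb, fun i hi => ?_⟩
  obtain ⟨j, hj, rfl⟩ := hG i hi
  exact h2 j _ (pair_mem_gr.2 ⟨hj, by simp [hi]⟩)

theorem regular_ord {c : Cardinal.{u}} (hc : c.IsRegular) (h : ℵ₀ < c) :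
    Regular Set.univ c.ord.toZFSet := by
  refine ⟨isOrdinal_toZFSet _, (mem_ord_iff (isOrdinal_toZFSet _)).2 (card_om ▸ h),
    fun a ha f _ hf => ?_⟩
  have ho := isOrdinal_toZFSet c.ord
  have h1 : ∀ i ∈ a, app f i ∈ c.ord.toZFSet :=
    fun i hi => (pair_mem_prod.1 (hf.1 (hf.app_mem hi))).2
  have h2 : ⨆ i : Shrink a, (rank (app f ((equivShrink a).symm i)) + 1) < c.ord :=
    Cardinal.iSup_lt_ord_of_isRegular hc ((mem_ord_iff (ho.mem ha)).1 ha) fun i => by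
      refine (isSuccLimit_ord h.le).add_one_lt ?_
      have := rank_lt_of_mem (h1 _ ((equivShrink a).symm i).2)
      rwa [Ordinal.rank_toZFSet] at this
  refine ⟨_, Ordinal.toZFSet_mem_toZFSet_iff.2 h2, fun x y hxy => ?_⟩
  have hx := (pair_mem_prod.1 (hf.1 hxy)).1
  have hy := ho.mem (pair_mem_prod.1 (hf.1 hxy)).2
  rw [← hy.rank_lt_iff_mem (isOrdinal_toZFSet _), Ordinal.rank_toZFSet]
  refine lt_of_lt_of_le ?_ (Ordinal.le_iSup _ (equivShrink a ⟨x, hx⟩))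
  simp [hf.app_eq hxy]

theorem Regular.exists_closed (hl : Regular Set.univ l) (N : ZFSet.{u} → ZFSet.{u})
    (hN : ∀ b ∈ l, N b ∈ l) {b0 : ZFSet.{u}} (hb : b0 ∈ l) :
    ∃ g ∈ l, b0 ∈ g ∧ ∀ b ∈ g, N b ∈ g := by
  have h1 : ∀ a ∈ l, ∃ c ∈ l, ∀ b ∈ a, N b ∈ c := fun a ha =>
    hl.bddV (hl.card_lt ha) N fun b hb => hN b (hl.1.mem_trans hb ha)
  choose! S hS1 hS2 using h1
  obtain ⟨a0, ha0, h0⟩ := hl.succ innerModel_univ hb
  have h2 : ∀ n : ℕ, S^[n] a0 ∈ l := fun n => by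
    induction n with
    | zero => exact ha0
    | succ n ih => rw [iterate_succ_apply']; exact hS1 _ ih
  let X : ZFSet.{u} := range fun n : ULift.{u} ℕ => S^[n.down] a0
  have hX : card X < card l := by
    refine lt_of_le_of_lt ?_ hl.aleph0_lt
    simpa using lift_card_range_le (f := fun n : ULift.{u} ℕ => S^[n.down] a0)
  have hXl : ∀ x ∈ X, x ∈ l := fun x hx => by
    obtain ⟨n, rfl⟩ := mem_range.1 hx; exact h2 _
  obtain ⟨c, hc, h3⟩ := hl.bddV hX id hXl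
  have ho : (⋃₀ X : ZFSet.{u}).IsOrdinal := isOrdinal_sUnion fun y hy => hl.1.mem (hXl y hy)
  refine ⟨⋃₀ X, ho.mem_of_subset_of_mem hl.1 (fun z hz => ?_) hc,
    mem_sUnion.2 ⟨a0, mem_range.2 ⟨⟨0⟩, rfl⟩, h0⟩, fun b hb => ?_⟩
  · obtain ⟨y, hy, hz⟩ := mem_sUnion.1 hz
    exact (hl.1.mem hc).mem_trans hz (h3 y hy)
  · obtain ⟨y, hy, hb⟩ := mem_sUnion.1 hb
    obtain ⟨n, rfl⟩ := mem_range.1 hy
    refine mem_sUnion.2 ⟨_, mem_range.2 ⟨⟨n.down + 1⟩, rfl⟩, ?_⟩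
    rw [iterate_succ_apply']
    exact hS2 _ (h2 _) b hb

/-- The set of limit points of an unbounded family is club. -/
theorem Regular.club_lim (hl : Regular Set.univ l) {x : ZFSet.{u}} (hx : card x < card l)
    (c : ZFSet.{u} → ZFSet.{u}) (h1 : ∀ i ∈ x, ∀ b ∈ l, ∃ y ∈ c i, y ∈ l ∧ b ∈ y) :
    Club l (l.sep fun g => (∃ b, b ∈ g) ∧ ∀ i ∈ x, ∀ b ∈ g, ∃ y ∈ c i, b ∈ y ∧ y ∈ g) := by
  refine ⟨sep_subset, fun b hb => ?_, fun g hg hne h => mem_sep.2 ⟨hg, hne, fun i hi b hb => ?_⟩⟩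
  · choose! Y hY1 hY2 hY3 using h1
    have h2 : ∀ b ∈ l, ∃ d ∈ l, ∀ i ∈ x, Y i b ∈ d := fun b hb =>
      hl.bddV hx (fun i => Y i b) fun i hi => hY2 i hi b hb
    choose! N hN1 hN2 using h2
    obtain ⟨g, hg, h3, h4⟩ := hl.exists_closed N hN1 hb
    refine ⟨g, mem_sep.2 ⟨hg, ⟨b, h3⟩, fun i hi d hd => ?_⟩, h3⟩
    have hd' := hl.1.mem_trans hd hg
    exact ⟨Y i d, hY1 i hi d hd', hY3 i hi d hd', (hl.1.mem hg).mem_trans (hN2 d hd' i hi) (h4 d hd)⟩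
  · obtain ⟨z, hz, h2, h3⟩ := h b hb
    obtain ⟨y, hy, h4, h5⟩ := (mem_sep.1 hz).2.2 i hi b h2
    exact ⟨y, hy, h4, (hl.1.mem hg).mem_trans h5 h3⟩

/-- A stationary set covered by few sets: one of them is stationary. -/
theorem Regular.stat_union (hl : Regular Set.univ l) {x S : ZFSet.{u}} (hx : card x < card l)
    (hS : Stat Set.univ l S) (T : ZFSet.{u} → ZFSet.{u}) (h1 : ∀ i ∈ x, T i ⊆ l)
    (h2 : ∀ y ∈ S, ∃ i ∈ x, y ∈ T i) : ∃ i ∈ x, Stat Set.univ l (T i) := by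
  by_contra h
  have h3 : ∀ i ∈ x, ∃ c, Club l c ∧ ∀ y ∈ T i, y ∉ c := fun i hi => by
    by_contra h'
    push Not at h'
    exact h ⟨i, hi, h1 i hi, fun c _ hc => h' c hc⟩
  choose! c hc1 hc2 using h3
  obtain ⟨g, hg, h4⟩ := hS.2 _ trivial (hl.club_lim hx c fun i hi b hb => by
    obtain ⟨y, hy, h⟩ := (hc1 i hi).2.1 b hb
    exact ⟨y, hy, (hc1 i hi).1 hy, h⟩)
  obtain ⟨i, hi, h5⟩ := h2 g hg
  obtain ⟨h6, h7, h8⟩ := mem_sep.1 h4
  exact hc2 i hi g h5 ((hc1 i hi).2.2 g h6 h7 (h8 i hi))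

theorem Stat.mono {S T : ZFSet.{u}} (h : Stat C l S) (h1 : S ⊆ T) (h2 : T ⊆ l) : Stat C l T :=
  ⟨h2, fun c hc hc' => (h.2 c hc hc').imp fun _ hx => ⟨h1 hx.1, hx.2⟩⟩

theorem Stat.nonempty (hC : InnerModel C) (hl : Regular C l) {S : ZFSet.{u}} (h : Stat C l S) :
    ∃ x, x ∈ S :=
  (h.2 l (hC.ord _ hl.1) ⟨subset_rfl, fun _ hb => hl.succ hC hb, fun _ hg _ _ => hg⟩).imp
    fun _ hx => hx.1

end regular

end Pool.Agent.MP_ecfd11_lc
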