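import Pool.Agent.MP_ecfd11_lc.Refl

/-!
Ordinal definable choice.
-/

set_option synthInstance.maxSize 4000

namespace Pool.Agent.MP_ecfd11_lc

universe u

open ZFSet Function Classical Cardinal

/-- A bound for the free variables. -/
def fv : Fml → ℕ
  | .mem i j => max i j + 1
  | .eq i j => max i j + 1
  | .neg φ => fv φ
  | .and φ ψ => max (fv φ) (fv ψ)
  | .all φ => fv φ

theorem sat_congr {C : Set ZFSet.{u}} (φ : Fml) {v w : ℕ → ZFSet.{u}}
    (h : ∀ n < fv φ, v n = w n) : Sat C φ v ↔ Sat C φ w := by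
  induction φ generalizing v w with
  | mem i j => simp only [Sat]; rw [h i (by simp [fv]), h j (by simp [fv])]
  | eq i j => simp only [Sat]; rw [h i (by simp [fv]), h j (by simp [fv])]
  | neg φ ih => exact not_congr (ih h)
  | and φ ψ ih1 ih2 =>
    exact and_congr (ih1 fun n hn => h n (lt_max_of_lt_left hn))
      (ih2 fun n hn => h n (lt_max_of_lt_right hn))
  | all φ ih =>
    refine forall_congr' fun a => forall_congr' fun _ => ih fun n hn => ?_
    cases n with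
    | zero => rfl
    | succ n => exact h n (Nat.lt_of_succ_lt hn)

/-- Finite binary trees of ordinals. -/
inductive Tr : ZFSet.{u} → Prop
  | leaf {x : ZFSet.{u}} : x.IsOrdinal → Tr x
  | node {x y : ZFSet.{u}} : Tr x → Tr y → Tr (pair x y)

theorem tr_code (φ : Fml) : Tr (code.{u} φ) := by
  induction φ with
  | mem i j => exact .node (.leaf (isOrdinal_toZFSet _))
                (.node (.leaf (isOrdinal_toZFSet _)) (.leaf (isOrdinal_toZFSet _)))
  | eq i j => exact .node (.leaf (isOrdinal_toZFSet _))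
                (.node (.leaf (isOrdinal_toZFSet _)) (.leaf (isOrdinal_toZFSet _)))
  | neg φ ih => exact .node (.leaf (isOrdinal_toZFSet _)) ih
  | and φ ψ ih1 ih2 => exact .node (.leaf (isOrdinal_toZFSet _)) (.node ih1 ih2)
  | all φ ih => exact .node (.leaf (isOrdinal_toZFSet _)) ih

theorem exists_list (n : ℕ) (w : ℕ → ZFSet.{u}) (hw : ∀ i, (w i).IsOrdinal) :
    ∃ l, Tr l ∧ ∀ i < n, asg l i = w i := by
  induction n generalizing w with
  | zero => exact ⟨∅, .leaf isOrdinal_empty, fun _ h => absurd h (Nat.not_lt_zero _)⟩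
  | succ n ih =>
    obtain ⟨l, h1, h2⟩ := ih (fun i => w (i + 1)) fun i => hw _
    refine ⟨pair (w 0) l, .node (.leaf (hw 0)) h1, fun i hi => ?_⟩
    rw [asg_pair]
    cases i with
    | zero => rfl
    | succ i => exact h2 i (Nat.lt_of_succ_lt_succ hi)

theorem Tr.mem {C : Set ZFSet.{u}} (hC : InnerModel C) {t : ZFSet.{u}} (h : Tr t) : t ∈ C := by
  induction h with
  | leaf h => exact hC.ord _ h
  | node _ _ ih1 ih2 => exact hC.pair_mem ih1 ih2

theorem not_isOrdinal_pair (a b : ZFSet.{u}) : ¬ (pair a b).IsOrdinal := fun h => by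
  have h1 := empty_mem_of_ne h fun e => notMem_empty {a} (e ▸ by simp [pair])
  simp only [pair, mem_pair] at h1
  rcases h1 with h1 | h1
  · exact notMem_empty a (h1 ▸ by simp)
  · exact notMem_empty a (h1 ▸ by simp)

/-- The set defined by the tree `t`. -/
noncomputable def ev (C : Set ZFSet.{u}) (t : ZFSet.{u}) : ZFSet.{u} :=
  ⋃₀ ((vC C (fst t)).sep fun y => pair y (snd (snd t)) ∈ satSet (vC C (fst t)) (fst (snd t)))

variable {C : Set ZFSet.{u}} [hc : Ctx C On]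

instance Tm.ev (t : (ℕ → ZFSet.{u}) → ZFSet.{u}) [Tm C On t] : Tm C On (fun v => ev C (t v)) := by
  unfold MP_ecfd11_lc.ev; infer_instance

theorem OD.exists_tree {y : ZFSet.{u}} (h : OD C y) : ∃ t, Tr t ∧ ev C t = y := by
  obtain ⟨hy, φ, w, hw, h⟩ := h
  obtain ⟨l, l1, l2⟩ := exists_list (fv φ) w hw
  obtain ⟨b, b1, b2, b3⟩ := exists_reflect hc.im (max (rank y) (rank l))
  have hl := (mem_vC hc.im).2 ⟨l1.mem hc.im, (le_max_right _ _).trans_lt b1⟩
  have hy' := (mem_vC hc.im).2 ⟨hy, (le_max_left _ _).trans_lt b1⟩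
  refine ⟨pair b.toZFSet (pair (code φ) l),
    .node (.leaf (isOrdinal_toZFSet _)) (.node (tr_code φ) l1), ?_⟩
  have : ((vC C b.toZFSet).sep fun z => pair z l ∈ satSet (vC C b.toZFSet) (code φ)) = {y} := by
    ext z
    rw [mem_sep, mem_singleton]
    have key : z ∈ vC C b.toZFSet →
        (pair z l ∈ satSet (vC C b.toZFSet) (code φ) ↔ z = y) := fun hz => by
      rw [mem_satSet b2 φ (b2 z hz l hl), b3 φ _ (b2 z hz l hl), asg_pair,
        ← h z ((mem_vC hc.im).1 hz).1]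
      refine sat_congr φ fun n hn => ?_
      cases n with
      | zero => rfl
      | succ n => exact l2 n (Nat.lt_of_succ_lt hn)
    exact ⟨fun h => (key h.1).1 h.2, fun e => ⟨e ▸ hy', (key (e ▸ hy')).2 e⟩⟩
  simp only [ev, fst_pair, snd_pair, this, sUnion_singleton]

instance Tm.ite' {A : Set ZFSet.{u}} [Ctx C A] (s t : (ℕ → ZFSet.{u}) → ZFSet.{u}) [Tm C A s]
    [Tm C A t] (P : (ℕ → ZFSet.{u}) → Prop) [Df C A P] {d : ∀ v, Decidable (P v)} :
    Tm C A (fun v => @_root_.ite _ (P v) (d v) (s v) (t v)) :=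
  Tm.of _ (Tm.ite s t P) fun _ _ => by congr

/-- Definite descriptions. -/
theorem Tm.desc {A : Set ZFSet.{u}} [hc : Ctx C A] (R : ZFSet.{u} → ZFSet.{u} → Prop)
    [Df C A (fun v => R (v 0) (v 1))]
    (hu : ∀ x ∈ C, ∀ y ∈ C, ∀ y' ∈ C, R x y → R x y' → y = y') :
    ∃ F : ZFSet.{u} → ZFSet.{u}, Tm C A (fun v => F (v 0)) ∧
      ∀ x ∈ C, (∃ y ∈ C, R x y) → R x (F x) := by
  have := Df.two (C := C) (A := A) R
  refine ⟨fun x => if h : ∃ y ∈ C, R x y then h.choose else ∅, ⟨fun v _ => ?_,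
    Df.of (fun v => R (v 1) (v 0) ∨ v 0 = ∅ ∧ ¬ ∃ y, y ∈ C ∧ R (v 1) y) (by infer_instance)
      fun v hv => ?_⟩, fun x _ h => ?_⟩
  · dsimp only
    split_ifs with h
    exacts [h.choose_spec.1, hc.sub hc.empty_mem]
  · dsimp only
    split_ifs with h
    · exact ⟨fun h' => h'.elim (fun h' => hu _ (hv _) _ (hv _) _ h.choose_spec.1 h'
        h.choose_spec.2) fun h' => absurd h h'.2, fun e => Or.inl (e ▸ h.choose_spec.2)⟩
    · exact ⟨fun h' => h'.elim (fun h' => absurd ⟨_, hv 0, h'⟩ h) fun h' => h'.1,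
        fun e => Or.inr ⟨e, h⟩⟩
  · simp only [h, dif_pos]
    exact h.choose_spec.2

theorem exists_enc {a : ZFSet.{u}} (ha : a.IsOrdinal) (ha' : om ⊆ a) :
    ∃ e : ZFSet.{u} → ZFSet.{u}, Tm C On (fun v => e (v 0)) ∧
      (∀ t, Tr t → rank t < rank a → e t ∈ a) ∧
      ∀ s t, e s ∈ a → e s = e t → s = t := by
  obtain ⟨p, p0, p1, p2⟩ := DInj.pairing (C := C) ha ha'
  have := Tm.one (C := C) (A := On) p
  have : Tm C On (fun _ => a) := Tm.ofOrd ha
  have n0 : ∀ n, nat n ∈ a := fun n =>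
    ha' (Ordinal.toZFSet_mem_toZFSet_iff.2 (Ordinal.natCast_lt_omega0 n))
  let F : ZFSet.{u} → ZFSet.{u} → ZFSet.{u} := fun t g =>
    if t ∈ a then p (pair (nat 0) t) else
      if t = pair (fst t) (snd t) ∧ app g (fst t) ∈ a ∧ app g (snd t) ∈ a then
        p (pair (nat 1) (p (pair (app g (fst t)) (app g (snd t))))) else a
  obtain ⟨e, he⟩ := exists_rec tc tc_wf F
  have h1 : ∀ t ∈ a, e t = p (pair (nat 0) t) := fun t ht => by rw [he]; exact if_pos ht
  have h2 : ∀ x y, e x ∈ a → e y ∈ a →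
      e (pair x y) = p (pair (nat 1) (p (pair (e x) (e y)))) := fun x y hx hy => by
    rw [he]
    simp only [F, fst_pair, snd_pair, app_gr (fst_mem_tc _ _), app_gr (snd_mem_tc _ _)]
    rw [if_neg fun h => not_isOrdinal_pair _ _ (ha.mem h), if_pos ⟨trivial, hx, hy⟩]
  have h3 : ∀ t, e t ∈ a → t ∈ a ∨ ∃ x y, t = pair x y ∧ e x ∈ a ∧ e y ∈ a := fun t ht => by
    by_cases h : t ∈ a
    · exact Or.inl h
    · rw [he] at ht
      simp only [F, h, if_false] at ht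
      split_ifs at ht with h'
      · obtain ⟨h4, h5, h6⟩ := h'
        rw [h4, fst_pair, app_gr (fst_mem_tc _ _)] at h5
        rw [h4, snd_pair, app_gr (snd_mem_tc _ _)] at h6
        exact Or.inr ⟨_, _, h4, h5, h6⟩
      · exact absurd ht (mem_irrefl a)
  have q1 : ∀ x ∈ a, ∀ y ∈ a, p (pair x y) ∈ a := fun x hx y hy =>
    p1 _ (pair_mem_prod.2 ⟨hx, hy⟩)
  have q2 : ∀ x ∈ a, ∀ y ∈ a, ∀ x' ∈ a, ∀ y' ∈ a, p (pair x y) = p (pair x' y') →
      x = x' ∧ y = y' := fun x hx y hy x' hx' y' hy' e =>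
    pair_inj.1 (p2 _ (pair_mem_prod.2 ⟨hx, hy⟩) _ (pair_mem_prod.2 ⟨hx', hy'⟩) e)
  refine ⟨e, Tm.recursion (fun _ x => tc x) (fun _ => F) (fun _ => e)
    (hF := by simp only [F]; infer_instance) (fun _ _ => tc_wf) fun _ _ x _ => he x,
    fun t ht => ?_, fun s => ?_⟩
  · induction ht with
    | leaf h =>
      intro h4
      have := (h.rank_lt_iff_mem ha).1 h4
      rw [h1 _ this]
      exact q1 _ (n0 0) _ this
    | @node x y _ _ ih1 ih2 =>
      intro h4
      have r1 : rank x < rank (pair x y) :=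
        (rank_lt_of_mem (x := {x}) (by simp)).trans (rank_lt_of_mem (by simp [pair]))
      have r2 : rank y < rank (pair x y) :=
        (rank_lt_of_mem (x := {x, y}) (by simp)).trans (rank_lt_of_mem (by simp [pair]))
      have a1 := ih1 (r1.trans h4)
      have a2 := ih2 (r2.trans h4)
      rw [h2 x y a1 a2]
      exact q1 _ (n0 1) _ (q1 _ a1 _ a2)
  · induction s using tc_wf.induction with
    | _ s ih =>
      intro t hs e'
      rcases h3 s hs with h4 | ⟨x, y, rfl, a1, a2⟩ <;>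
        rcases h3 t (e' ▸ hs) with h5 | ⟨x', y', rfl, a3, a4⟩
      · rw [h1 s h4, h1 t h5] at e'
        exact (q2 _ (n0 0) _ h4 _ (n0 0) _ h5 e').2
      · rw [h1 s h4, h2 _ _ a3 a4] at e'
        exact absurd (nat_inj.1 (q2 _ (n0 0) _ h4 _ (n0 1) _ (q1 _ a3 _ a4) e').1) (by simp)
      · rw [h1 t h5, h2 _ _ a1 a2] at e'
        exact absurd (nat_inj.1 (q2 _ (n0 1) _ (q1 _ a1 _ a2) _ (n0 0) _ h5 e').1) (by simp)
      · rw [h2 _ _ a1 a2, h2 _ _ a3 a4] at e'
        obtain ⟨e1, e2⟩ := q2 _ a1 _ a2 _ a3 _ a4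
          (q2 _ (n0 1) _ (q1 _ a1 _ a2) _ (n0 1) _ (q1 _ a3 _ a4) e').2
        rw [ih x (fst_mem_tc _ _) x' a1 e1, ih y (snd_mem_tc _ _) y' a2 e2]

/-- Ordinal definable witnesses can be chosen by an ordinal definable function. -/
theorem od_choice (a : ZFSet.{u}) (R : ZFSet.{u} → ZFSet.{u} → Prop)
    [Df C On (fun v => R (v 0) (v 1))] (h : ∀ x ∈ a, ∃ y, OD C y ∧ R x y) :
    ∃ F : ZFSet.{u} → ZFSet.{u}, Tm C On (fun v => F (v 0)) ∧ ∀ x ∈ a, x ∈ C → R x (F x) := by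
  have h1 : ∀ x ∈ a, ∃ t, Tr t ∧ R x (ev C t) := fun x hx => by
    obtain ⟨y, h1, h2⟩ := h x hx
    obtain ⟨t, h3, rfl⟩ := h1.exists_tree
    exact ⟨t, h3, h2⟩
  choose! T t1 t2 using h1
  obtain ⟨b, hb, hb'⟩ : ∃ b : Ordinal.{u}, Ordinal.omega0 ≤ b ∧ rank (img T a) ≤ b :=
    ⟨_, le_max_left _ _, le_max_right _ _⟩
  have hbo := isOrdinal_toZFSet b
  obtain ⟨e, e0, e1, e2⟩ := exists_enc (C := C) hbo (Ordinal.toZFSet_subset_toZFSet_iff.2 hb)
  have := Tm.one (C := C) (A := On) e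
  have := Df.two (C := C) (A := On) R
  obtain ⟨F, f0, f1⟩ := Tm.desc (C := C) (A := On) (fun x t => e t ∈ b.toZFSet ∧ R x (ev C t) ∧
      ∀ s, s ∈ C → e s ∈ b.toZFSet → R x (ev C s) → e s ∉ e t)
    fun x _ s hs t ht ⟨s1, s2, s3⟩ ⟨u1, u2, u3⟩ => by
      rcases (hbo.mem s1).mem_trichotomous (hbo.mem u1) with h | h | h
      exacts [absurd h (u3 s hs s1 s2), e2 s t s1 h, absurd h (s3 t ht u1 u2)]
  have := Tm.one (C := C) (A := On) F
  refine ⟨fun x => ev C (F x), inferInstance, fun x hx hxC => (f1 x hxC ?_).2.1⟩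
  obtain ⟨t, ⟨u1, u2, u3⟩, u4⟩ := (InvImage.wf e mem_wf).has_min
    {t | t ∈ C ∧ e t ∈ b.toZFSet ∧ R x (ev C t)} ⟨T x, (t1 x hx).mem hc.im, e1 _ (t1 x hx) (by
      rw [Ordinal.rank_toZFSet]
      exact (rank_lt_of_mem (mem_img.2 ⟨x, hx, rfl⟩)).trans_le hb'), t2 x hx⟩
  exact ⟨t, u1, u2, u3, fun s s1 s2 s3 => u4 s ⟨s1, s2, s3⟩⟩

end Pool.Agent.MP_ecfd11_lc
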