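import Pool.Agent.MP_ecfd11_lc.Defs

/-!
Strong measurability in HOD for an arbitrary cofinality.
-/

namespace Pool.Agent.MP_ecfd11_lc

universe u

open ZFSet

/-- `a` is a limit ordinal of cofinality `g` in `M`. -/
def Cof (M : Set ZFSet.{u}) (g a : ZFSet.{u}) : Prop :=
  a.IsOrdinal ∧ (∃ f ∈ M, IsFunc g a f ∧ ∀ b ∈ a, ∃ n y, pair n y ∈ f ∧ b ∈ y) ∧
    ∀ d ∈ g, ∀ f ∈ M, IsFunc d a f → ∃ b ∈ a, ∀ x y, pair x y ∈ f → y ∈ b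

/-- `s` is a sequence of length `k` that partitions `cof(g) ∩ l` into stationary subsets of `l`,
in the sense of `M`. -/
def CofPartition (M : Set ZFSet.{u}) (g l k s : ZFSet.{u}) : Prop :=
  IsFunc k (powerset l) s ∧
  (∀ i S, pair i S ∈ s → Stat M l S ∧ ∀ x ∈ S, Cof M g x) ∧
  (∀ i S j T, pair i S ∈ s → pair j T ∈ s → i ≠ j → ∀ x ∈ S, x ∉ T) ∧
  ∀ x ∈ l, Cof M g x → ∃ i S, pair i S ∈ s ∧ x ∈ S

/-- In `M`, `l` is `g`-strongly measurable in HOD. -/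
def CofSM (M : Set ZFSet.{u}) (g l : ZFSet.{u}) : Prop :=
  Regular M l ∧ ∃ k ∈ l, k ≠ ∅ ∧ (¬ ∃ f, HOD M f ∧ IsInj l (powerset k) f) ∧
    ¬ ∃ s, HOD M s ∧ CofPartition M g l k s

end Pool.Agent.MP_ecfd11_lc
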