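import Pool.Agent.MP_ecfd11_lc.Choice
import Pool.Agent.MP_ecfd11_lc.Defs2

/-!
Cofinalities.
-/

set_option synthInstance.maxSize 4000

namespace Pool.Agent.MP_ecfd11_lc

universe u

open ZFSet Function Classical Cardinal

instance Df.cof {C A : Set ZFSet.{u}} [Ctx C A] (s t : (ℕ → ZFSet.{u}) → ZFSet.{u}) [Tm C A s]
    [Tm C A t] : Df C A (fun v => Cof C (s v) (t v)) :=
  Df.of (fun v => (t v).IsOrdinal ∧ (∃ f, f ∈ C ∧ IsFunc (s v) (t v) f ∧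
    ∀ b, b ∈ t v → ∃ n y, pair n y ∈ f ∧ b ∈ y) ∧ ∀ d, d ∈ s v → ∀ f, f ∈ C →
      IsFunc d (t v) f → ∃ b, b ∈ t v ∧ ∀ x y, pair x y ∈ f → y ∈ b)
    (by infer_instance) fun _ _ => Iff.rfl

theorem _root_.ZFSet.IsFunc.app_mem' {x y f a : ZFSet.{u}} (h : IsFunc x y f) (ha : a ∈ x) :
    app f a ∈ y := (pair_mem_prod.1 (h.1 (h.app_mem ha))).2

theorem ord_trans {x y z : ZFSet.{u}} (hz : z.IsOrdinal) (h1 : x ∈ y) (h2 : y ⊆ z) : x ∈ z :=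
  h2 h1

theorem exists_bound2 {a x y : ZFSet.{u}} (ha : a.IsOrdinal) (hx : x ∈ a) (hy : y ∈ a) :
    ∃ b ∈ a, x ⊆ b ∧ y ⊆ b :=
  ⟨x ∪ y, union_mem ha hx hy, fun _ h => mem_union.2 (Or.inl h), fun _ h => mem_union.2 (Or.inr h)⟩

theorem succ_mem_om {x : ZFSet.{u}} (hx : x ∈ om) : insert x x ∈ om := by
  have hx' := (isOrdinal_toZFSet _).mem hx
  exact (mem_om_iff (isOrdinal_succ hx')).2 (card_insert_le.trans_lt
    (add_lt_aleph0 ((mem_om_iff hx').1 hx) one_lt_aleph0))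

theorem empty_mem_om : ∅ ∈ om.{u} :=
  (mem_om_iff isOrdinal_empty).2 (by rw [card_empty]; exact aleph0_pos)

theorem bdd_finite {a : ZFSet.{u}} (ha : a.IsOrdinal) (h0 : ∃ x, x ∈ a)
    (h1 : ∀ x ∈ a, ∃ y ∈ a, x ∈ y) {d : ZFSet.{u}} (hd : d ∈ om) (F : ZFSet.{u} → ZFSet.{u})
    (hF : ∀ i ∈ d, F i ∈ a) : ∃ b ∈ a, ∀ i ∈ d, F i ∈ b := by
  obtain ⟨o, ho, rfl⟩ := Ordinal.mem_toZFSet_iff.1 hd
  obtain ⟨n, rfl⟩ := Ordinal.lt_omega0.1 ho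
  clear ho hd
  change ∀ i ∈ nat n, _ at hF
  change ∃ b ∈ a, ∀ i ∈ nat n, _
  induction n with
  | zero => exact h0.imp fun x hx => ⟨hx, fun i hi => by simp [nat] at hi⟩
  | succ n ih =>
    rw [nat_succ] at hF ⊢
    obtain ⟨b, hb, h2⟩ := ih fun i hi => hF i (mem_insert_of_mem _ hi)
    obtain ⟨c, hc, h3⟩ := h1 _ (hF _ (mem_insert _ _))
    obtain ⟨e, he, h4, h5⟩ := exists_bound2 ha hb hc
    refine ⟨e, he, fun i hi => ?_⟩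
    rcases mem_insert_iff.1 hi with rfl | hi
    exacts [h5 h3, h4 (h2 i hi)]

theorem cof_om_of {C : Set ZFSet.{u}} {a f : ZFSet.{u}} (ha : a.IsOrdinal) (hf : f ∈ C)
    (h1 : IsFunc om a f) (h2 : ∀ b ∈ a, ∃ n y, pair n y ∈ f ∧ b ∈ y) : Cof C om a := by
  refine ⟨ha, ⟨f, hf, h1, h2⟩, fun d hd g _ hg => ?_⟩
  obtain ⟨b, hb, h3⟩ := bdd_finite ha ⟨_, h1.app_mem' empty_mem_om⟩ (fun x hx => by
    obtain ⟨n, y, h3, h4⟩ := h2 x hx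
    exact ⟨y, (pair_mem_prod.1 (h1.1 h3)).2, h4⟩) hd (app g) fun i hi => hg.app_mem' hi
  exact ⟨b, hb, fun x y h4 => hg.app_eq h4 ▸ h3 x (pair_mem_prod.1 (hg.1 h4)).1⟩

theorem cof_om_of_fun {a : ZFSet.{u}} (ha : a.IsOrdinal) (F : ZFSet.{u} → ZFSet.{u})
    (h1 : ∀ n ∈ om, F n ∈ a) (h2 : ∀ b ∈ a, ∃ n ∈ om, b ∈ F n) : Cof Set.univ om a :=
  cof_om_of ha (f := gr F om) trivial (isFunc_gr h1) fun b hb => by
    obtain ⟨n, h3, h4⟩ := h2 b hb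
    exact ⟨n, _, pair_mem_gr.2 ⟨h3, rfl⟩, h4⟩

theorem cof_om_om : Cof Set.univ om.{u} om :=
  cof_om_of_fun (isOrdinal_toZFSet _) (fun x => x) (fun _ h => h)
    fun b hb => ⟨_, succ_mem_om hb, mem_insert _ _⟩

theorem Cof.exists_fun {M : Set ZFSet.{u}} (hM : InnerModel M) {g x : ZFSet.{u}}
    (hg : g.IsOrdinal) (h : Cof M g x) : ∃ F : ZFSet.{u} → ZFSet.{u}, (∀ i ∈ g, F i ∈ x) ∧
      (∀ b ∈ x, ∃ i ∈ g, b ∈ F i) ∧ ∀ d ∈ g, ∃ b ∈ x, ∀ i ∈ d, F i ∈ b := by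
  have := hM.ctx
  obtain ⟨hx, ⟨f, hf, f1, f2⟩, h3⟩ := h
  have : Tm M M (fun _ => f) := Tm.ofMem hf
  refine ⟨app f, fun i hi => f1.app_mem' hi, fun b hb => ?_, fun d hd => ?_⟩
  · obtain ⟨n, y, h4, h5⟩ := f2 b hb
    exact ⟨n, (pair_mem_prod.1 (f1.1 h4)).1, (f1.app_eq h4).symm ▸ h5⟩
  · have : Tm M M (fun _ => d) := Tm.ofOrd (hg.mem hd)
    have h4 : Tm M M (fun _ => gr (fun i => app f i) d) := inferInstance
    obtain ⟨b, hb, h5⟩ := h3 d hd _ h4.val_mem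
      (isFunc_gr fun i hi => f1.app_mem' (hg.mem_trans hi hd))
    exact ⟨b, hb, fun i hi => h5 i _ (pair_mem_gr.2 ⟨hi, rfl⟩)⟩

theorem Cof.up {M : Set ZFSet.{u}} (hM : InnerModel M) {g x : ZFSet.{u}} (h : Cof M g x)
    (hg : Cof Set.univ om g) : Cof Set.univ om x := by
  obtain ⟨F, f1, f2, f3⟩ := h.exists_fun hM hg.1
  obtain ⟨H, h1, h2, -⟩ := hg.exists_fun innerModel_univ (isOrdinal_toZFSet _)
  choose! B b1 b2 using f3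
  refine cof_om_of_fun h.1 (fun n => B (H n)) (fun n hn => b1 _ (h1 n hn)) fun b hb => ?_
  obtain ⟨i, hi, h3⟩ := f2 b hb
  obtain ⟨n, hn, h4⟩ := h2 i hi
  exact ⟨n, hn, (h.1.mem (b1 _ (h1 n hn))).mem_trans h3 (b2 _ (h1 n hn) i h4)⟩

theorem Cof.down {M : Set ZFSet.{u}} (hM : InnerModel M) {g x : ZFSet.{u}} (hg : g.IsOrdinal)
    (h : Cof M g x) (hx : Cof Set.univ om x) : Cof Set.univ om g := by
  obtain ⟨F, f1, f2, f3⟩ := h.exists_fun hM hg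
  obtain ⟨H, h1, h2, -⟩ := hx.exists_fun innerModel_univ (isOrdinal_toZFSet _)
  choose! I i1 i2 using f2
  refine cof_om_of_fun hg (fun n => I (H n)) (fun n hn => i1 _ (h1 n hn)) fun j hj => ?_
  obtain ⟨b, hb, h3⟩ := f3 j hj
  obtain ⟨c, hc, h4, h5⟩ := exists_bound2 h.1 hb (f1 j hj)
  obtain ⟨n, hn, h6⟩ := h2 c hc
  refine ⟨n, hn, ?_⟩
  have h7 := (h.1.mem (f1 _ (i1 _ (h1 n hn)))).mem_trans h6 (i2 _ (h1 n hn))
  rcases (hg.mem hj).mem_trichotomous (hg.mem (i1 _ (h1 n hn))) with h8 | h8 | h8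
  · exact h8
  · exact absurd (h5 (h8 ▸ h7)) (mem_irrefl _)
  · exact absurd (h4 (h3 _ h8)) (mem_asymm h7)

theorem FC.exists_cof {M : Set ZFSet.{u}} {P le G : ZFSet.{u}} {val : ZFSet.{u} → ZFSet.{u}}
    (h : FC M P le G val) {k : Cardinal.{u}} (hk : ℵ₀ ≤ k) (hPk : card P ≤ k) {x : ZFSet.{u}}
    (hx : Cof Set.univ om x) :
    ∃ g ∈ (Order.succ k).ord.toZFSet, Cof M g x ∧ Cof Set.univ om g := by
  have := h.ctx
  obtain ⟨H, h1, h2, -⟩ := hx.exists_fun innerModel_univ (isOrdinal_toZFSet _)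
  obtain ⟨c, hc, c1, c2, c3⟩ := h.cover hk hPk (a := img H om) (h.im.ord _ hx.1)
    (fun y hy => by obtain ⟨n, hn, rfl⟩ := mem_img.1 hy; exact h1 n hn)
    ((card_img_le _ _).trans (card_om.le.trans hk))
  obtain ⟨t, e, ht, he, e1, e2, e3⟩ := h.im.exists_enum hc
  have : Tm M M (fun _ => t) := Tm.ofOrd ht
  have hg : Tm M M (fun _ => gr e t) := Tm.gr (fun _ => t) (fun _ => e) (h := he)
  obtain ⟨g, ⟨g1, g2, g3⟩, g4⟩ := exists_min_mem (p := fun g => g.IsOrdinal ∧ g ⊆ t ∧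
      ∃ f ∈ M, IsFunc g x f ∧ ∀ b ∈ x, ∃ n y, pair n y ∈ f ∧ b ∈ y)
    ⟨ht, subset_rfl, _, hg.val_mem, isFunc_gr fun i hi => c2 (e1 i hi), fun b hb => by
      obtain ⟨n, hn, h3⟩ := h2 b hb
      obtain ⟨i, hi, h4⟩ := e2 _ (c1 (mem_img.2 ⟨n, hn, rfl⟩))
      exact ⟨i, _, pair_mem_gr.2 ⟨hi, h4⟩, h3⟩⟩
  have g5 : Cof M g x := ⟨hx.1, g3, fun d hd f hf h3 => by
    by_contra h4
    refine g4 d hd ⟨g1.mem hd, (g1.subset_of_mem hd).trans g2, f, hf, h3, fun b hb => ?_⟩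
    obtain ⟨n, hn, h5⟩ := h2 b hb
    push Not at h4
    obtain ⟨i, y, h6, h7⟩ := h4 _ (h1 n hn)
    exact ⟨i, y, h6, ((hx.1.mem (pair_mem_prod.1 (h3.1 h6)).2).notMem_iff_subset
      (hx.1.mem (h1 n hn))).1 h7 h5⟩⟩
  exact ⟨g, (mem_ord_iff g1).2 (Order.lt_succ_of_le
    ((card_mono g2).trans ((card_le_of_inj e e1 e3).trans c3))), g5, g5.down h.im g1 hx⟩

theorem stat_cof_om {C : Set ZFSet.{u}} (hC : InnerModel C) {l : ZFSet.{u}} (hl : Regular C l) :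
    Stat C l (l.sep fun x => Cof C om x) := by
  have := hC.ctx
  refine ⟨sep_subset, fun c hc hc' => ?_⟩
  have : Tm C C (fun _ => l) := Tm.ofOrd hl.1
  have : Tm C C (fun _ => c) := Tm.ofMem hc
  obtain ⟨H, hH⟩ := exists_rec (fun x => x) mem_wf fun _ g =>
    leastBy l (fun x => x) fun x => x ∈ c ∧ ⋃₀ img (fun z => snd z) g ∈ x
  have hH' : Tm C C (fun v => H (v 0)) :=
    Tm.recursion (fun _ x => x) (fun _ _ g =>
      leastBy l (fun x => x) fun x => x ∈ c ∧ ⋃₀ img (fun z => snd z) g ∈ x) (fun _ => H)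
      (hF := by unfold leastBy; infer_instance) (fun _ _ => mem_wf) fun _ _ x _ => hH x
  have hH2 : ∀ x, H x = leastBy l (fun x => x) fun y => y ∈ c ∧ ⋃₀ img H x ∈ y := fun x => by
    rw [hH x, show img (fun z => snd z) (gr H x) = _ from snd_gr _ _]
  have hU : ∀ x ∈ l, (∀ i ∈ x, H i ∈ l) → (⋃₀ img H x : ZFSet.{u}) ∈ l := fun x hx h => by
    obtain ⟨b, hb, h1⟩ := hl.bdd_fun hC hx H hH' h
    refine (isOrdinal_sUnion fun y hy => ?_).mem_of_subset_of_mem hl.1 (fun z hz => ?_) hb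
    · obtain ⟨i, hi, rfl⟩ := mem_img.1 hy
      exact hl.1.mem (h i hi)
    · obtain ⟨_, hy, hz⟩ := mem_sUnion.1 hz
      obtain ⟨i, hi, rfl⟩ := mem_img.1 hy
      exact (hl.1.mem hb).mem_trans hz (h1 i hi)
  have h1 : ∀ x, x ∈ l → H x ∈ l ∧ H x ∈ c ∧ ⋃₀ img H x ∈ H x := fun x => by
    induction x using ZFSet.inductionOn with
    | _ x ih =>
      intro hx
      rw [hH2 x]
      obtain ⟨y, hy, h1⟩ := hc'.2.1 _ (hU x hx fun i hi => (ih i hi (hl.1.mem_trans hi hx)).1)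
      exact leastBy_id hl.1 ⟨y, hc'.1 hy, hy, h1⟩
  have h2 : ∀ n ∈ om, n ∈ l := fun n hn => hl.1.mem_trans hn hl.2.1
  have h3 : ∀ n ∈ om, H n ∈ H (insert n n) := fun n hn =>
    (hl.1.mem (h1 n (h2 n hn)).1).mem_of_subset_of_mem
      (hl.1.mem (h1 _ (h2 _ (succ_mem_om hn))).1)
      (fun z hz => mem_sUnion.2 ⟨_, mem_img.2 ⟨n, mem_insert _ _, rfl⟩, hz⟩)
      (h1 _ (h2 _ (succ_mem_om hn))).2.2
  have h4 : ∀ n ∈ om, H n ∈ (⋃₀ img H om : ZFSet.{u}) := fun n hn =>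
    mem_sUnion.2 ⟨_, mem_img.2 ⟨_, succ_mem_om hn, rfl⟩, h3 n hn⟩
  have h5 := hU _ hl.2.1 fun i hi => (h1 i (h2 i hi)).1
  have hg : Tm C C (fun _ => gr H om) := Tm.gr (fun _ => om) (fun _ => H) (h := hH')
  refine ⟨_, mem_sep.2 ⟨h5, cof_om_of (hl.1.mem h5) hg.val_mem (isFunc_gr h4) fun b hb => ?_⟩,
    hc'.2.2 _ h5 ⟨_, h4 _ empty_mem_om⟩ fun b hb => ?_⟩ <;>
    obtain ⟨_, hy, hb⟩ := mem_sUnion.1 hb <;> obtain ⟨n, hn, rfl⟩ := mem_img.1 hy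
  · exact ⟨n, _, pair_mem_gr.2 ⟨hn, rfl⟩, hb⟩
  · exact ⟨_, (h1 n (h2 n hn)).2.1, hb, h4 n hn⟩

end Pool.Agent.MP_ecfd11_lc
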