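import Pool.Agent.MP_ecfd11_lc.Card

/-!
Collapses of prewellorders, and enumerations of sets inside an inner model.
-/

namespace Pool.Agent.MP_ecfd11_lc

universe u w

open ZFSet Function Classical Cardinal

theorem Df.fam2 {C A : Set ZFSet.{u}} [Ctx C A]
    (R : (ℕ → ZFSet.{u}) → ZFSet.{u} → ZFSet.{u} → Prop)
    [Df C A (fun v => R (fun n => v (n + 1 + 1)) (v 0) (v 1))] (g : ℕ → ℕ)
    (s t : (ℕ → ZFSet.{u}) → ZFSet.{u}) [hs : Tm C A s] [ht : Tm C A t] :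
    Df C A (fun v => R (fun n => v (g n)) (s v) (t v)) :=
  Df.substAll (fun v => R (fun n => v (n + 1 + 1)) (v 0) (v 1))
    (MP_ecfd11_lc.tcons s (MP_ecfd11_lc.tcons t fun i v => v (g i)))
    (Tm.tcons hs (Tm.tcons ht fun i => Tm.var (g i)))

section col

variable {β : Type w} [LinearOrder β] [WellFoundedLT β]

/-- The collapse of the prewellorder induced by `f` on `D`. -/
noncomputable def col (D : ZFSet.{u}) (f : ZFSet.{u} → β) : ZFSet.{u} → ZFSet.{u} :=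
  recF (fun x => D.sep fun y => x ∈ D ∧ f y < f x) fun _ g => img snd g

variable {D : ZFSet.{u}} {f : ZFSet.{u} → β}

theorem col_wf (D : ZFSet.{u}) (f : ZFSet.{u} → β) :
    WellFounded fun y x => y ∈ D.sep fun y => x ∈ D ∧ f y < f x :=
  Subrelation.wf (fun h => (mem_sep.1 h).2.2) (InvImage.wf f wellFounded_lt)

theorem col_eq (D : ZFSet.{u}) (f : ZFSet.{u} → β) (x : ZFSet.{u}) :
    col D f x = img snd (gr (col D f) (D.sep fun y => x ∈ D ∧ f y < f x)) :=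
  recF_eq (col_wf D f) _ x

theorem mem_col {x z : ZFSet.{u}} :
    z ∈ col D f x ↔ x ∈ D ∧ ∃ y ∈ D, f y < f x ∧ col D f y = z := by
  rw [col_eq, snd_gr, mem_img]
  simp only [mem_sep]
  exact ⟨fun ⟨y, ⟨h1, h2, h3⟩, h4⟩ => ⟨h2, y, h1, h3, h4⟩,
    fun ⟨h2, y, h1, h3, h4⟩ => ⟨y, ⟨h1, h2, h3⟩, h4⟩⟩

theorem col_ord (x : ZFSet.{u}) : (col D f x).IsOrdinal := by
  induction x using (InvImage.wf f wellFounded_lt).induction with
  | _ x ih =>
    refine isOrdinal_iff_forall_mem_isOrdinal.2 ⟨fun z hz w hw => ?_, fun z hz => ?_⟩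
    · obtain ⟨hx, y, -, h1, rfl⟩ := mem_col.1 hz
      obtain ⟨-, y', hy', h2, rfl⟩ := mem_col.1 hw
      exact mem_col.2 ⟨hx, y', hy', h2.trans h1, rfl⟩
    · obtain ⟨-, y, -, h1, rfl⟩ := mem_col.1 hz
      exact ih y h1

theorem col_congr {x y : ZFSet.{u}} (hx : x ∈ D) (hy : y ∈ D) (h : f x = f y) :
    col D f x = col D f y := by
  ext z; simp only [mem_col, hx, hy, h]

theorem col_mem_col {x y : ZFSet.{u}} (hx : x ∈ D) (hy : y ∈ D) :
    col D f y ∈ col D f x ↔ f y < f x := by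
  refine ⟨fun h => ?_, fun h => mem_col.2 ⟨hx, y, hy, h, rfl⟩⟩
  rcases lt_trichotomy (f y) (f x) with h' | h' | h'
  · exact h'
  · rw [col_congr hy hx h'] at h; exact absurd h (mem_irrefl _)
  · exact absurd h (mem_asymm (mem_col.2 ⟨hy, x, hx, h', rfl⟩))

theorem col_eq_col {x y : ZFSet.{u}} (hx : x ∈ D) (hy : y ∈ D) :
    col D f x = col D f y ↔ f x = f y := by
  refine ⟨fun h => ?_, col_congr hx hy⟩
  rcases lt_trichotomy (f y) (f x) with h' | h' | h'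
  · exact absurd (h ▸ (col_mem_col hx hy).2 h') (mem_irrefl _)
  · exact h'.symm
  · exact absurd (h ▸ (col_mem_col hy hx).2 h') (mem_irrefl _)

theorem otp_ord (D : ZFSet.{u}) (f : ZFSet.{u} → β) : (img (col D f) D).IsOrdinal := by
  refine isOrdinal_iff_forall_mem_isOrdinal.2 ⟨fun z hz w hw => ?_, fun z hz => ?_⟩
  · obtain ⟨x, -, rfl⟩ := mem_img.1 hz
    obtain ⟨-, y, hy, -, rfl⟩ := mem_col.1 hw
    exact mem_img.2 ⟨y, hy, rfl⟩
  · obtain ⟨x, -, rfl⟩ := mem_img.1 hz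
    exact col_ord x

theorem Tm.col {C A : Set ZFSet.{u}} [Ctx C A] (D : (ℕ → ZFSet.{u}) → ZFSet.{u})
    (f : (ℕ → ZFSet.{u}) → ZFSet.{u} → β)
    (lt : (ℕ → ZFSet.{u}) → ZFSet.{u} → ZFSet.{u} → Prop) [hD : Tm C A D]
    [Df C A (fun v => lt (fun n => v (n + 1 + 1)) (v 0) (v 1))]
    (h : ∀ v, (∀ n, v n ∈ C) → ∀ x ∈ D v, ∀ y ∈ D v, lt v y x ↔ f v y < f v x) :
    Tm C A (fun v => col (D fun n => v (n + 1)) (f fun n => v (n + 1)) (v 0)) := by
  have := Df.fam2 (C := C) (A := A) lt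
  refine Tm.recursion (fun v x => (D v).sep fun y => x ∈ D v ∧ f v y < f v x)
    (fun _ _ g => MP_ecfd11_lc.img MP_ecfd11_lc.snd g)
    (fun v => MP_ecfd11_lc.col (D v) (f v)) (hp := ?_)
    (hF := Tm.of (fun v => MP_ecfd11_lc.img (fun z => MP_ecfd11_lc.snd z) (v 1))
      (by infer_instance) fun _ _ => rfl)
    (fun v _ => col_wf _ _) fun v _ x _ => col_eq _ _ x
  refine Tm.of (fun v => (D fun n => v (n + 1)).sep fun y =>
    v 0 ∈ D (fun n => v (n + 1)) ∧ lt (fun n => v (n + 1)) y (v 0)) (by infer_instance)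
    fun v hv => ?_
  ext y
  simp only [mem_sep]
  exact and_congr_right fun hy => and_congr_right fun hx => h _ (fun n => hv _) _ hx _ hy

end col

/-- The collapse of a set of ordinals. -/
noncomputable def colIn (b : ZFSet.{u}) : ZFSet.{u} → ZFSet.{u} :=
  col (b.sep IsOrdinal) rank

instance Tm.colIn {C A : Set ZFSet.{u}} [Ctx C A] (s t : (ℕ → ZFSet.{u}) → ZFSet.{u})
    [Tm C A s] [Tm C A t] : Tm C A (fun v => colIn (s v) (t v)) :=
  haveI : Tm C A (fun v => MP_ecfd11_lc.colIn (v 1) (v 0)) :=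
    Tm.col (fun v => (v 0).sep fun x => x.IsOrdinal) (fun _ => rank) (fun _ y x => y ∈ x)
      fun _ _ _ hx _ hy => ((mem_sep.1 hy).2.rank_lt_iff_mem (mem_sep.1 hx).2).symm
  Tm.two (fun a b => MP_ecfd11_lc.colIn b a) t s

theorem colIn_inj {b x y : ZFSet.{u}} (hb : ∀ z ∈ b, z.IsOrdinal) (hx : x ∈ b) (hy : y ∈ b)
    (h : colIn b x = colIn b y) : x = y :=
  ((hb x hx).rank_inj (hb y hy)).1
    ((col_eq_col (mem_sep.2 ⟨hx, hb x hx⟩) (mem_sep.2 ⟨hy, hb y hy⟩)).1 h)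

theorem colIn_ord (b x : ZFSet.{u}) : (colIn b x).IsOrdinal := col_ord x

theorem img_colIn_ord {b : ZFSet.{u}} (hb : ∀ z ∈ b, z.IsOrdinal) :
    (img (colIn b) b).IsOrdinal := by
  have e : b.sep IsOrdinal = b := by ext z; simpa using hb z
  have := otp_ord (b.sep IsOrdinal) rank
  rwa [← colIn, e] at this

theorem card_colIn_le (b x : ZFSet.{u}) : card (colIn b x) ≤ card b :=
  card_le_of_surj (colIn b) fun _ hz => by
    obtain ⟨-, y, hy, -, e⟩ := mem_col.1 hz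
    exact ⟨y, (mem_sep.1 hy).1, e⟩

/-- Every set of an inner model is enumerated by an ordinal inside the model. -/
theorem InnerModel.exists_enum {C : Set ZFSet.{u}} (hC : InnerModel C) {T : ZFSet.{u}}
    (hT : T ∈ C) : ∃ (g : ZFSet.{u}) (h : ZFSet.{u} → ZFSet.{u}), g.IsOrdinal ∧
      Tm C C (fun v => h (v 0)) ∧ (∀ i ∈ g, h i ∈ T) ∧ (∀ x ∈ T, ∃ i ∈ g, h i = x) ∧
      ∀ i ∈ g, ∀ j ∈ g, h i = h j → i = j := by
  have := hC.ctx
  have hT' : Tm C C (fun _ => T) := Tm.ofMem hT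
  have h0 : ∀ n : ℕ, (fun _ : ℕ => (∅ : ZFSet.{u})) n ∈ C := fun _ => this.empty_mem
  have hx : Tm C C (fun _ => img (fun a => prod {a} a) ((pw C T).sep fun a => ∃ z, z ∈ a)) :=
    inferInstance
  obtain ⟨c, hc, hc2⟩ := hC.choice _ (hx.mem _ h0)
    (fun y hy => by
      obtain ⟨a, ha, rfl⟩ := mem_img.1 hy
      obtain ⟨z, hz⟩ := (mem_sep.1 ha).2
      exact ⟨pair a z, pair_mem_prod.2 ⟨mem_singleton.2 rfl, hz⟩⟩)
    (fun y hy y' hy' hne z hz hz' => by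
      obtain ⟨a, -, rfl⟩ := mem_img.1 hy
      obtain ⟨a', -, rfl⟩ := mem_img.1 hy'
      obtain ⟨p, hp, q, -, rfl⟩ := mem_prod.1 hz
      have := (pair_mem_prod.1 hz').1
      rw [mem_singleton] at hp this
      exact hne (by rw [← hp, ← this]))
  have hc' : Tm C C (fun _ => c) := Tm.ofMem hc
  let ch : ZFSet.{u} → ZFSet.{u} := fun a => ⋃₀ (a.sep fun x => pair a x ∈ c)
  have hch : ∀ a ∈ C, a ⊆ T → (∃ z, z ∈ a) → ch a ∈ a := by
    intro a ha h1 h2
    obtain ⟨z, ⟨hz, hzc⟩, hu⟩ := hc2 _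
      (mem_img.2 ⟨a, mem_sep.2 ⟨mem_pw.2 ⟨h1, ha⟩, h2⟩, rfl⟩)
    obtain ⟨p, hp, q, hq, rfl⟩ := mem_prod.1 hz
    rw [mem_singleton] at hp
    subst hp
    have : (p.sep fun x => pair p x ∈ c) = {q} := by
      ext x
      rw [mem_sep, mem_singleton]
      exact ⟨fun h => (pair_inj.1 (hu _ ⟨pair_mem_prod.2 ⟨mem_singleton.2 rfl, h.1⟩, h.2⟩)).2,
        fun e => e ▸ ⟨hq, hzc⟩⟩
    simp only [ch, this, sUnion_singleton, hq]
  obtain ⟨H, hH⟩ := exists_rec (fun x => x) mem_wf fun _ g => ch (T \ img snd g)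
  have hH' : Tm C C (fun v => H (v 0)) :=
    Tm.recursion (fun _ x => x) (fun _ _ g => ch (T \ img snd g)) (fun _ => H)
      (hF := Tm.of (fun v => ⋃₀ ((T \ img (fun z => snd z) (v 1)).sep
        fun x => pair (T \ img (fun z => snd z) (v 1)) x ∈ c)) (by infer_instance) fun _ _ => rfl)
      (fun _ _ => mem_wf) fun _ _ x _ => hH x
  simp only [snd_gr] at hH
  have h1 : ∀ x : ZFSet.{u}, x.IsOrdinal → ¬ T ⊆ img H x → H x ∈ T ∧ H x ∉ img H x := by
    intro x hx h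
    rw [← mem_sdiff, hH x]
    have := Tm.one (C := C) (A := C) H
    have hm : Tm C C (fun v => T \ img (fun z => H z) (v 0)) := inferInstance
    refine hch _ (hm.mem (fun _ => x) fun _ => hC.ord _ hx) (fun z hz => (mem_sdiff.1 hz).1) ?_
    by_contra h'
    exact h fun z hz => by_contra fun hz' => h' ⟨z, mem_sdiff.2 ⟨hz, hz'⟩⟩
  have h2 : ∀ g : ZFSet.{u}, g.IsOrdinal → (∀ i ∈ g, ¬ T ⊆ img H i) →
      ∀ i ∈ g, ∀ j ∈ g, H i = H j → i = j := by
    intro g hg h i hi j hj e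
    rcases (hg.mem hi).mem_trichotomous (hg.mem hj) with h' | h' | h'
    · exact absurd (mem_img.2 ⟨i, h', e⟩) (h1 j (hg.mem hj) (h j hj)).2
    · exact h'
    · exact absurd (mem_img.2 ⟨j, h', e.symm⟩) (h1 i (hg.mem hi) (h i hi)).2
  have h3 : ∃ g : ZFSet.{u}, g.IsOrdinal ∧ T ⊆ img H g := by
    by_contra h
    push Not at h
    have ho := isOrdinal_toZFSet (Order.succ (card T)).ord
    have := card_le_of_inj H (fun i hi => (h1 i (ho.mem hi) (h i (ho.mem hi))).1)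
      (h2 _ ho fun i hi => h i (ho.mem hi))
    rw [card_ord'] at this
    exact (Order.lt_succ _).not_ge this
  obtain ⟨g0, hg0⟩ := h3
  obtain ⟨g, ⟨hg, hg1⟩, hg2⟩ := exists_min_mem (p := fun g => g.IsOrdinal ∧ T ⊆ img H g) hg0
  have h4 : ∀ i ∈ g, ¬ T ⊆ img H i := fun i hi h => hg2 i hi ⟨hg.mem hi, h⟩
  exact ⟨g, H, hg, hH', fun i hi => (h1 i (hg.mem hi) (h4 i hi)).1,
    fun x hx => mem_img.1 (hg1 hx), h2 g hg h4⟩

end Pool.Agent.MP_ecfd11_lc
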