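import Pool.Agent.MP_ecfd11_lc.OD

/-!
Small parameters do not help to split stationary sets definably.
-/

set_option synthInstance.maxSize 4000

namespace Pool.Agent.MP_ecfd11_lc

universe u

open ZFSet Function Classical Cardinal

/-- `s` is a sequence of length `k` that partitions `W ∩ l` into stationary sets. -/
def IsPart (C : Set ZFSet.{u}) (W : ZFSet.{u} → Prop) (l k s : ZFSet.{u}) : Prop :=
  IsFunc k (powerset l) s ∧
  (∀ i S, pair i S ∈ s → Stat C l S ∧ ∀ x ∈ S, W x) ∧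
  (∀ i S j T, pair i S ∈ s → pair j T ∈ s → i ≠ j → ∀ x ∈ S, x ∉ T) ∧
  ∀ x ∈ l, W x → ∃ i S, pair i S ∈ s ∧ x ∈ S

variable {C : Set ZFSet.{u}} [hc : Ctx C On]

theorem Df.three' (R : ZFSet.{u} → ZFSet.{u} → ZFSet.{u} → Prop)
    [Df C On (fun v => R (v 0) (v 1) (v 2))] (s t r : (ℕ → ZFSet.{u}) → ZFSet.{u})
    [Tm C On s] [Tm C On t] [Tm C On r] : Df C On (fun v => R (s v) (t v) (r v)) :=
  Df.three R s t r

theorem exists_idx {X : ZFSet.{u}} [Tm C On (fun _ => X)] {a : ZFSet.{u}} (ha : a.IsOrdinal)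
    (ha' : om ⊆ a) (φ : ZFSet.{u} → ZFSet.{u} → ZFSet.{u} → Prop)
    [Df C On (fun v => φ (v 0) (v 1) (v 2))] :
    ∃ (c : ZFSet.{u} → ZFSet.{u} → ZFSet.{u}) (n : ZFSet.{u}), Tm C On (fun v => c (v 0) (v 1)) ∧
      n.IsOrdinal ∧ card n ≤ 2 ^ card X ∧ (∀ x ∈ a, ∀ y ∈ a, c x y ∈ n) ∧
      ∀ x ∈ a, ∀ y ∈ a, ∀ x' ∈ a, ∀ y' ∈ a,
        c x y = c x' y' ↔ ∀ b ∈ X, (φ b x y ↔ φ b x' y') := by
  have := Df.three' (C := C) φ
  have : Tm C On (fun _ => a) := Tm.ofOrd ha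
  obtain ⟨c, c0, c1, c2⟩ := exists_quot (C := C) (prod a a) ha (DInj.pairing ha ha')
    (fun z => X.sep fun b => φ b (fst z) (snd z))
  refine ⟨fun x y => c (pair x y), _, Tm.one c _, c1, ?_,
    fun x hx y hy => mem_img.2 ⟨_, pair_mem_prod.2 ⟨hx, hy⟩, rfl⟩,
    fun x hx y hy x' hx' y' hy' => ?_⟩
  · rw [← card_powerset]
    have h : ∀ j ∈ img c (prod a a), ∃ z ∈ prod a a, c z = j := fun j hj => mem_img.1 hj
    choose! Z z1 z2 using h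
    exact card_le_of_inj (fun j => X.sep fun b => φ b (fst (Z j)) (snd (Z j)))
      (fun j _ => mem_powerset.2 sep_subset) fun i hi j hj e => by
        rw [← z2 i hi, ← z2 j hj, c2 _ (z1 i hi) _ (z1 j hj), e]
  · rw [c2 _ (pair_mem_prod.2 ⟨hx, hy⟩) _ (pair_mem_prod.2 ⟨hx', hy'⟩), ZFSet.ext_iff]
    simp only [mem_sep, fst_pair, snd_pair, and_congr_right_iff]

theorem no_inj {l k : ZFSet.{u}} (hl : l.IsOrdinal)
    (h1 : ¬ ∃ f, HOD C f ∧ IsInj l (powerset k) f) (hk : k.IsOrdinal)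
    (F : ZFSet.{u} → ZFSet.{u}) [Tm C On (fun v => F (v 0))] (f1 : ∀ j ∈ l, F j ⊆ k)
    (f2 : ∀ i ∈ l, ∀ j ∈ l, F i = F j → i = j) : False :=
  h1 ⟨gr F l, hod_gr hl F fun i hi _ hx => hk.mem (f1 i hi hx),
    isFunc_gr fun j hj => mem_powerset.2 (f1 j hj), fun i j y hi hj => by
      rw [pair_mem_gr] at hi hj
      exact f2 i hi.1 j hj.1 (hi.2.trans hj.2.symm)⟩

/-- The types of ordinals below `l` over a small set of parameters. -/
theorem exists_types {l k X : ZFSet.{u}} (hl : Regular Set.univ l) (hk : k ∈ l)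
    [Tm C On (fun _ => X)] (hX : ∀ n : ZFSet.{u}, n.IsOrdinal → card n ≤ 2 ^ card X → n ⊆ k)
    (hk' : om ⊆ k) (h1 : ¬ ∃ f, HOD C f ∧ IsInj l (powerset k) f)
    (φ : ZFSet.{u} → ZFSet.{u} → ZFSet.{u} → Prop) [Df C On (fun v => φ (v 0) (v 1) (v 2))] :
    ∃ (c : ZFSet.{u} → ZFSet.{u}) (t : ZFSet.{u}), Tm C On (fun v => c (v 0)) ∧ t ∈ l ∧
      (∀ x ∈ l, c x ∈ t) ∧
      ∀ x ∈ l, ∀ y ∈ l, c x = c y ↔ ∀ i ∈ k, ∀ b ∈ X, (φ b i x ↔ φ b i y) := by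
  have hko := hl.1.mem hk
  have hkl := hl.1.subset_of_mem hk
  have : Tm C On (fun _ => l) := Tm.ofOrd hl.1
  have : Tm C On (fun _ => k) := Tm.ofOrd hko
  obtain ⟨d, n, d0, d1, d2, d3, d4⟩ :=
    exists_idx (C := C) (X := X) hl.1 (hl.1.subset_of_mem hl.2.1) φ
  obtain ⟨p, p0, p1, p2⟩ := DInj.pairing (C := C) hko hk'
  have := Tm.one (C := C) (A := On) p
  have := Tm.two (C := C) (A := On) d
  let T : ZFSet.{u} → ZFSet.{u} := fun x => img (fun i => p (pair i (d i x))) k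
  have hT : Tm C On (fun v => T (v 0)) := by simp only [T]; infer_instance
  have := Tm.one (C := C) (A := On) T
  have hd : ∀ i ∈ k, ∀ x ∈ l, pair i (d i x) ∈ prod k k := fun i hi x hx =>
    pair_mem_prod.2 ⟨hi, hX n d1 d2 (d3 i (hkl hi) x hx)⟩
  have hT1 : ∀ x ∈ l, T x ⊆ k := fun x hx z hz => by
    obtain ⟨i, hi, rfl⟩ := mem_img.1 hz
    exact p1 _ (hd i hi x hx)
  obtain ⟨c, c0, c1, c2⟩ := exists_quot (C := C) l hl.1 (DInj.of_subset subset_rfl) T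
  have := Tm.one (C := C) (A := On) c
  refine ⟨c, img c l, c0, ?_, fun x hx => mem_img.2 ⟨x, hx, rfl⟩, fun x hx y hy => ?_⟩
  · by_contra h2
    rw [c1.notMem_iff_subset hl.1] at h2
    have h3 : ∀ j ∈ l, leastBy l (fun x => x) (fun x => c x = j) ∈ l ∧
        c (leastBy l (fun x => x) fun x => c x = j) = j :=
      fun j hj => leastBy_id hl.1 (mem_img.1 (h2 hj))
    have := Tm.leastBy (C := C) l (fun x => x) fun j x => c x = j
    exact no_inj hl.1 h1 hko (fun j => T (leastBy l (fun x => x) fun x => c x = j))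
      (fun j hj => hT1 _ (h3 j hj).1) fun i hi j hj e => by
        rw [← (h3 i hi).2, ← (h3 j hj).2, c2 _ (h3 i hi).1 _ (h3 j hj).1, e]
  · rw [c2 x hx y hy]
    refine ⟨fun e i hi => (d4 i (hkl hi) x hx i (hkl hi) y hy).1 ?_, fun h =>
      img_congr fun i hi => by rw [(d4 i (hkl hi) x hx i (hkl hi) y hy).2 (h i hi)]⟩
    have : p (pair i (d i x)) ∈ T y := e ▸ mem_img.2 ⟨i, hi, rfl⟩
    obtain ⟨j, hj, e'⟩ := mem_img.1 this
    obtain ⟨rfl, e''⟩ := pair_inj.1 (p2 _ (hd j hj y hy) _ (hd i hi x hx) e')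
    exact e''.symm

theorem core_inj {l k X : ZFSet.{u}} (hl : Regular Set.univ l) (hk : k ∈ l)
    [Tm C On (fun _ => X)] (hX : ∀ n : ZFSet.{u}, n.IsOrdinal → card n ≤ 2 ^ card X → n ⊆ k)
    (hk' : om ⊆ k) (h1 : ¬ ∃ f, HOD C f ∧ IsInj l (powerset k) f)
    (φ : ZFSet.{u} → ZFSet.{u} → ZFSet.{u} → Prop) [Df C On (fun v => φ (v 0) (v 1) (v 2))]
    (h : ∀ x ∈ l, ∀ y ∈ l, (∀ i ∈ k, ∀ b ∈ X, (φ b i x ↔ φ b i y)) → x = y) : False := by
  obtain ⟨c, t, -, c1, c2, c3⟩ := exists_types (C := C) hl hk hX hk' h1 φ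
  exact (card_le_of_inj c c2 fun x hx y hy e => h x hx y hy ((c3 x hx y hy).1 e)).not_gt
    (hl.card_lt c1)

/-- A definable family of pairwise disjoint stationary sets gives a partition in HOD. -/
theorem exists_part {l k : ZFSet.{u}} (hl : l.IsOrdinal) (hk : k.IsOrdinal) (hk' : k ≠ ∅)
    (W : ZFSet.{u} → Prop) [Df C On (fun v => W (v 0))]
    (S : ZFSet.{u} → ZFSet.{u} → Prop) [Df C On (fun v => S (v 0) (v 1))]
    (h1 : ∀ i ∈ k, Stat C l (l.sep fun x => W x ∧ S i x))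
    (h2 : ∀ i ∈ k, ∀ j ∈ k, ∀ x ∈ l, S i x → S j x → i = j) :
    ∃ s, HOD C s ∧ IsPart C W l k s := by
  have : Tm C On (fun _ => l) := Tm.ofOrd hl
  have : Tm C On (fun _ => k) := Tm.ofOrd hk
  have := Df.one (C := C) (A := On) W
  have := Df.two (C := C) (A := On) S
  let F : ZFSet.{u} → ZFSet.{u} := fun i =>
    l.sep fun x => W x ∧ (S i x ∨ i = ∅ ∧ ∀ j, j ∈ k → ¬ S j x)
  have : Tm C On (fun v => F (v 0)) := by simp only [F]; infer_instance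
  refine ⟨gr F k, hod_gr hk F fun i _ x hx => hl.mem (mem_sep.1 hx).1,
    isFunc_gr fun i _ => mem_powerset.2 sep_subset, fun i T h => ?_,
    fun i T j T' hi hj hij x hx hx' => ?_, fun x hx hW => ?_⟩
  · obtain ⟨hi, rfl⟩ := pair_mem_gr.1 h
    exact ⟨(h1 i hi).mono (fun x hx => mem_sep.2 ⟨(mem_sep.1 hx).1, (mem_sep.1 hx).2.1,
      Or.inl (mem_sep.1 hx).2.2⟩) sep_subset, fun x hx => (mem_sep.1 hx).2.1⟩
  · rw [pair_mem_gr] at hi hj
    obtain ⟨hi, rfl⟩ := hi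
    obtain ⟨hj, rfl⟩ := hj
    obtain ⟨hx, -, h3 | h3⟩ := mem_sep.1 hx <;> obtain ⟨-, -, h4 | h4⟩ := mem_sep.1 hx'
    exacts [hij (h2 i hi j hj x hx h3 h4), h4.2 i hi h3, h3.2 j hj h4,
      hij (h3.1.trans h4.1.symm)]
  · by_cases h3 : ∃ j ∈ k, S j x
    · obtain ⟨j, hj, h3⟩ := h3
      exact ⟨j, _, pair_mem_gr.2 ⟨hj, rfl⟩, mem_sep.2 ⟨hx, hW, Or.inl h3⟩⟩
    · exact ⟨∅, _, pair_mem_gr.2 ⟨empty_mem_of_ne hk hk', rfl⟩,
        mem_sep.2 ⟨hx, hW, Or.inr ⟨rfl, fun j hj h4 => h3 ⟨j, hj, h4⟩⟩⟩⟩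

theorem core_part {l k k' I X : ZFSet.{u}} (hl : Regular Set.univ l)
    (hst : ∀ S, Stat C l S ↔ Stat Set.univ l S) (hk : k' ∈ l)
    [Tm C On (fun _ => X)] (hX : ∀ n : ZFSet.{u}, n.IsOrdinal → card n ≤ 2 ^ card X → n ⊆ k')
    (hk' : om ⊆ k') (h1 : ¬ ∃ f, HOD C f ∧ IsInj l (powerset k') f)
    (hko : k.IsOrdinal) (hkne : k ≠ ∅) (hI : I ⊆ k') (hkI : DInj C k I)
    (hIX : max ℵ₀ (2 ^ card X) < card I)
    (W : ZFSet.{u} → Prop) [Df C On (fun v => W (v 0))]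
    (φ : ZFSet.{u} → ZFSet.{u} → ZFSet.{u} → Prop) [Df C On (fun v => φ (v 0) (v 1) (v 2))]
    (h : ∀ i ∈ I, ∃ b ∈ X, (∀ j, j ∈ k' → ∀ j', j' ∈ k' → ∀ x, x ∈ l → φ b j x → φ b j' x → j = j') ∧
      Stat C l (l.sep fun x => W x ∧ φ b i x)) : ∃ s, HOD C s ∧ IsPart C W l k s := by
  obtain ⟨c, t, c0, c1, c2, c3⟩ := exists_types (C := C) hl hk hX hk' h1 φ
  have hkl := hl.1.subset_of_mem hk
  have hto := hl.1.mem c1
  have : Tm C On (fun _ => l) := Tm.ofOrd hl.1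
  have : Tm C On (fun _ => k') := Tm.ofOrd (hl.1.mem hk)
  have : Tm C On (fun _ => t) := Tm.ofOrd hto
  have := Tm.one (C := C) (A := On) c
  have := Df.one (C := C) (A := On) W
  have := Df.three' (C := C) φ
  obtain ⟨J, hJ⟩ : ∃ J, J = t.sep fun j => Stat C l (l.sep fun x => W x ∧ c x = j) := ⟨_, rfl⟩
  have : Tm C On (fun _ => J) := hJ ▸ inferInstance
  have hJo : ∀ j ∈ J, j.IsOrdinal := fun j hj => hto.mem (mem_sep.1 (hJ ▸ hj)).1
  let ψ : ZFSet.{u} → ZFSet.{u} → ZFSet.{u} → Prop := fun b i j =>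
    (∀ j, j ∈ k' → ∀ j', j' ∈ k' → ∀ x, x ∈ l → φ b j x → φ b j' x → j = j') ∧
      ∃ x, x ∈ l ∧ c x = j ∧ φ b i x
  have : Df C On (fun v => ψ (v 0) (v 1) (v 2)) := by simp only [ψ]; infer_instance
  have := Df.three' (C := C) ψ
  obtain ⟨d, n, d0, d1, d2, d3, d4⟩ :=
    exists_idx (C := C) (X := X) hl.1 (hl.1.subset_of_mem hl.2.1) ψ
  have := Tm.two (C := C) (A := On) d
  let jj : ZFSet.{u} → ZFSet.{u} := fun i =>
    leastBy t (fun x => x) fun j => j ∈ J ∧ ∃ b, b ∈ X ∧ ψ b i j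
  have : Tm C On (fun v => jj (v 0)) :=
    Tm.leastBy t (fun x => x) fun i j => j ∈ J ∧ ∃ b, b ∈ X ∧ ψ b i j
  have := Tm.one (C := C) (A := On) jj
  have h2 : ∀ i ∈ I, jj i ∈ t ∧ jj i ∈ J ∧ ∃ b, b ∈ X ∧ ψ b i (jj i) := fun i hi => by
    refine leastBy_id hto ?_
    obtain ⟨b, hb, h2, h3⟩ := h i hi
    obtain ⟨j, hj, h4⟩ := hl.stat_union (hl.card_lt c1) ((hst _).1 h3)
      (fun j => l.sep fun x => W x ∧ c x = j ∧ φ b i x) (fun _ _ => sep_subset) fun x hx => by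
        obtain ⟨x1, x2, x3⟩ := mem_sep.1 hx
        exact ⟨c x, c2 x x1, mem_sep.2 ⟨x1, x2, rfl, x3⟩⟩
    obtain ⟨x, hx⟩ := h4.nonempty innerModel_univ hl
    obtain ⟨x1, -, x3⟩ := mem_sep.1 hx
    refine ⟨j, hj, hJ ▸ mem_sep.2 ⟨hj, (hst _).2 (h4.mono (fun x hx => ?_) sep_subset)⟩,
      b, hb, h2, x, x1, x3⟩
    obtain ⟨x1, x2, x3, -⟩ := mem_sep.1 hx
    exact mem_sep.2 ⟨x1, x2, x3⟩
  have hso := img_colIn_ord hJo
  have h3 : ∀ m : ZFSet.{u}, img (colIn J) J ⊆ m → n ⊆ m → DInj C I (prod m m) := by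
    intro m m1 m2
    refine ⟨fun i => pair (colIn J (jj i)) (d i (jj i)), inferInstance, fun i hi =>
      pair_mem_prod.2 ⟨m1 (mem_img.2 ⟨_, (h2 i hi).2.1, rfl⟩),
        m2 (d3 i (hkl (hI hi)) _ (hl.1.mem_trans (h2 i hi).1 c1))⟩, fun i hi i' hi' e => ?_⟩
    obtain ⟨e1, e2⟩ := pair_inj.1 e
    have e3 := colIn_inj hJo (h2 i hi).2.1 (h2 i' hi').2.1 e1
    obtain ⟨b, hb, h3, x, x1, x2, x3⟩ := (h2 i hi).2.2
    obtain ⟨-, y, y1, y2, y3⟩ := ((d4 i (hkl (hI hi)) _ (hl.1.mem_trans (h2 i hi).1 c1) i'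
      (hkl (hI hi')) _ (hl.1.mem_trans (h2 i' hi').1 c1)).1 e2 b hb).1 ⟨h3, x, x1, x2, x3⟩
    exact h3 i (hI hi) i' (hI hi') x x1 x3
      (((c3 x x1 y y1).1 (x2.trans (e3.trans y2.symm)) i' (hI hi') b hb).2 y3)
  have h4 : ∀ m : ZFSet.{u}, DInj C I (prod m m) → max ℵ₀ (2 ^ card X) < card m := by
    intro m hm
    by_contra h4
    rw [not_lt] at h4
    exact (hm.card_le.trans ((card_prod_le _ _).trans ((mul_le_mul' h4 h4).trans
      (mul_eq_self (le_max_left _ _)).le))).not_gt hIX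
  have h5 : n ⊆ img (colIn J) J := (d1.subset_total hso).resolve_right fun h5 =>
    (h4 n (h3 n h5 subset_rfl)).not_ge (d2.trans (le_max_right _ _))
  have h6 := h3 _ subset_rfl h5
  obtain ⟨F, f0, f1, f2⟩ := ((hkI.trans h6).trans (DInj.pairing hso ((om_subset_iff hso).2
    ((le_max_left _ _).trans (h4 _ h6).le)))).trans
    (DInj.inv (colIn J) (fun x hx y hy => colIn_inj hJo hx hy) fun y hy => mem_img.1 hy)
  have := Tm.one (C := C) (A := On) F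
  exact exists_part hl.1 hko hkne W (fun i x => c x = F i)
    (fun i hi => by have := f1 i hi; rw [hJ] at this; exact (mem_sep.1 this).2)
    fun i hi j hj x _ e1 e2 => f2 i hi j hj (e1.symm.trans e2)

end Pool.Agent.MP_ecfd11_lc
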