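import Mathlib

/-!
The universe `V` is `ZFSet`; a class is a `Set ZFSet`.  Inner models of ZFC, ordinal definability,
omega-strongly measurable cardinals in HOD, and grounds of set forcing.
-/

namespace Pool.Agent.MP_ecfd11_lc

universe u

open ZFSet

/-- Formulas of the language of set theory (de Bruijn indices: `all` binds the variable `0`). -/
inductive Fml : Type
  | mem (i j : ℕ) : Fml
  | eq (i j : ℕ) : Fml
  | neg (φ : Fml) : Fml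
  | and (φ ψ : Fml) : Fml
  | all (φ : Fml) : Fml

/-- The assignment `a, v 0, v 1, ...`. -/
def cons (a : ZFSet.{u}) (v : ℕ → ZFSet.{u}) : ℕ → ZFSet.{u}
  | 0 => a
  | n + 1 => v n

/-- Truth of a formula in the class `M` (quantifiers range over `M`). -/
def Sat (M : Set ZFSet.{u}) : Fml → (ℕ → ZFSet.{u}) → Prop
  | .mem i j, v => v i ∈ v j
  | .eq i j, v => v i = v j
  | .neg φ, v => ¬ Sat M φ v
  | .and φ ψ, v => Sat M φ v ∧ Sat M ψ v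
  | .all φ, v => ∀ a ∈ M, Sat M φ (cons a v)

/-- `M` is a transitive class containing all ordinals which satisfies ZFC (extensionality,
foundation and infinity hold in every such class). -/
structure InnerModel (M : Set ZFSet.{u}) : Prop where
  trans : ∀ x ∈ M, ∀ y ∈ x, y ∈ M
  ord : ∀ x : ZFSet.{u}, x.IsOrdinal → x ∈ M
  pairing : ∀ x ∈ M, ∀ y ∈ M, ({x, y} : ZFSet.{u}) ∈ M
  union : ∀ x ∈ M, (⋃₀ x : ZFSet.{u}) ∈ M
  power : ∀ x ∈ M, ∃ p ∈ M, ∀ z, z ∈ p ↔ z ∈ M ∧ z ⊆ x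
  sep : ∀ (φ : Fml) (v : ℕ → ZFSet.{u}), (∀ n, v n ∈ M) → ∀ x ∈ M,
    ∃ y ∈ M, ∀ z, z ∈ y ↔ z ∈ x ∧ Sat M φ (cons z v)
  repl : ∀ (φ : Fml) (v : ℕ → ZFSet.{u}), (∀ n, v n ∈ M) → ∀ x ∈ M,
    (∀ a ∈ x, ∃! b, b ∈ M ∧ Sat M φ (cons b (cons a v))) →
    ∃ y ∈ M, ∀ b ∈ M, (b ∈ y ↔ ∃ a ∈ x, Sat M φ (cons b (cons a v)))
  choice : ∀ x ∈ M, (∀ y ∈ x, ∃ z, z ∈ y) → (∀ y ∈ x, ∀ y' ∈ x, y ≠ y' → ∀ z ∈ y, z ∉ y') →
    ∃ c ∈ M, ∀ y ∈ x, ∃! z, z ∈ y ∧ z ∈ c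

/-- `x` is ordinal definable in `M`. -/
def OD (M : Set ZFSet.{u}) (x : ZFSet.{u}) : Prop :=
  x ∈ M ∧ ∃ (φ : Fml) (w : ℕ → ZFSet.{u}), (∀ n, (w n).IsOrdinal) ∧
    ∀ y ∈ M, (Sat M φ (cons y w) ↔ y = x)

/-- `x` is hereditarily ordinal definable in `M`. -/
def HOD (M : Set ZFSet.{u}) (x : ZFSet.{u}) : Prop := x.Hereditarily (OD M)

/-- `l` is an uncountable regular cardinal in `M`. -/
def Regular (M : Set ZFSet.{u}) (l : ZFSet.{u}) : Prop :=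
  l.IsOrdinal ∧ Ordinal.omega0.toZFSet ∈ l ∧
    ∀ a ∈ l, ∀ f ∈ M, IsFunc a l f → ∃ b ∈ l, ∀ x y, pair x y ∈ f → y ∈ b

/-- `a` is an ordinal of cofinality `ω` in `M`. -/
def CofOmega (M : Set ZFSet.{u}) (a : ZFSet.{u}) : Prop :=
  a.IsOrdinal ∧ ∃ f ∈ M, IsFunc Ordinal.omega0.toZFSet a f ∧
    ∀ b ∈ a, ∃ n y, pair n y ∈ f ∧ b ∈ y

/-- `c` is closed and unbounded in the ordinal `l`. -/
def Club (l c : ZFSet.{u}) : Prop :=
  c ⊆ l ∧ (∀ b ∈ l, ∃ x ∈ c, b ∈ x) ∧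
    ∀ g ∈ l, (∃ b, b ∈ g) → (∀ b ∈ g, ∃ x ∈ c, b ∈ x ∧ x ∈ g) → g ∈ c

/-- `s` is a stationary subset of `l` in `M`. -/
def Stat (M : Set ZFSet.{u}) (l s : ZFSet.{u}) : Prop :=
  s ⊆ l ∧ ∀ c ∈ M, Club l c → ∃ x ∈ s, x ∈ c

/-- `f` is a one-to-one function from `a` into `b`. -/
def IsInj (a b f : ZFSet.{u}) : Prop :=
  IsFunc a b f ∧ ∀ x x' y, pair x y ∈ f → pair x' y ∈ f → x = x'

/-- `s` is a sequence of length `k` that partitions `cof(ω) ∩ l` into stationary subsets of `l`,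
in the sense of `M`. -/
def IsPartition (M : Set ZFSet.{u}) (l k s : ZFSet.{u}) : Prop :=
  IsFunc k (powerset l) s ∧
  (∀ i S, pair i S ∈ s → Stat M l S ∧ ∀ x ∈ S, CofOmega M x) ∧
  (∀ i S j T, pair i S ∈ s → pair j T ∈ s → i ≠ j → ∀ x ∈ S, x ∉ T) ∧
  ∀ x ∈ l, CofOmega M x → ∃ i S, pair i S ∈ s ∧ x ∈ S

/-- In `M`, `l` is `ω`-strongly measurable in HOD.  The inequality `(2 ^ k) ^ HOD < l` is written
as: HOD has no one-to-one function from `l` into the power set of `k`. -/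
def StronglyMeasurable (M : Set ZFSet.{u}) (l : ZFSet.{u}) : Prop :=
  Regular M l ∧ ∃ k ∈ l, k ≠ ∅ ∧ (¬ ∃ f, HOD M f ∧ IsInj l (powerset k) f) ∧
    ¬ ∃ s, HOD M s ∧ IsPartition M l k s

/-- `G` is an `M`-generic filter on the preorder `(P, le)`; `pair p q ∈ le` reads `p ≤ q`. -/
structure Generic (M : Set ZFSet.{u}) (P le G : ZFSet.{u}) : Prop where
  refl : ∀ p ∈ P, pair p p ∈ le
  trans : ∀ p q r, pair p q ∈ le → pair q r ∈ le → pair p r ∈ le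
  sub : G ⊆ P
  up : ∀ p ∈ G, ∀ q ∈ P, pair p q ∈ le → q ∈ G
  dir : ∀ p ∈ G, ∀ q ∈ G, ∃ r ∈ G, pair r p ∈ le ∧ pair r q ∈ le
  meets : ∀ D ∈ M, D ⊆ P → (∀ p ∈ P, ∃ q ∈ D, pair q p ∈ le) → ∃ p ∈ G, p ∈ D

/-- `M` is a ground of `V`: an inner model of ZFC such that `V = M[G]` for an `M`-generic filter
`G` on a forcing notion in `M`; `val` is the evaluation of names by `G`. -/
def IsGround (M : Set ZFSet.{u}) : Prop :=
  InnerModel M ∧ ∃ P ∈ M, ∃ le ∈ M, ∃ (G : ZFSet.{u}) (val : ZFSet.{u} → ZFSet.{u}),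
    Generic M P le G ∧
    (∀ t x, x ∈ val t ↔ ∃ s p, p ∈ G ∧ pair s p ∈ t ∧ val s = x) ∧
    ∀ x, ∃ t ∈ M, val t = x

end Pool.Agent.MP_ecfd11_lc
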