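import Pool.Agent.MP_ecfd11_lc.Defs2

/-!
A weak form of simultaneous stationary reflection.
-/

namespace Pool.Agent.MP_ecfd11_lc

universe u

open ZFSet

/-- For every sequence `S 0, S 1, ...` of stationary subsets of `cof(g) ∩ l` there is a point
below `l`, of uncountable cofinality less than the cardinal `k`, at which `S m` reflects for
infinitely many `m`. -/
def Reflects (k : Cardinal.{u}) (g l : ZFSet.{u}) : Prop :=
  ∀ S : ℕ → ZFSet.{u}, (∀ n, Stat Set.univ l (S n) ∧ ∀ x ∈ S n, Cof Set.univ g x) →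
    ∃ a ∈ l, ∃ d : ZFSet.{u}, Cof Set.univ d a ∧ Cardinal.aleph0 < d.card ∧ d.card < k ∧
      ∀ n, ∃ m, n ≤ m ∧ Stat Set.univ a (S m ∩ a)

end Pool.Agent.MP_ecfd11_lc
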