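import Pool.Agent.MP_ecfd11_lc.Defs

/-!
Definable predicates and terms over a class `C`, with parameters from a class `A`, inferred by
instance resolution.
-/

namespace Pool.Agent.MP_ecfd11_lc

universe u

open ZFSet Function

@[simp] theorem cons_zero (a : ZFSet.{u}) (v : ℕ → ZFSet.{u}) : cons a v 0 = a := rfl
@[simp] theorem cons_succ (a : ZFSet.{u}) (v : ℕ → ZFSet.{u}) (n : ℕ) :
    cons a v (n + 1) = v n := rfl

theorem cons_mem {C : Set ZFSet.{u}} {a : ZFSet.{u}} {v : ℕ → ZFSet.{u}} (ha : a ∈ C)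
    (hv : ∀ n, v n ∈ C) : ∀ n, cons a v n ∈ C
  | 0 => ha
  | n + 1 => hv n

/-- Lifting of a renaming under a binder. -/
def up (g : ℕ → ℕ) : ℕ → ℕ
  | 0 => 0
  | n + 1 => g n + 1

/-- Renaming of variables. -/
def ren : (ℕ → ℕ) → Fml → Fml
  | g, .mem i j => .mem (g i) (g j)
  | g, .eq i j => .eq (g i) (g j)
  | g, .neg φ => .neg (ren g φ)
  | g, .and φ ψ => .and (ren g φ) (ren g ψ)
  | g, .all φ => .all (ren (up g) φ)

theorem sat_ren {C : Set ZFSet.{u}} (φ : Fml) (g : ℕ → ℕ) (v : ℕ → ZFSet.{u}) :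
    Sat C (ren g φ) v ↔ Sat C φ (fun n => v (g n)) := by
  induction φ generalizing g v with
  | mem i j => rfl
  | eq i j => rfl
  | neg φ ih => simp only [ren, Sat, ih]
  | and φ ψ ih1 ih2 => simp only [ren, Sat, ih1, ih2]
  | all φ ih =>
    simp only [ren, Sat, ih]
    refine forall_congr' fun a => forall_congr' fun _ => ?_
    have : (fun n => cons a v (up g n)) = cons a fun n => v (g n) := by
      funext n; cases n <;> rfl
    rw [this]

/-- Interleaving of two assignments. -/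
def mrg (v w : ℕ → ZFSet.{u}) (n : ℕ) : ZFSet.{u} := if n % 2 = 0 then v (n / 2) else w (n / 2)

@[simp] theorem mrg_even (v w : ℕ → ZFSet.{u}) (n : ℕ) : mrg v w (2 * n) = v n := by simp [mrg]

@[simp] theorem mrg_odd (v w : ℕ → ZFSet.{u}) (n : ℕ) : mrg v w (2 * n + 1) = w n := by
  have h1 : (2 * n + 1) % 2 = 1 := by omega
  have h2 : (2 * n + 1) / 2 = n := by omega
  simp [mrg, h1, h2]

theorem mrg_mem {C : Set ZFSet.{u}} {v w : ℕ → ZFSet.{u}} (hv : ∀ n, v n ∈ C)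
    (hw : ∀ n, w n ∈ C) (n : ℕ) : mrg v w n ∈ C := by
  unfold mrg; split_ifs; exacts [hv _, hw _]

/-- The setting: an inner model `C` and a class `A` of allowed parameters. -/
class Ctx (C A : Set ZFSet.{u}) : Prop where
  im : InnerModel C
  sub : A ⊆ C
  ord : ∀ x : ZFSet.{u}, x.IsOrdinal → x ∈ A

/-- `P` is definable over `C` with parameters from `A`. -/
class Df (C A : Set ZFSet.{u}) (P : (ℕ → ZFSet.{u}) → Prop) : Prop where
  ex : ∃ (φ : Fml) (w : ℕ → ZFSet.{u}), (∀ n, w n ∈ A) ∧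
    ∀ v, (∀ n, v n ∈ C) → (P v ↔ Sat C φ (mrg v w))

/-- `t` is a term: it maps `C` to `C` and has a definable graph. -/
class Tm (C A : Set ZFSet.{u}) (t : (ℕ → ZFSet.{u}) → ZFSet.{u}) : Prop where
  mem : ∀ v, (∀ n, v n ∈ C) → t v ∈ C
  df : Df C A (fun v => v 0 = t (fun n => v (n + 1)))

/-- `c` is an allowed parameter. -/
class Par (A : Set ZFSet.{u}) (c : ZFSet.{u}) : Prop where
  mem : c ∈ A

variable {C A : Set ZFSet.{u}}

theorem Ctx.empty_mem [h : Ctx C A] : (∅ : ZFSet.{u}) ∈ A := h.ord _ isOrdinal_empty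

theorem mrg_cons (a : ZFSet.{u}) (v w : ℕ → ZFSet.{u}) :
    (fun n => cons a (mrg v w)
      (if n = 0 then 0 else if n % 2 = 0 then n - 1 else n + 1)) = mrg (cons a v) w := by
  funext n
  rcases Nat.even_or_odd' n with ⟨k, rfl | rfl⟩
  · cases k with
    | zero => simp [mrg]
    | succ k =>
      rw [if_neg (by omega), if_pos (by omega), show 2 * (k + 1) - 1 = 2 * k + 1 by omega,
        cons_succ, mrg_even, mrg_even, cons_succ]
  · rw [if_neg (by omega), if_neg (by omega), cons_succ, mrg_odd, mrg_odd]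

namespace Df

theorem congr {P Q : (ℕ → ZFSet.{u}) → Prop} [h : Df C A P]
    (e : ∀ v, (∀ n, v n ∈ C) → (P v ↔ Q v)) : Df C A Q := by
  obtain ⟨φ, w, hw, h⟩ := h.ex
  exact ⟨φ, w, hw, fun v hv => (e v hv).symm.trans (h v hv)⟩

theorem rename (P : (ℕ → ZFSet.{u}) → Prop) [h : Df C A P] (g : ℕ → ℕ) :
    Df C A (fun v => P (fun n => v (g n))) := by
  obtain ⟨φ, w, hw, h⟩ := h.ex
  refine ⟨ren (fun n => if n % 2 = 0 then 2 * g (n / 2) else n) φ, w, hw, fun v hv => ?_⟩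
  rw [sat_ren, h _ (fun n => hv _)]
  have : (mrg (fun n => v (g n)) w) =
      fun n => mrg v w (if n % 2 = 0 then 2 * g (n / 2) else n) := by
    funext n
    by_cases e : n % 2 = 0
    · simp only [e, if_true, mrg_even]; simp [mrg, e]
    · simp [mrg, e]
  rw [this]

theorem memVar [hc : Ctx C A] (i j : ℕ) : Df C A (fun v => v i ∈ v j) :=
  ⟨.mem (2 * i) (2 * j), fun _ => ∅, fun _ => hc.empty_mem, fun v _ => by simp [Sat]⟩

theorem eqVar [hc : Ctx C A] (i j : ℕ) : Df C A (fun v => v i = v j) :=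
  ⟨.eq (2 * i) (2 * j), fun _ => ∅, fun _ => hc.empty_mem, fun v _ => by simp [Sat]⟩

instance not (P : (ℕ → ZFSet.{u}) → Prop) [h : Df C A P] : Df C A (fun v => ¬ P v) := by
  obtain ⟨φ, w, hw, h⟩ := h.ex
  exact ⟨.neg φ, w, hw, fun v hv => not_congr (h v hv)⟩

instance and (P Q : (ℕ → ZFSet.{u}) → Prop) [h1 : Df C A P] [h2 : Df C A Q] :
    Df C A (fun v => P v ∧ Q v) := by
  obtain ⟨φ, w, hw, h1⟩ := h1.ex
  obtain ⟨ψ, w', hw', h2⟩ := h2.ex
  let f : ℕ → ℕ := fun n => if n % 2 = 0 then n else 2 * (2 * (n / 2)) + 1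
  let g : ℕ → ℕ := fun n => if n % 2 = 0 then n else 2 * (2 * (n / 2) + 1) + 1
  refine ⟨.and (ren f φ) (ren g ψ), mrg w w', mrg_mem hw hw', fun v hv => ?_⟩
  have e1 : (fun n => mrg v (mrg w w') (f n)) = mrg v w := by
    funext n
    by_cases h : n % 2 = 0
    · simp [f, h, mrg]
    · simp only [f, h, if_false, mrg_odd, mrg_even]; simp [mrg, h]
  have e2 : (fun n => mrg v (mrg w w') (g n)) = mrg v w' := by
    funext n
    by_cases h : n % 2 = 0
    · simp [g, h, mrg]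
    · simp only [g, h, if_false, mrg_odd]; simp [mrg, h]
  simp only [Sat, sat_ren, e1, e2, h1 v hv, h2 v hv]

/-- Quantification over the class `C`. -/
instance allC (Q : (ℕ → ZFSet.{u}) → ZFSet.{u} → Prop)
    [h : Df C A (fun v => Q (fun n => v (n + 1)) (v 0))] :
    Df C A (fun v => ∀ a, a ∈ C → Q v a) := by
  obtain ⟨φ, w, hw, h⟩ := h.ex
  refine ⟨.all (ren (fun n => if n = 0 then 0 else if n % 2 = 0 then n - 1 else n + 1) φ), w, hw,
    fun v hv => forall_congr' fun a => forall_congr' fun ha => ?_⟩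
  rw [sat_ren, mrg_cons, ← h _ (cons_mem ha hv)]
  rfl

instance or (P Q : (ℕ → ZFSet.{u}) → Prop) [Df C A P] [Df C A Q] :
    Df C A (fun v => P v ∨ Q v) :=
  Df.congr (P := fun v => ¬ (¬ P v ∧ ¬ Q v)) fun _ _ => by tauto

instance (priority := low) imp (P Q : (ℕ → ZFSet.{u}) → Prop) [Df C A P] [Df C A Q] :
    Df C A (fun v => P v → Q v) :=
  Df.congr (P := fun v => ¬ (P v ∧ ¬ Q v)) fun _ _ => by tauto

instance iff (P Q : (ℕ → ZFSet.{u}) → Prop) [Df C A P] [Df C A Q] :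
    Df C A (fun v => P v ↔ Q v) :=
  Df.congr (P := fun v => (P v → Q v) ∧ (Q v → P v)) fun _ _ =>
    iff_iff_implies_and_implies.symm

instance exC (Q : (ℕ → ZFSet.{u}) → ZFSet.{u} → Prop)
    [h : Df C A (fun v => Q (fun n => v (n + 1)) (v 0))] :
    Df C A (fun v => ∃ a, a ∈ C ∧ Q v a) :=
  Df.congr (P := fun v => ¬ ∀ a, a ∈ C → ¬ Q v a) fun _ _ => by simp

instance tru [Ctx C A] : Df C A (fun _ => True) :=
  haveI := eqVar (C := C) (A := A) 0 0
  Df.congr (P := fun v => v 0 = v 0) fun _ _ => by simp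

instance fls [Ctx C A] : Df C A (fun _ => False) :=
  Df.congr (P := fun _ => ¬ True) fun _ _ => by simp

/-- Substitution of a term for the variable `0`. -/
theorem subst (Q : (ℕ → ZFSet.{u}) → ZFSet.{u} → Prop)
    [h : Df C A (fun v => Q (fun n => v (n + 1)) (v 0))] (t : (ℕ → ZFSet.{u}) → ZFSet.{u})
    [ht : Tm C A t] : Df C A (fun v => Q v (t v)) :=
  haveI := ht.df
  Df.congr (P := fun v => ∃ a, a ∈ C ∧ (a = t v ∧ Q v a)) fun v hv =>
    ⟨fun ⟨_, _, e, h⟩ => e ▸ h, fun h => ⟨_, ht.mem v hv, rfl, h⟩⟩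

end Df

namespace Tm

instance var [Ctx C A] (i : ℕ) : Tm C A (fun v => v i) :=
  ⟨fun _ hv => hv i, Df.eqVar 0 (i + 1)⟩

instance (priority := low) const [hc : Ctx C A] (c : ZFSet.{u}) [h : Par A c] :
    Tm C A (fun _ => c) :=
  ⟨fun _ _ => hc.sub h.mem,
    ⟨.eq 0 1, fun _ => c, fun _ => h.mem, fun v _ => by simp [Sat, mrg]⟩⟩

theorem ofMem [hc : Ctx C A] {c : ZFSet.{u}} (h : c ∈ A) : Tm C A (fun _ => c) :=
  haveI : Par A c := ⟨h⟩
  inferInstance

theorem ofOrd [hc : Ctx C A] {c : ZFSet.{u}} (h : c.IsOrdinal) : Tm C A (fun _ => c) :=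
  ofMem (hc.ord _ h)

instance ord [Ctx C A] (o : Ordinal.{u}) : Tm C A (fun _ => o.toZFSet) :=
  ofOrd (isOrdinal_toZFSet o)

instance empty [Ctx C A] : Tm C A (fun _ => (∅ : ZFSet.{u})) := ofOrd isOrdinal_empty

theorem congr {s t : (ℕ → ZFSet.{u}) → ZFSet.{u}} [h : Tm C A s]
    (e : ∀ v, (∀ n, v n ∈ C) → s v = t v) : Tm C A t :=
  ⟨fun v hv => e v hv ▸ h.mem v hv,
    haveI := h.df
    Df.congr (P := fun v => v 0 = s (fun n => v (n + 1))) fun v hv => by
      rw [e _ fun n => hv _]⟩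

instance (priority := low) shift (t : (ℕ → ZFSet.{u}) → ZFSet.{u}) [h : Tm C A t] (g : ℕ → ℕ) :
    Tm C A (fun v => t (fun n => v (g n))) :=
  ⟨fun _ hv => h.mem _ fun _ => hv _,
    haveI := h.df
    Df.rename (fun v => v 0 = t (fun n => v (n + 1))) (up g)⟩

end Tm

namespace Df

theorem one (R : ZFSet.{u} → Prop) [h : Df C A (fun v => R (v 0))]
    (s : (ℕ → ZFSet.{u}) → ZFSet.{u}) [Tm C A s] : Df C A (fun v => R (s v)) :=
  Df.subst (fun _ a => R a) s

theorem two (R : ZFSet.{u} → ZFSet.{u} → Prop) [h : Df C A (fun v => R (v 0) (v 1))]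
    (s t : (ℕ → ZFSet.{u}) → ZFSet.{u}) [Tm C A s] [Tm C A t] :
    Df C A (fun v => R (s v) (t v)) :=
  haveI : Df C A (fun v => R (v 0) (t (fun n => v (n + 1)))) :=
    haveI := Df.rename (C := C) (A := A) (fun v => R (v 0) (v 1)) (fun n => 1 - n)
    Df.subst (fun v b => R (v 0) b) (fun v => t (fun n => v (n + 1)))
  Df.subst (fun v a => R a (t v)) s

theorem three (R : ZFSet.{u} → ZFSet.{u} → ZFSet.{u} → Prop)
    [h : Df C A (fun v => R (v 0) (v 1) (v 2))]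
    (s t r : (ℕ → ZFSet.{u}) → ZFSet.{u}) [Tm C A s] [Tm C A t] [Tm C A r] :
    Df C A (fun v => R (s v) (t v) (r v)) :=
  haveI : Df C A (fun v => R (v 0) (t (fun n => v (n + 1))) (r (fun n => v (n + 1)))) :=
    haveI : Df C A (fun v => R (v 1) (v 0) (r (fun n => v (n + 1 + 1)))) :=
      haveI := Df.rename (C := C) (A := A) (fun v => R (v 0) (v 1) (v 2)) (fun n => 2 - n)
      Df.subst (fun v c => R (v 1) (v 0) c) (fun v => r (fun n => v (n + 1 + 1)))
    Df.subst (fun v b => R (v 0) b (r (fun n => v (n + 1)))) (fun v => t (fun n => v (n + 1)))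
  Df.subst (fun v a => R a (t v) (r v)) s

instance mem [Ctx C A] (s t : (ℕ → ZFSet.{u}) → ZFSet.{u}) [Tm C A s] [Tm C A t] :
    Df C A (fun v => s v ∈ t v) :=
  haveI := memVar (C := C) (A := A) 0 1
  two (fun a b => a ∈ b) s t

instance eq [Ctx C A] (s t : (ℕ → ZFSet.{u}) → ZFSet.{u}) [Tm C A s] [Tm C A t] :
    Df C A (fun v => s v = t v) :=
  haveI := eqVar (C := C) (A := A) 0 1
  two (fun a b => a = b) s t

instance ne [Ctx C A] (s t : (ℕ → ZFSet.{u}) → ZFSet.{u}) [Tm C A s] [Tm C A t] :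
    Df C A (fun v => s v ≠ t v) := Df.not (fun v => s v = t v)

instance notMem [Ctx C A] (s t : (ℕ → ZFSet.{u}) → ZFSet.{u}) [Tm C A s] [Tm C A t] :
    Df C A (fun v => s v ∉ t v) := Df.not (fun v => s v ∈ t v)

/-- Bounded universal quantification. -/
instance allIn [hc : Ctx C A] (t : (ℕ → ZFSet.{u}) → ZFSet.{u}) [ht : Tm C A t]
    (Q : (ℕ → ZFSet.{u}) → ZFSet.{u} → Prop)
    [h : Df C A (fun v => Q (fun n => v (n + 1)) (v 0))] :
    Df C A (fun v => ∀ a, a ∈ t v → Q v a) :=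
  Df.congr (P := fun v => ∀ a, a ∈ C → (a ∈ t v → Q v a)) fun v hv =>
    ⟨fun h a ha => h a (hc.im.trans _ (ht.mem v hv) _ ha) ha, fun h a _ ha => h a ha⟩

/-- Bounded existential quantification. -/
instance exIn [hc : Ctx C A] (t : (ℕ → ZFSet.{u}) → ZFSet.{u}) [ht : Tm C A t]
    (Q : (ℕ → ZFSet.{u}) → ZFSet.{u} → Prop)
    [h : Df C A (fun v => Q (fun n => v (n + 1)) (v 0))] :
    Df C A (fun v => ∃ a, a ∈ t v ∧ Q v a) :=
  Df.congr (P := fun v => ¬ ∀ a, a ∈ t v → ¬ Q v a) fun _ _ => by simp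

instance subset [Ctx C A] (s t : (ℕ → ZFSet.{u}) → ZFSet.{u}) [Tm C A s] [Tm C A t] :
    Df C A (fun v => s v ⊆ t v) :=
  Df.congr (P := fun v => ∀ a, a ∈ s v → a ∈ t v) fun _ _ => subset_def.symm

/-- Unbounded quantifiers over `V`. -/
instance (priority := low) allV (Q : (ℕ → ZFSet.{u}) → ZFSet.{u} → Prop)
    [h : Df Set.univ A (fun v => Q (fun n => v (n + 1)) (v 0))] :
    Df Set.univ A (fun v => ∀ a, Q v a) :=
  Df.congr (P := fun v => ∀ a, a ∈ Set.univ → Q v a) fun _ _ => by simp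

instance (priority := low) exV (Q : (ℕ → ZFSet.{u}) → ZFSet.{u} → Prop)
    [h : Df Set.univ A (fun v => Q (fun n => v (n + 1)) (v 0))] :
    Df Set.univ A (fun v => ∃ a, Q v a) :=
  Df.congr (P := fun v => ∃ a, a ∈ Set.univ ∧ Q v a) fun _ _ => by simp

/-- Truth in a definable subclass `D v` of `C` is definable. -/
theorem sat [Ctx C A] (φ : Fml) (D : (ℕ → ZFSet.{u}) → Set ZFSet.{u})
    (hD : Df C A (fun v => v 0 ∈ D (fun n => v (n + 1))))
    (hs : ∀ v, (∀ n, v n ∈ C) → D v ⊆ C)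
    (t : ℕ → (ℕ → ZFSet.{u}) → ZFSet.{u}) (ht : ∀ i, Tm C A (t i)) :
    Df C A (fun v => Sat (D v) φ (fun i => t i v)) := by
  induction φ generalizing D t with
  | mem i j => exact Df.mem (t i) (t j)
  | eq i j => exact Df.eq (t i) (t j)
  | neg φ ih => exact @Df.not _ _ _ (ih D hD hs t ht)
  | and φ ψ ih1 ih2 => exact @Df.and _ _ _ _ (ih1 D hD hs t ht) (ih2 D hD hs t ht)
  | all φ ih =>
    let t' : ℕ → (ℕ → ZFSet.{u}) → ZFSet.{u} := fun i =>
      match i with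
      | 0 => fun v => v 0
      | i + 1 => fun v => t i (fun n => v (n + 1))
    have ht' : ∀ i, Tm C A (t' i) := fun i =>
      match i with
      | 0 => Tm.var 0
      | i + 1 => Tm.shift (t i) (fun n => n + 1)
    have hD' : Df C A (fun v => v 0 ∈ D (fun n => v (n + 1 + 1))) :=
      Df.rename (C := C) (A := A) (fun v => v 0 ∈ D (fun n => v (n + 1))) (up (fun n => n + 1))
    have h := ih (fun v => D (fun n => v (n + 1))) hD' (fun v hv => hs _ fun n => hv _) t' ht'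
    have h2 : Df C A (fun v => Sat (D (fun n => v (n + 1))) φ
        (cons (v 0) (fun i => t i (fun n => v (n + 1))))) := by
      refine Df.congr (h := h) fun v _ => ?_
      have : (fun i => t' i v) = cons (v 0) (fun i => t i (fun n => v (n + 1))) := by
        funext i; cases i <;> rfl
      rw [this]
    refine Df.congr (P := fun v => ∀ a, a ∈ C →
      (a ∈ D v → Sat (D v) φ (cons a (fun i => t i v)))) fun v hv =>
      ⟨fun h a ha => h a (hs v hv ha) ha, fun h a _ ha => h a ha⟩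

theorem satC [Ctx C A] (φ : Fml) (t : ℕ → (ℕ → ZFSet.{u}) → ZFSet.{u}) (ht : ∀ i, Tm C A (t i)) :
    Df C A (fun v => Sat C φ (fun i => t i v)) :=
  sat φ (fun _ => C) (Df.congr (P := fun _ => True) fun _ hv => by simp [hv 0])
    (fun _ _ => subset_rfl) t ht

/-- Simultaneous substitution of terms. -/
theorem substAll [Ctx C A] (R : (ℕ → ZFSet.{u}) → Prop) [h : Df C A R]
    (t : ℕ → (ℕ → ZFSet.{u}) → ZFSet.{u}) (ht : ∀ i, Tm C A (t i)) :
    Df C A (fun v => R (fun i => t i v)) := by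
  obtain ⟨φ, w, hw, h⟩ := h.ex
  have := satC (C := C) (A := A) φ
    (fun n => if n % 2 = 0 then t (n / 2) else fun _ => w (n / 2)) (fun n => by
      split_ifs
      exacts [ht _, Tm.ofMem (hw _)])
  refine Df.congr (h := this) fun v hv => ?_
  rw [h _ fun i => (ht i).mem v hv]
  have : (fun n => (if n % 2 = 0 then t (n / 2) else fun _ => w (n / 2)) v) =
      mrg (fun i => t i v) w := by
    funext n; unfold mrg; split_ifs <;> rfl
  rw [this]

end Df

/-- A family of terms: `s, t 0, t 1, ...`. -/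
def tcons (s : (ℕ → ZFSet.{u}) → ZFSet.{u}) (t : ℕ → (ℕ → ZFSet.{u}) → ZFSet.{u}) :
    ℕ → (ℕ → ZFSet.{u}) → ZFSet.{u}
  | 0 => s
  | n + 1 => t n

theorem Tm.tcons {s : (ℕ → ZFSet.{u}) → ZFSet.{u}} {t : ℕ → (ℕ → ZFSet.{u}) → ZFSet.{u}}
    (hs : Tm C A s) (ht : ∀ i, Tm C A (t i)) : ∀ i, Tm C A (tcons s t i)
  | 0 => hs
  | i + 1 => ht i

theorem Tm.substAll [Ctx C A] (F : (ℕ → ZFSet.{u}) → ZFSet.{u}) [h : Tm C A F]
    (t : ℕ → (ℕ → ZFSet.{u}) → ZFSet.{u}) (ht : ∀ i, Tm C A (t i)) :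
    Tm C A (fun v => F (fun i => t i v)) :=
  ⟨fun v hv => h.mem _ fun i => (ht i).mem v hv,
    haveI := h.df
    Df.substAll (fun v => v 0 = F (fun n => v (n + 1)))
      (MP_ecfd11_lc.tcons (fun v => v 0) (fun i v => t i (fun n => v (n + 1))))
      (Tm.tcons (Tm.var 0) fun i => Tm.shift (t i) (fun n => n + 1))⟩

theorem Tm.one [Ctx C A] (F : ZFSet.{u} → ZFSet.{u}) [Tm C A (fun v => F (v 0))]
    (s : (ℕ → ZFSet.{u}) → ZFSet.{u}) [hs : Tm C A s] : Tm C A (fun v => F (s v)) :=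
  Tm.substAll (fun v => F (v 0)) (fun _ => s) fun _ => hs

theorem Tm.two [Ctx C A] (F : ZFSet.{u} → ZFSet.{u} → ZFSet.{u})
    [Tm C A (fun v => F (v 0) (v 1))] (s t : (ℕ → ZFSet.{u}) → ZFSet.{u})
    [hs : Tm C A s] [ht : Tm C A t] : Tm C A (fun v => F (s v) (t v)) :=
  Tm.substAll (fun v => F (v 0) (v 1)) (MP_ecfd11_lc.tcons s fun _ => t)
    (Tm.tcons hs fun _ => ht)

/-- A term given by a definable membership condition. -/
theorem Tm.of_mem [hc : Ctx C A] (t : (ℕ → ZFSet.{u}) → ZFSet.{u})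
    (hm : ∀ v, (∀ n, v n ∈ C) → t v ∈ C)
    [h : Df C A (fun v => v 0 ∈ t (fun n => v (n + 1)))] : Tm C A t := by
  refine ⟨hm, ?_⟩
  haveI := Df.rename (C := C) (A := A) (fun v => v 0 ∈ t (fun n => v (n + 1)))
    (up (fun n => n + 1))
  haveI : Df C A (fun v => v 0 ∈ t (fun n => v (n + 1 + 1))) := this
  refine Df.congr (P := fun v => ∀ a, a ∈ C → (a ∈ v 0 ↔ a ∈ t (fun n => v (n + 1))))
    fun v hv => ⟨fun h => ?_, fun h a _ => by rw [h]⟩
  ext a
  exact ⟨fun ha => (h a (hc.im.trans _ (hv 0) _ ha)).1 ha,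
    fun ha => (h a (hc.im.trans _ (hm _ fun n => hv _) _ ha)).2 ha⟩

end Pool.Agent.MP_ecfd11_lc
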