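import Pool.Agent.MP_ecfd11_lc.Limit
import Pool.Agent.MP_ecfd11_lc.Defs3

/-!
Fodor's lemma, Solovay splitting in HOD, and a local HOD dichotomy from stationary reflection.
-/

set_option synthInstance.maxSize 4000

namespace Pool.Agent.MP_ecfd11_lc

universe u

open ZFSet Function Classical Cardinal

theorem Regular.fodor {l S : ZFSet.{u}} (hl : Regular Set.univ l) (hS : Stat Set.univ l S)
    (F : ZFSet.{u} → ZFSet.{u}) (hF : ∀ x ∈ S, F x ∈ x) :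
    ∃ g ∈ l, Stat Set.univ l (S.sep fun x => F x = g) := by
  by_contra h
  have h3 : ∀ i ∈ l, ∃ c, Club l c ∧ ∀ y ∈ S, F y = i → y ∉ c := fun i hi => by
    by_contra h'
    push Not at h'
    refine h ⟨i, hi, sep_subset.trans hS.1, fun c _ hc => ?_⟩
    obtain ⟨y, h1, h2, h3⟩ := h' c hc
    exact ⟨y, mem_sep.2 ⟨h1, h2⟩, h3⟩
  choose! c hc1 hc2 using h3
  have h4 : ∀ i ∈ l, ∀ b ∈ l, ∃ x ∈ c i, b ∈ x := fun i hi => (hc1 i hi).2.1
  choose! Y y1 y2 using h4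
  have h5 : ∀ b ∈ l, ∃ d ∈ l, ∀ i ∈ insert b b, Y i b ∈ d := fun b hb =>
    hl.bddV (hl.card_lt (hl.succ_mem hb)) (fun i => Y i b) fun i hi =>
      (hc1 i (hl.1.mem_trans hi (hl.succ_mem hb))).1
        (y1 i (hl.1.mem_trans hi (hl.succ_mem hb)) b hb)
  choose! N n1 n2 using h5
  obtain ⟨g, hg, h6⟩ := hS.2 (l.sep fun g => ∀ i ∈ g, ∀ b ∈ g, ∃ y ∈ c i, b ∈ y ∧ y ∈ g) trivial
    ⟨sep_subset, fun b hb => by
      obtain ⟨g, hg, h3, h4⟩ := hl.exists_closed N n1 hb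
      refine ⟨g, mem_sep.2 ⟨hg, fun i hi d hd => ?_⟩, h3⟩
      have hgo := hl.1.mem hg
      obtain ⟨e, he, e1, e2⟩ := exists_bound2 hgo hi hd
      have hel := hl.1.mem_trans he hg
      have hil := hl.1.mem_trans hi hg
      exact ⟨Y i e, y1 i hil e hel, (hgo.mem hd).mem_of_subset_of_mem
        (hl.1.mem ((hc1 i hil).1 (y1 i hil e hel))) e2 (y2 i hil e hel), hgo.mem_trans
        (n2 e hel i (mem_insert_iff.2 ((hgo.mem hi).eq_or_mem_of_subset (hgo.mem he) e1)))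
        (h4 e he)⟩,
    fun g hg _ h => mem_sep.2 ⟨hg, fun i hi d hd => by
      have hgo := hl.1.mem hg
      obtain ⟨e, he, e1, e2⟩ := exists_bound2 hgo hi hd
      obtain ⟨z, hz, h2, h3⟩ := h e he
      have hzo := hgo.mem h3
      obtain ⟨y, hy, h4, h5⟩ := (mem_sep.1 hz).2 i ((hgo.mem hi).mem_of_subset_of_mem hzo e1 h2)
        d ((hgo.mem hd).mem_of_subset_of_mem hzo e2 h2)
      exact ⟨y, hy, h4, hgo.mem_trans h5 h3⟩⟩⟩
  obtain ⟨h7, h8⟩ := mem_sep.1 h6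
  have h9 := hl.1.mem_trans (hF g hg) h7
  exact hc2 _ h9 g hg rfl ((hc1 _ h9).2.2 g h7 ⟨_, hF g hg⟩ (h8 _ (hF g hg)))

/-- Solovay splitting in HOD. -/
theorem solovay {l k m : ZFSet.{u}} (hl : Regular Set.univ l) (hk : k ∈ l) (hm : m ∈ l)
    (hm' : m ≠ ∅) (W : ZFSet.{u} → Prop) [Df Set.univ On (fun v => W (v 0))]
    (hW : Stat Set.univ l (l.sep W))
    (h : ∀ a ∈ l, W a → ∃ y, OD Set.univ y ∧ y ⊆ a ∧ (∀ b, b ∈ a → ∃ x, x ∈ y ∧ b ∈ x) ∧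
      img (fun x => colIn y x) y ∈ k) :
    ∃ s, HOD Set.univ s ∧ IsPart Set.univ W l m s := by
  have : Tm Set.univ On (fun _ => l) := Tm.ofOrd hl.1
  have : Tm Set.univ On (fun _ => k) := Tm.ofOrd (hl.1.mem hk)
  have := Df.one (C := Set.univ) (A := On) W
  obtain ⟨Y, y0, y1⟩ := od_choice (C := Set.univ) (l.sep W) (fun a y => y ⊆ a ∧
    (∀ b, b ∈ a → ∃ x, x ∈ y ∧ b ∈ x) ∧ img (fun x => colIn y x) y ∈ k)
    fun a ha => h a (mem_sep.1 ha).1 (mem_sep.1 ha).2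
  replace y1 := fun a ha => y1 a ha trivial
  have := Tm.one (C := Set.univ) (A := On) Y
  let E : ZFSet.{u} → ZFSet.{u} → ZFSet.{u} := fun a i =>
    ⋃₀ ((Y a).sep fun x => colIn (Y a) x = i)
  have : Tm Set.univ On (fun v => E (v 0) (v 1)) := by simp only [E]; infer_instance
  have := Tm.two (C := Set.univ) (A := On) E
  have e1 : ∀ a ∈ l.sep W, ∀ x ∈ Y a, E a (colIn (Y a) x) = x := fun a ha x hx => by
    have : ((Y a).sep fun z => colIn (Y a) z = colIn (Y a) x) = {x} := by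
      ext z
      rw [mem_sep, mem_singleton]
      exact ⟨fun h => colIn_inj (fun w hw => (hl.1.mem (mem_sep.1 ha).1).mem ((y1 a ha).1 hw))
        h.1 hx h.2, fun e => by rw [e]; exact ⟨hx, rfl⟩⟩
    simp only [E, this, sUnion_singleton]
  have h1 : ∃ i ∈ k, ∀ b ∈ l, Stat Set.univ l ((l.sep W).sep fun a => b ∈ E a i ∧ E a i ∈ a) := by
    by_contra h1
    push Not at h1
    choose! B b1 b2 using h1
    obtain ⟨c, hc, h2⟩ := hl.bddV (hl.card_lt hk) B b1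
    obtain ⟨i, hi, h3⟩ := hl.stat_union (hl.card_lt (hl.succ_mem hk)) hW
      (fun i => if i = k then insert c c else (l.sep W).sep fun a => B i ∈ E a i ∧ E a i ∈ a)
      (fun i _ => by
        split_ifs
        exacts [hl.1.subset_of_mem (hl.succ_mem hc), sep_subset.trans sep_subset])
      fun a ha => by
        have hao := hl.1.mem (mem_sep.1 ha).1
        by_cases h3 : c ∈ a
        · obtain ⟨x, hx, h4⟩ := (y1 a ha).2.1 c h3
          have h5 : colIn (Y a) x ∈ k :=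
            (hl.1.mem hk).mem_trans (mem_img.2 ⟨x, hx, rfl⟩) (y1 a ha).2.2
          refine ⟨_, mem_insert_of_mem _ h5, ?_⟩
          rw [if_neg fun e : colIn (Y a) x = k => mem_irrefl k (e ▸ h5), mem_sep, e1 a ha x hx]
          exact ⟨ha, (hao.mem ((y1 a ha).1 hx)).mem_trans (h2 _ h5) h4, (y1 a ha).1 hx⟩
        · refine ⟨k, mem_insert _ _, ?_⟩
          rw [if_pos rfl]
          exact mem_insert_iff.2 (hao.eq_or_mem_of_subset (hl.1.mem hc)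
            (((hl.1.mem hc).notMem_iff_subset hao).1 h3))
    rcases mem_insert_iff.1 hi with rfl | hi
    · rw [if_pos rfl] at h3
      obtain ⟨x, hx, h4⟩ := hl.stat_unbdd h3 hc
      rcases mem_insert_iff.1 hx with rfl | hx
      exacts [mem_irrefl _ h4, mem_asymm hx h4]
    · rw [if_neg fun e : i = k => mem_irrefl k (e ▸ hi)] at h3
      exact b2 i hi h3
  obtain ⟨i, hi, h1⟩ := h1
  have : Tm Set.univ On (fun _ => i) := Tm.ofOrd ((hl.1.mem hk).mem hi)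
  obtain ⟨J, hJ⟩ : ∃ J, J = l.sep fun j => Stat Set.univ l (l.sep fun x => W x ∧ E x i = j) :=
    ⟨_, rfl⟩
  have : Tm Set.univ On (fun _ => J) := hJ ▸ inferInstance
  have hJl : J ⊆ l := hJ ▸ sep_subset
  have hJo : ∀ j ∈ J, j.IsOrdinal := fun j hj => hl.1.mem (hJl hj)
  have h2 : ∀ b ∈ l, ∃ j ∈ J, b ∈ j := fun b hb => by
    obtain ⟨g, hg, h2⟩ := hl.fodor (h1 b hb) (fun a => E a i) fun a ha => (mem_sep.1 ha).2.2
    obtain ⟨x, hx⟩ := h2.nonempty innerModel_univ hl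
    refine ⟨g, hJ ▸ mem_sep.2 ⟨hg, h2.mono (fun x hx => ?_) sep_subset⟩,
      (mem_sep.1 hx).2 ▸ (mem_sep.1 (mem_sep.1 hx).1).2.1⟩
    obtain ⟨x1, x2⟩ := mem_sep.1 hx
    obtain ⟨x3, x4⟩ := mem_sep.1 (mem_sep.1 x1).1
    exact mem_sep.2 ⟨x3, x4, x2⟩
  have h3 : m ⊆ img (colIn J) J := by
    refine (hl.1.subset_of_mem hm).trans (((img_colIn_ord hJo).notMem_iff_subset hl.1).1
      fun h3 => ?_)
    obtain ⟨b, hb, h4⟩ := hl.bddV ((card_le_of_inj (colIn J)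
      (fun x hx => mem_img.2 ⟨x, hx, rfl⟩) fun x hx y hy => colIn_inj hJo hx hy).trans_lt
      (hl.card_lt h3)) (fun x => x) fun x hx => hJl hx
    obtain ⟨j, hj, h5⟩ := h2 b hb
    exact mem_asymm h5 (h4 j hj)
  obtain ⟨F, f0, f1, f2⟩ := DInj.inv (C := Set.univ) (a := J) (b := m) (colIn J)
    (fun x hx y hy => colIn_inj hJo hx hy) fun y hy => mem_img.1 (h3 hy)
  have := Tm.one (C := Set.univ) (A := On) F
  exact exists_part hl.1 (hl.1.mem hm) hm' W (fun j x => E x i = F j)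
    (fun j hj => by have := f1 j hj; rw [hJ] at this; exact (mem_sep.1 this).2)
    fun j hj j' hj' x _ e1 e2 => f2 j hj j' hj' (e1.symm.trans e2)

theorem Cof.exists_club {d a : ZFSet.{u}} (h : Cof Set.univ d a) (hd : ℵ₀ ≤ card d) :
    ∃ c, Club a c ∧ card c ≤ card d := by
  obtain ⟨ha, ⟨f, -, f1, f2⟩, -⟩ := h
  obtain ⟨X, hX⟩ : ∃ X, X = img (app f) d := ⟨_, rfl⟩
  have x1 : X ⊆ a := fun x hx => by
    obtain ⟨i, hi, rfl⟩ := mem_img.1 (hX ▸ hx); exact f1.app_mem' hi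
  have x2 : ∀ b ∈ a, ∃ x ∈ X, b ∈ x := fun b hb => by
    obtain ⟨n, y, h1, h2⟩ := f2 b hb
    exact ⟨y, hX ▸ mem_img.2 ⟨n, (pair_mem_prod.1 (f1.1 h1)).1, f1.app_eq h1⟩, h2⟩
  have x3 : card X ≤ card d := hX ▸ card_img_le _ _
  refine ⟨X ∪ a.sep fun g => ∀ b ∈ g, ∃ x ∈ X, b ∈ x ∧ x ∈ g, ⟨fun x hx => ?_, fun b hb => ?_,
    fun g hg _ h => mem_union.2 (Or.inr (mem_sep.2 ⟨hg, fun b hb => ?_⟩))⟩, ?_⟩
  · exact (mem_union.1 hx).elim (fun h => x1 h) fun h => (mem_sep.1 h).1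
  · obtain ⟨x, h1, h2⟩ := x2 b hb
    exact ⟨x, mem_union.2 (Or.inl h1), h2⟩
  · obtain ⟨x, h1, h2, h3⟩ := h b hb
    rcases mem_union.1 h1 with h1 | h1
    · exact ⟨x, h1, h2, h3⟩
    · obtain ⟨y, h4, h5, h6⟩ := (mem_sep.1 h1).2 b h2
      exact ⟨y, h4, h5, (ha.mem hg).mem_trans h6 h3⟩
  · refine card_union_le.trans ((add_le_add x3 (le_trans ?_ x3)).trans (add_eq_self hd).le)
    have h1 : ∀ g ∈ a, leastBy a (fun x => x) (fun x => x ∈ X ∧ g ⊆ x) ∈ a ∧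
        leastBy a (fun x => x) (fun x => x ∈ X ∧ g ⊆ x) ∈ X ∧
        g ⊆ leastBy a (fun x => x) (fun x => x ∈ X ∧ g ⊆ x) := fun g hg => by
      obtain ⟨x, h1, h2⟩ := x2 g hg
      exact leastBy_id (p := fun x => x ∈ X ∧ g ⊆ x) ha
        ⟨x, x1 h1, h1, (ha.mem (x1 h1)).subset_of_mem h2⟩
    choose! Z z1 z2 using fun g (hg : g ∈ a) =>
      exists_min_mem (p := fun x => x ∈ X ∧ g ⊆ x) (h1 g hg).2
    have h2 : ∀ g ∈ a, ∀ g' ∈ a, (∀ b ∈ g', ∃ x ∈ X, b ∈ x ∧ x ∈ g') → Z g = Z g' → g ∉ g' :=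
      fun g hg g' hg' h e hgg => by
        obtain ⟨x, h3, h4, h5⟩ := h g hgg
        exact z2 g hg x (e ▸ (z1 g' hg').2 h5) ⟨h3, (ha.mem (x1 h3)).subset_of_mem h4⟩
    refine card_le_of_inj Z (fun g hg => (z1 g (mem_sep.1 hg).1).1) fun g hg g' hg' e => ?_
    obtain ⟨g1, g2⟩ := mem_sep.1 hg
    obtain ⟨g3, g4⟩ := mem_sep.1 hg'
    rcases (ha.mem g1).mem_trichotomous (ha.mem g3) with h3 | h3 | h3
    exacts [absurd h3 (h2 g g1 g' g3 g4 e), h3, absurd h3 (h2 g' g3 g g1 g2 e.symm)]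

theorem Cof.exists_mono {a : ZFSet.{u}} (h : Cof Set.univ om a) :
    ∃ H : ℕ → ZFSet.{u}, (∀ n, H n ∈ a) ∧ ∀ x ∈ a, ∃ n, ∀ m, n ≤ m → x ∈ H m := by
  obtain ⟨H, a1, a2, a3⟩ := h.exists_fun innerModel_univ (isOrdinal_toZFSet _)
  have h0 : ∀ n, nat.{u} n ∈ om := fun n =>
    Ordinal.toZFSet_mem_toZFSet_iff.2 (Ordinal.natCast_lt_omega0 n)
  choose B b1 b2 using fun n => a3 _ (h0 n)
  refine ⟨B, b1, fun x hx => ?_⟩
  obtain ⟨i, hi, h1⟩ := a2 x hx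
  obtain ⟨o, ho, rfl⟩ := Ordinal.mem_toZFSet_iff.1 hi
  obtain ⟨n, rfl⟩ := Ordinal.lt_omega0.1 ho
  exact ⟨n + 1, fun m hm => (h.1.mem (b1 m)).mem_trans h1
    (b2 m _ (Ordinal.toZFSet_mem_toZFSet_iff.2 (by exact_mod_cast hm)))⟩

theorem dichotomy {k : Cardinal.{u}} {g l0 l : ZFSet.{u}} (hk : k.ord.toZFSet ∈ l0)
    (h0 : CofSM Set.univ om l0) (hl : Regular Set.univ l) (hll : l0 ∈ l)
    (h1 : ¬ ∃ f, HOD Set.univ f ∧ IsInj l (powerset l0) f) (hr : Reflects k g l) :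
    CofSM Set.univ g l := by
  obtain ⟨hl0, m, hm, hm', -, h2⟩ := h0
  refine ⟨hl, l0, hll, fun e => notMem_empty _ (e ▸ hm), h1, ?_⟩
  rintro ⟨s, s0, s1, s2, s3, -⟩
  have : Tm Set.univ On (fun _ => s) := od_iff.1 s0.self
  refine h2 (solovay hl0 hk hm hm' (Cof Set.univ om) (stat_cof_om innerModel_univ hl0)
    fun a ha ha' => ?_)
  obtain ⟨H, a1, a2⟩ := ha'.exists_mono
  have a3 : ∀ i ∈ a, i ∈ l0 := fun i hi => hl0.1.mem_trans hi ha
  obtain ⟨b, hb, d, d1, d2, d3, d4⟩ := hr (fun n => app s (H n))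
    fun n => s2 _ _ (s1.app_mem (a3 _ (a1 n)))
  have : Tm Set.univ On (fun _ => a) := Tm.ofOrd ha'.1
  have : Tm Set.univ On (fun _ => b) := Tm.ofOrd d1.1
  refine ⟨a.sep fun i => Stat Set.univ b (app s i ∩ b), od_iff.2 inferInstance, sep_subset,
    fun x hx => ?_, (mem_ord_iff (img_colIn_ord fun x hx => ha'.1.mem (mem_sep.1 hx).1)).2
      ((card_img_le _ _).trans_lt (lt_of_le_of_lt ?_ d3))⟩
  · obtain ⟨n, h3⟩ := a2 x hx
    obtain ⟨j, h4, h5⟩ := d4 n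
    exact ⟨_, mem_sep.2 ⟨a1 j, h5⟩, h3 j h4⟩
  · obtain ⟨c, c1, c2⟩ := d1.exists_club d2.le
    choose! Z z1 z2 using fun i (hi : i ∈ a.sep fun i => Stat Set.univ b (app s i ∩ b)) =>
      (mem_sep.1 hi).2.2 c trivial c1
    refine (card_le_of_inj Z z2 fun i hi j hj e => ?_).trans c2
    by_contra h3
    exact s3 i _ j _ (s1.app_mem (a3 i (mem_sep.1 hi).1)) (s1.app_mem (a3 j (mem_sep.1 hj).1)) h3
      _ (mem_inter.1 (z1 i hi)).1 (e ▸ (mem_inter.1 (z1 j hj)).1)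

end Pool.Agent.MP_ecfd11_lc
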