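import Pool.Agent.MP_ecfd11_lc.Col

/-!
The forcing relation and its definability.
-/

set_option synthInstance.maxSize 4000

namespace Pool.Agent.MP_ecfd11_lc

universe u

open ZFSet Function Classical

/-- The domain of a set of pairs. -/
noncomputable def dom (s : ZFSet.{u}) : ZFSet.{u} :=
  (img fst s).sep fun x => ∃ q, pair x q ∈ s

@[simp] theorem mem_dom {s x : ZFSet.{u}} : x ∈ dom s ↔ ∃ q, pair x q ∈ s := by
  rw [dom, mem_sep, mem_img]
  exact ⟨fun h => h.2, fun ⟨q, h⟩ => ⟨⟨_, h, fst_pair _ _⟩, q, h⟩⟩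

theorem rank_lt_of_pair_mem {s x q : ZFSet.{u}} (h : pair x q ∈ s) : rank x < rank s :=
  (rank_lt_of_mem (x := {x}) (by simp)).trans
    ((rank_lt_of_mem (x := pair x q) (by simp [pair])).trans (rank_lt_of_mem h))

theorem dom_wf : WellFounded fun y x : ZFSet.{u} => y ∈ dom x :=
  Subrelation.wf (fun h => by obtain ⟨q, h⟩ := mem_dom.1 h; exact rank_lt_of_pair_mem h)
    (InvImage.wf rank wellFounded_lt)

/-- One step in the definition of forcing an equality. -/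
def FeqStep (P le p σ τ : ZFSet.{u}) (E : ZFSet.{u} → ZFSet.{u} → ZFSet.{u} → Prop) : Prop :=
  p ∈ P ∧
  (∀ s q, pair s q ∈ σ → q ∈ P → ∀ r, r ∈ P → pair r p ∈ le → pair r q ∈ le →
    ∃ r', r' ∈ P ∧ pair r' r ∈ le ∧
      ∃ t q', pair t q' ∈ τ ∧ q' ∈ P ∧ pair r' q' ∈ le ∧ E r' s t) ∧
  (∀ t q', pair t q' ∈ τ → q' ∈ P → ∀ r, r ∈ P → pair r p ∈ le → pair r q' ∈ le →
    ∃ r', r' ∈ P ∧ pair r' r ∈ le ∧
      ∃ s q, pair s q ∈ σ ∧ q ∈ P ∧ pair r' q ∈ le ∧ E r' s t)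

theorem FeqStep.imp {P le p σ τ : ZFSet.{u}} {E E' : ZFSet.{u} → ZFSet.{u} → ZFSet.{u} → Prop}
    (h : ∀ s q, pair s q ∈ σ → ∀ t q', pair t q' ∈ τ → ∀ r ∈ P, E r s t → E' r s t)
    (h1 : FeqStep P le p σ τ E) : FeqStep P le p σ τ E' := by
  refine ⟨h1.1, fun s q hs hq r hr h2 h3 => ?_, fun t q' ht hq r hr h2 h3 => ?_⟩
  · obtain ⟨r', a1, a2, t, q', a3, a4, a5, a6⟩ := h1.2.1 s q hs hq r hr h2 h3
    exact ⟨r', a1, a2, t, q', a3, a4, a5, h s q hs t q' a3 r' a1 a6⟩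
  · obtain ⟨r', a1, a2, s, q, a3, a4, a5, a6⟩ := h1.2.2 t q' ht hq r hr h2 h3
    exact ⟨r', a1, a2, s, q, a3, a4, a5, h s q a3 t q' ht r' a1 a6⟩

/-- `p` forces `σ = τ`. -/
noncomputable def Feq (P le p σ τ : ZFSet.{u}) : Prop :=
  dom_wf.fix (C := fun _ => ZFSet.{u} → ZFSet.{u} → Prop)
    (fun σ IH p τ => FeqStep P le p σ τ fun r s t => ∃ h : s ∈ dom σ, IH s h r t) σ p τ

theorem feq_iff {P le p σ τ : ZFSet.{u}} :
    Feq P le p σ τ ↔ FeqStep P le p σ τ (Feq P le) := by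
  rw [Feq, WellFounded.fix_eq]
  exact ⟨FeqStep.imp fun _ _ _ _ _ _ _ _ h => h.2,
    FeqStep.imp fun _ q hs _ _ _ _ _ h => ⟨mem_dom.2 ⟨q, hs⟩, h⟩⟩

/-- `p` forces `σ ∈ τ`. -/
def Fmem (P le p σ τ : ZFSet.{u}) : Prop :=
  p ∈ P ∧ ∀ r, r ∈ P → pair r p ∈ le → ∃ r', r' ∈ P ∧ pair r' r ∈ le ∧
    ∃ t q, pair t q ∈ τ ∧ q ∈ P ∧ pair r' q ∈ le ∧ Feq P le r' σ t

/-- The forcing relation over `M`. -/
def Frc (M : Set ZFSet.{u}) (P le : ZFSet.{u}) : Fml → ZFSet.{u} → (ℕ → ZFSet.{u}) → Prop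
  | .mem i j, p, σ => Fmem P le p (σ i) (σ j)
  | .eq i j, p, σ => Feq P le p (σ i) (σ j)
  | .neg φ, p, σ => ∀ q, q ∈ P → pair q p ∈ le → ¬ Frc M P le φ q σ
  | .and φ ψ, p, σ => Frc M P le φ p σ ∧ Frc M P le ψ p σ
  | .all φ, p, σ => ∀ τ, τ ∈ M → ∀ r, r ∈ P → pair r p ∈ le →
      ∃ q, q ∈ P ∧ pair q r ∈ le ∧ Frc M P le φ q (cons τ σ)

/-- The canonical name of a set. -/
noncomputable def chk (P : ZFSet.{u}) : ZFSet.{u} → ZFSet.{u} :=
  recF (fun x => x) fun _ g => prod (img snd g) P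

theorem chk_eq (P x : ZFSet.{u}) : chk P x = prod (img snd (gr (chk P) x)) P :=
  recF_eq (pred := fun x => x) mem_wf _ x

variable {C A : Set ZFSet.{u}} [hc : Ctx C A]

instance Tm.dom (t : (ℕ → ZFSet.{u}) → ZFSet.{u}) [Tm C A t] : Tm C A (fun v => dom (t v)) :=
  Tm.of (fun v => (MP_ecfd11_lc.img (fun z => MP_ecfd11_lc.fst z) (t v)).sep
    fun x => ∃ q, ZFSet.pair x q ∈ t v) (by infer_instance) fun _ _ => rfl

instance Tm.chk (s t : (ℕ → ZFSet.{u}) → ZFSet.{u}) [Tm C A s] [Tm C A t] :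
    Tm C A (fun v => chk (s v) (t v)) :=
  haveI : Tm C A (fun v => MP_ecfd11_lc.chk (v 1) (v 0)) :=
    Tm.recursion (fun _ x => x)
      (fun v _ g => ZFSet.prod (MP_ecfd11_lc.img (fun z => MP_ecfd11_lc.snd z) g) (v 0))
      (fun v => MP_ecfd11_lc.chk (v 0)) (fun _ _ => mem_wf) fun _ _ x _ => chk_eq _ x
  Tm.two (fun a b => MP_ecfd11_lc.chk b a) t s

instance Df.feq (P le p σ τ : (ℕ → ZFSet.{u}) → ZFSet.{u}) [hP : Tm C A P] [hle : Tm C A le]
    [Tm C A p] [hσ : Tm C A σ] [hτ : Tm C A τ] :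
    Df C A (fun v => Feq (P v) (le v) (p v) (σ v) (τ v)) := by
  let H : (ℕ → ZFSet.{u}) → ZFSet.{u} → ZFSet.{u} := fun v σ =>
    (prod (v 0) (tc {v 2})).sep fun z => Feq (v 0) (v 1) (fst z) σ (snd z)
  have hH : Tm C A (fun v => H (fun n => v (n + 1)) (v 0)) := by
    refine Tm.recursion (fun _ x => dom x) (fun v σ g => (prod (v 0) (tc {v 2})).sep fun z =>
      FeqStep (v 0) (v 1) (fst z) σ (snd z) fun r s t => pair r t ∈ app g s) H
      (hF := by unfold FeqStep; infer_instance) (fun _ _ => dom_wf) fun v _ σ _ => ?_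
    ext z
    simp only [H, mem_sep]
    refine and_congr_right fun hz => ?_
    obtain ⟨p, hp, τ, hτ, rfl⟩ := mem_prod.1 hz
    rw [fst_pair, snd_pair, feq_iff]
    have ht : ∀ t q', pair t q' ∈ τ → t ∈ tc {v 2} := fun t q' h =>
      (isTransitive_tc _).mem_trans (x := t) (y := {t}) (by simp)
        ((isTransitive_tc _).mem_trans (y := pair t q') (by simp [pair])
          ((isTransitive_tc _).mem_trans h hτ))
    refine ⟨FeqStep.imp fun s q hs t q' h r hr h' => ?_,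
      FeqStep.imp fun s q hs t q' h r hr h' => ?_⟩
    · rw [app_gr (mem_dom.2 ⟨q, hs⟩), mem_sep, fst_pair, snd_pair]
      exact ⟨pair_mem_prod.2 ⟨hr, ht t q' h⟩, h'⟩
    · rw [app_gr (mem_dom.2 ⟨q, hs⟩), mem_sep, fst_pair, snd_pair] at h'
      exact h'.2
  have h2 := Tm.substAll (C := C) (A := A) (fun v => H (fun n => v (n + 1)) (v 0))
    (tcons σ (tcons P (tcons le fun _ => τ)))
    (Tm.tcons hσ (Tm.tcons hP (Tm.tcons hle fun _ => hτ)))
  refine Df.of _ (@Df.mem _ _ _ (fun v => pair (p v) (τ v)) _ _ h2) fun v _ => ?_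
  change pair (p v) (τ v) ∈ (prod (P v) (tc {τ v})).sep
    (fun z => Feq (P v) (le v) (fst z) (σ v) (snd z)) ↔ _
  rw [mem_sep, fst_pair, snd_pair, pair_mem_prod]
  exact ⟨fun h => h.2, fun h => ⟨⟨(feq_iff.1 h).1, subset_tc _ (by simp)⟩, h⟩⟩

instance Df.fmem (P le p σ τ : (ℕ → ZFSet.{u}) → ZFSet.{u}) [Tm C A P] [Tm C A le]
    [Tm C A p] [Tm C A σ] [Tm C A τ] :
    Df C A (fun v => Fmem (P v) (le v) (p v) (σ v) (τ v)) := by
  unfold Fmem; infer_instance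

theorem Df.frc (φ : Fml) (P le p : (ℕ → ZFSet.{u}) → ZFSet.{u}) [Tm C A P] [Tm C A le]
    [Tm C A p] (t : ℕ → (ℕ → ZFSet.{u}) → ZFSet.{u}) (ht : ∀ i, Tm C A (t i)) :
    Df C A (fun v => Frc C (P v) (le v) φ (p v) (fun i => t i v)) := by
  induction φ generalizing P le p t with
  | mem i j => exact Df.fmem P le p (t i) (t j)
  | eq i j => exact Df.feq P le p (t i) (t j)
  | neg φ ih =>
    have := ih (fun v => P fun n => v (n + 1)) (fun v => le fun n => v (n + 1)) (fun v => v 0)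
      (fun i v => t i fun n => v (n + 1)) fun i => Tm.shift (t i) _
    exact Df.allIn P (fun v q => pair q (p v) ∈ le v →
      ¬ Frc C (P v) (le v) φ q (fun i => t i v))
  | and φ ψ ih1 ih2 => exact @Df.and _ _ _ _ (ih1 P le p t ht) (ih2 P le p t ht)
  | all φ ih =>
    have h := ih (fun v => P fun n => v (n + 1 + 1 + 1)) (fun v => le fun n => v (n + 1 + 1 + 1))
      (fun v => v 0) (tcons (fun v => v 2) fun i v => t i fun n => v (n + 1 + 1 + 1))
      (Tm.tcons inferInstance fun i => Tm.shift (t i) _)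
    have h2 : Df C A (fun v => Frc C (P fun n => v (n + 1 + 1 + 1))
        (le fun n => v (n + 1 + 1 + 1)) φ (v 0)
        (cons (v 2) fun i => t i fun n => v (n + 1 + 1 + 1))) := by
      refine Df.of _ h fun v _ => ?_
      have : (fun i => tcons (fun v => v 2) (fun i v => t i fun n => v (n + 1 + 1 + 1)) i v) =
          cons (v 2) fun i => t i fun n => v (n + 1 + 1 + 1) := by
        funext i; cases i <;> rfl
      rw [this]
    have h3 : Df C A (fun v => ∃ q, q ∈ P (fun n => v (n + 1 + 1)) ∧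
        pair q (v 0) ∈ le (fun n => v (n + 1 + 1)) ∧ Frc C (P fun n => v (n + 1 + 1))
        (le fun n => v (n + 1 + 1)) φ q (cons (v 1) fun i => t i fun n => v (n + 1 + 1))) :=
      Df.exIn _ _ (h := Df.and _ _ (h2 := h2))
    have h4 : Df C A (fun v => ∀ r, r ∈ P (fun n => v (n + 1)) →
        pair r (p fun n => v (n + 1)) ∈ le (fun n => v (n + 1)) →
        ∃ q, q ∈ P (fun n => v (n + 1)) ∧ pair q r ∈ le (fun n => v (n + 1)) ∧
        Frc C (P fun n => v (n + 1)) (le fun n => v (n + 1)) φ q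
          (cons (v 0) fun i => t i fun n => v (n + 1))) :=
      Df.allIn _ _ (h := @Df.imp _ _ _ _ inferInstance h3)
    exact Df.allC _ (h := h4)

end Pool.Agent.MP_ecfd11_lc
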