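import Pool.Agent.MP_ecfd11_lc.Cof

/-!
A strongly measurable cardinal is a strong limit cardinal in HOD.
-/

set_option synthInstance.maxSize 4000

namespace Pool.Agent.MP_ecfd11_lc

universe u

open ZFSet Function Classical Cardinal

variable {C : Set ZFSet.{u}} [hc : Ctx C On]

theorem few_values {l k : ZFSet.{u}} (hl : l.IsOrdinal) (hk : k.IsOrdinal)
    (h1 : ¬ ∃ f, HOD C f ∧ IsInj l (powerset k) f) (T : ZFSet.{u} → ZFSet.{u})
    [Tm C On (fun v => T (v 0))] (hT : ∀ x ∈ l, T x ⊆ k) :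
    ∃ (c : ZFSet.{u} → ZFSet.{u}) (t : ZFSet.{u}), t ∈ l ∧ (∀ x ∈ l, c x ∈ t) ∧
      ∀ x ∈ l, ∀ y ∈ l, c x = c y ↔ T x = T y := by
  have : Tm C On (fun _ => l) := Tm.ofOrd hl
  have := Tm.one (C := C) (A := On) T
  obtain ⟨c, c0, c1, c2⟩ := exists_quot (C := C) l hl (DInj.of_subset subset_rfl) T
  have := Tm.one (C := C) (A := On) c
  refine ⟨c, img c l, ?_, fun x hx => mem_img.2 ⟨x, hx, rfl⟩, c2⟩
  by_contra h2
  rw [c1.notMem_iff_subset hl] at h2
  have h3 : ∀ j ∈ l, leastBy l (fun x => x) (fun x => c x = j) ∈ l ∧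
      c (leastBy l (fun x => x) fun x => c x = j) = j :=
    fun j hj => leastBy_id hl (mem_img.1 (h2 hj))
  have := Tm.leastBy (C := C) l (fun x => x) fun j x => c x = j
  exact no_inj hl h1 hk (fun j => T (leastBy l (fun x => x) fun x => c x = j))
    (fun j hj => hT _ (h3 j hj).1) fun i hi j hj e => by
      rw [← (h3 i hi).2, ← (h3 j hj).2, c2 _ (h3 i hi).1 _ (h3 j hj).1, e]

omit hc in
theorem Regular.succ_mem {l x : ZFSet.{u}} (hl : Regular Set.univ l) (hx : x ∈ l) :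
    insert x x ∈ l := by
  obtain ⟨b, hb, h⟩ := hl.succ innerModel_univ hx
  refine (isOrdinal_succ (hl.1.mem hx)).mem_of_subset_of_mem hl.1 (fun y hy => ?_) hb
  rcases mem_insert_iff.1 hy with rfl | hy
  exacts [h, (hl.1.mem hb).mem_trans hy h]

omit hc in
theorem Regular.stat_unbdd {l S : ZFSet.{u}} (hl : Regular Set.univ l) (hS : Stat Set.univ l S)
    {b : ZFSet.{u}} (hb : b ∈ l) : ∃ x ∈ S, b ∈ x := by
  obtain ⟨x, hx, h⟩ := hS.2 (l.sep fun y => b ∈ y) trivial ⟨sep_subset, fun a ha => by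
    obtain ⟨c, hc, h1, h2⟩ := exists_bound2 hl.1 (hl.succ_mem ha) (hl.succ_mem hb)
    exact ⟨c, mem_sep.2 ⟨hc, h2 (mem_insert _ _)⟩, h1 (mem_insert _ _)⟩,
    fun g hg ⟨a, ha⟩ h => by
      obtain ⟨x, hx, -, h2⟩ := h a ha
      exact mem_sep.2 ⟨hg, (hl.1.mem hg).mem_trans (mem_sep.1 hx).2 h2⟩⟩
  exact ⟨x, hx, (mem_sep.1 h).2⟩

omit hc in
theorem Regular.exists_split {l m S : ZFSet.{u}} (hl : Regular Set.univ l) (hm : m ∈ l)
    (hS : Stat Set.univ l S) (F : ZFSet.{u} → ZFSet.{u}) (f1 : ∀ x ∈ l, F x ⊆ m)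
    (f2 : ∀ x ∈ l, ∀ y ∈ l, F x = F y → x = y) :
    ∃ i ∈ m, Stat Set.univ l (S.sep fun x => i ∈ F x) ∧
      Stat Set.univ l (S.sep fun x => i ∉ F x) := by
  by_contra h
  push Not at h
  let T : ZFSet.{u} → ZFSet.{u} := fun i =>
    S.sep fun x => if i = m then ∀ j ∈ m, j ∈ F x ↔ Stat Set.univ l (S.sep fun x => j ∈ F x)
      else (i ∈ F x ↔ ¬ Stat Set.univ l (S.sep fun x => i ∈ F x))
  obtain ⟨i, hi, h1⟩ := hl.stat_union (hl.card_lt (hl.succ_mem hm)) hS T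
    (fun _ _ => sep_subset.trans hS.1) fun x hx => by
      by_cases h1 : ∀ j ∈ m, j ∈ F x ↔ Stat Set.univ l (S.sep fun x => j ∈ F x)
      · exact ⟨m, mem_insert _ _, mem_sep.2 ⟨hx, by rw [if_pos rfl]; exact h1⟩⟩
      · simp only [not_forall] at h1
        obtain ⟨j, hj, h1⟩ := h1
        exact ⟨j, mem_insert_of_mem _ hj, mem_sep.2 ⟨hx, by
          rw [if_neg fun e : j = m => mem_irrefl m (e ▸ hj)]; tauto⟩⟩
  rcases mem_insert_iff.1 hi with rfl | hi
  · obtain ⟨x, hx⟩ := h1.nonempty innerModel_univ hl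
    obtain ⟨y, hy, h2⟩ := hl.stat_unbdd h1 (h1.1 hx)
    have x1 := (mem_sep.1 hx).2
    have y1 := (mem_sep.1 hy).2
    rw [if_pos rfl] at x1 y1
    have : F x = F y := by
      ext j
      exact ⟨fun h => (y1 j (f1 x (h1.1 hx) h)).2 ((x1 j (f1 x (h1.1 hx) h)).1 h),
        fun h => (x1 j (f1 y (h1.1 hy) h)).2 ((y1 j (f1 y (h1.1 hy) h)).1 h)⟩
    exact mem_irrefl y (f2 x (h1.1 hx) y (h1.1 hy) this ▸ h2)
  · simp only [T, if_neg fun e : i = m => mem_irrefl m (e ▸ hi)] at h1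
    by_cases h2 : Stat Set.univ l (S.sep fun x => i ∈ F x)
    · exact h i hi h2 (by simpa [h2] using h1)
    · exact h2 (by simpa [h2] using h1)

theorem strong_limit {l k m : ZFSet.{u}} (hl : Regular Set.univ l)
    (hst : ∀ S, Stat C l S ↔ Stat Set.univ l S) (W : ZFSet.{u} → Prop)
    [Df C On (fun v => W (v 0))] (hW : Stat C l (l.sep W)) (hk : k ∈ l) (hk' : k ≠ ∅)
    (h1 : ¬ ∃ f, HOD C f ∧ IsInj l (powerset k) f) (h2 : ¬ ∃ s, HOD C s ∧ IsPart C W l k s)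
    (hm : m ∈ l) : ¬ ∃ f, HOD C f ∧ IsInj l (powerset m) f := by
  rintro ⟨f, f0, f1, f2⟩
  have hko := hl.1.mem hk
  have : Tm C On (fun _ => f) := od_iff.1 f0.self
  have : Tm C On (fun _ => l) := Tm.ofOrd hl.1
  have : Tm C On (fun _ => k) := Tm.ofOrd hko
  have : Tm C On (fun _ => m) := Tm.ofOrd (hl.1.mem hm)
  have := Df.one (C := C) (A := On) W
  let sp : ZFSet.{u} → ZFSet.{u} := fun S => leastBy m (fun x => x) fun i =>
    Stat C l (S.sep fun x => i ∈ app f x) ∧ Stat C l (S.sep fun x => i ∉ app f x)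
  have : Tm C On (fun v => sp (v 0)) := Tm.leastBy m (fun x => x) fun S i =>
    Stat C l (S.sep fun x => i ∈ app f x) ∧ Stat C l (S.sep fun x => i ∉ app f x)
  have := Tm.one (C := C) (A := On) sp
  have hsp : ∀ S, Stat C l S → Stat C l (S.sep fun x => sp S ∈ app f x) ∧
      Stat C l (S.sep fun x => sp S ∉ app f x) := fun S hS => by
    refine (leastBy_id (p := fun i => Stat C l (S.sep fun x => i ∈ app f x) ∧
      Stat C l (S.sep fun x => i ∉ app f x)) (hl.1.mem hm) ?_).2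
    simp only [hst] at hS ⊢
    exact hl.exists_split hm hS (app f) (fun x hx => mem_powerset.1 (f1.app_mem' hx))
      fun x hx y hy e => f2 x y _ (f1.app_mem hx) (e ▸ f1.app_mem hy)
  have h3 := fun x : ZFSet.{u} => exists_rec (fun x => x) mem_wf fun a g => l.sep fun y =>
    W y ∧ ∀ b, b ∈ a → (sp (app g b) ∈ app f y ↔ sp (app g b) ∈ app f x)
  choose N hN using h3
  have hN0 : Tm C On (fun v => N (v 1) (v 0)) :=
    Tm.recursion (fun _ x => x) (fun v a g => l.sep fun y =>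
      W y ∧ ∀ b, b ∈ a → (sp (app g b) ∈ app f y ↔ sp (app g b) ∈ app f (v 0)))
      (fun v => N (v 0)) (fun _ _ => mem_wf) fun _ _ a _ => hN _ a
  have hN1 : ∀ (s t : (ℕ → ZFSet.{u}) → ZFSet.{u}) [Tm C On s] [Tm C On t],
      Tm C On (fun v => N (s v) (t v)) := fun s t _ _ => Tm.two (fun a b => N b a) t s
  have hN2 : ∀ x a y, y ∈ N x a ↔ y ∈ l ∧ W y ∧
      ∀ b ∈ a, (sp (N x b) ∈ app f y ↔ sp (N x b) ∈ app f x) := fun x a y => by
    rw [hN x a, mem_sep]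
    refine and_congr_right fun _ => and_congr_right fun _ => forall_congr' fun b =>
      forall_congr' fun hb => by rw [app_gr hb]
  by_cases h4 : ∃ x ∈ l, ∀ b ∈ k, Stat C l (N x b)
  · obtain ⟨x, hx, h4⟩ := h4
    have : Tm C On (fun _ => x) := Tm.ofOrd (hl.1.mem hx)
    refine h2 (exists_part hl.1 hko hk' W
      (fun b y => y ∈ N x b ∧ ¬ (sp (N x b) ∈ app f y ↔ sp (N x b) ∈ app f x))
      (fun b hb => ?_) fun b hb b' hb' y _ y1 y2 => ?_)
    · by_cases h5 : sp (N x b) ∈ app f x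
      · refine (hsp _ (h4 b hb)).2.mono (fun y hy => ?_) sep_subset
        obtain ⟨y1, y2⟩ := mem_sep.1 hy
        exact mem_sep.2 ⟨((hN2 _ _ _).1 y1).1, ((hN2 _ _ _).1 y1).2.1, y1, by tauto⟩
      · refine (hsp _ (h4 b hb)).1.mono (fun y hy => ?_) sep_subset
        obtain ⟨y1, y2⟩ := mem_sep.1 hy
        exact mem_sep.2 ⟨((hN2 _ _ _).1 y1).1, ((hN2 _ _ _).1 y1).2.1, y1, by tauto⟩
    · rcases (hko.mem hb).mem_trichotomous (hko.mem hb') with h5 | h5 | h5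
      exacts [absurd (((hN2 _ _ _).1 y2.1).2.2 b h5) y1.2, h5,
        absurd (((hN2 _ _ _).1 y1.1).2.2 b' h5) y2.2]
  · push Not at h4
    obtain ⟨c, t, c1, c2, c3⟩ := few_values (C := C) hl.1 hko h1
      (fun x => k.sep fun b => sp (N x b) ∈ app f x) fun _ _ => sep_subset
    obtain ⟨j, -, h5⟩ := hl.stat_union (hl.card_lt c1) ((hst _).1 hW)
      (fun j => l.sep fun x => W x ∧ c x = j) (fun _ _ => sep_subset) fun x hx =>
        ⟨c x, c2 x (mem_sep.1 hx).1, mem_sep.2 ⟨(mem_sep.1 hx).1, (mem_sep.1 hx).2, rfl⟩⟩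
    obtain ⟨x, hx⟩ := h5.nonempty innerModel_univ hl
    obtain ⟨x1, -, x3⟩ := mem_sep.1 hx
    obtain ⟨b, hb, h6⟩ := h4 x x1
    refine h6 ((hst _).2 (h5.mono (fun y hy => ?_) fun y hy => ((hN2 _ _ _).1 hy).1))
    obtain ⟨y1, y2, y3⟩ := mem_sep.1 hy
    have h7 := (c3 x x1 y y1).1 (x3.trans y3.symm)
    have h8 : ∀ b ∈ k, sp (N x b) ∈ app f x ↔ sp (N y b) ∈ app f y := fun b hb => by
      simpa [hb] using ZFSet.ext_iff.1 h7 b
    have h9 : ∀ a, a ∈ k → N x a = N y a := fun a => by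
      induction a using ZFSet.inductionOn with
      | _ a ih =>
        intro ha
        ext z
        rw [hN2, hN2]
        refine and_congr_right fun _ => and_congr_right fun _ => forall_congr' fun b =>
          forall_congr' fun hb => ?_
        rw [h8 b (hko.mem_trans hb ha), ih b hb (hko.mem_trans hb ha)]
    rw [h9 b hb, hN2]
    exact ⟨y1, y2, fun _ _ => Iff.rfl⟩

theorem DInj.exists_od {a b : ZFSet.{u}} (ha : a.IsOrdinal) (h : DInj C a b) :
    ∃ f, OD C f ∧ IsInj a b f := by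
  obtain ⟨F, f0, f1, f2⟩ := h
  have : Tm C On (fun _ => a) := Tm.ofOrd ha
  refine ⟨gr F a, od_iff.2 (Tm.gr (fun _ => a) (fun _ => F) (h := f0)), isFunc_gr f1,
    fun i j y hi hj => ?_⟩
  rw [pair_mem_gr] at hi hj
  exact f2 i hi.1 j hj.1 (hi.2.trans hj.2.symm)

/-- If `2 ^ k < l` in HOD then the successor of `k` in HOD is below `l`. -/
theorem exists_not_dInj {l k : ZFSet.{u}} (hl : l.IsOrdinal) (hk : k.IsOrdinal) (hk' : om ⊆ k)
    (h1 : ¬ ∃ f, HOD C f ∧ IsInj l (powerset k) f) : ∃ a ∈ l, ¬ DInj C a k := by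
  by_contra h
  push Not at h
  have : Tm C On (fun _ => k) := Tm.ofOrd hk
  obtain ⟨F, f0, f1⟩ := od_choice (C := C) l (fun a f => IsInj a k f)
    fun a ha => (h a ha).exists_od (hl.mem ha)
  replace f1 := fun a ha => f1 a ha (hc.im.ord _ (hl.mem ha))
  obtain ⟨p, p0, p1, p2⟩ := DInj.pairing (C := C) hk hk'
  have := Tm.one (C := C) (A := On) F
  have := Tm.one (C := C) (A := On) p
  let E : ZFSet.{u} → ZFSet.{u} := fun a =>
    img (fun z => p (pair (app (F a) (fst z)) (app (F a) (snd z))))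
      ((prod a a).sep fun z => fst z ⊆ snd z)
  have : Tm C On (fun v => E (v 0)) := by simp only [E]; infer_instance
  have e1 : ∀ a ∈ l, ∀ x ∈ a, ∀ y ∈ a, pair (app (F a) x) (app (F a) y) ∈ prod k k :=
    fun a ha x hx y hy => pair_mem_prod.2 ⟨(f1 a ha).1.app_mem' hx, (f1 a ha).1.app_mem' hy⟩
  have e2 : ∀ a ∈ l, ∀ x ∈ a, ∀ y ∈ a, app (F a) x = app (F a) y → x = y :=
    fun a ha x hx y hy e => (f1 a ha).2 x y _ ((f1 a ha).1.app_mem hx)
      (e ▸ (f1 a ha).1.app_mem hy)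
  have e3 : ∀ a ∈ l, ∀ b ∈ l, E a = E b → ∀ x ∈ b, ∀ y ∈ b, x ⊆ y → ∃ x' ∈ a, ∃ y' ∈ a,
      x' ⊆ y' ∧ app (F a) x' = app (F b) x ∧ app (F a) y' = app (F b) y := by
    intro a ha b hb e x hx y hy hxy
    have : p (pair (app (F b) x) (app (F b) y)) ∈ E a := e ▸ mem_img.2
      ⟨pair x y, mem_sep.2 ⟨pair_mem_prod.2 ⟨hx, hy⟩, by simpa using hxy⟩, by simp⟩
    obtain ⟨z, hz, h2⟩ := mem_img.1 this
    obtain ⟨x', hx', y', hy', rfl⟩ := mem_prod.1 (mem_sep.1 hz).1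
    simp only [fst_pair, snd_pair] at h2
    exact ⟨x', hx', y', hy', by simpa using (mem_sep.1 hz).2,
      pair_inj.1 (p2 _ (e1 a ha x' hx' y' hy') _ (e1 b hb x hx y hy) h2)⟩
  have e4 : ∀ a ∈ l, ∀ b ∈ l, E a = E b → a ∉ b := by
    intro a ha b hb e hab
    have key : ∀ x, x ∈ b → ∀ x' ∈ a, app (F a) x' = app (F b) x → x ⊆ x' := fun x => by
      induction x using ZFSet.inductionOn with
      | _ x ih =>
        intro hx x' hx' h2 y hy
        have hyb := (hl.mem hb).mem_trans hy hx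
        obtain ⟨y', hy', x'', hx'', h3, h4, h5⟩ :=
          e3 a ha b hb e y hyb x hx (((hl.mem hb).mem hx).subset_of_mem hy)
        obtain rfl := e2 a ha x'' hx'' x' hx' (h5.trans h2.symm)
        refine ((hl.mem hb).mem hyb).mem_of_subset_of_mem ((hl.mem ha).mem hx')
          (ih y hy hyb y' hy' h4) ((((hl.mem ha).mem hy').eq_or_mem_of_subset
            ((hl.mem ha).mem hx') h3).resolve_left fun e' => ?_)
        rw [e', h2] at h4
        exact mem_irrefl y (e2 b hb x hx y hyb h4 ▸ hy)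
    obtain ⟨x', hx', -, -, -, h2, -⟩ := e3 a ha b hb e a hab a hab subset_rfl
    exact mem_irrefl x' (key a hab x' hx' h2 hx')
  refine no_inj hl h1 hk E (fun a ha z hz => ?_) fun a ha b hb e => ?_
  · obtain ⟨w, hw, rfl⟩ := mem_img.1 hz
    obtain ⟨x, hx, y, hy, rfl⟩ := mem_prod.1 (mem_sep.1 hw).1
    simpa using p1 _ (e1 a ha x hx y hy)
  · rcases (hl.mem ha).mem_trichotomous (hl.mem hb) with h2 | h2 | h2
    exacts [absurd h2 (e4 a ha b hb e), h2, absurd h2 (e4 b hb a ha e.symm)]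

end Pool.Agent.MP_ecfd11_lc
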