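import Pool.Agent.MP_ecfd11_lc.Small

/-!
Ordinal definable sets and functions.
-/

set_option synthInstance.maxSize 4000

namespace Pool.Agent.MP_ecfd11_lc

universe u

open ZFSet Function Classical Cardinal

variable {C : Set ZFSet.{u}}

theorem od_iff [hc : Ctx C On] {x : ZFSet.{u}} : OD C x ↔ Tm C On (fun _ => x) := by
  constructor
  · rintro ⟨hx, φ, w, hw, h⟩
    refine ⟨fun _ _ => hx, Df.of _ (Df.satC φ (tcons (fun v => v 0) fun i _ => w i)
      (Tm.tcons inferInstance fun i => Tm.ofOrd (hw i))) fun v hv => ?_⟩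
    rw [← h _ (hv 0)]
    have : (fun i => tcons (fun v => v 0) (fun i _ => w i) i v) = cons (v 0) w := by
      funext i; cases i <;> rfl
    rw [this]
  · intro h
    obtain ⟨φ, w, hw, h1⟩ := h.df.ex
    refine ⟨h.val_mem, ren (fun n => if n = 0 then 0 else if n % 2 = 0 then n - 1 else n + 1) φ,
      mrg (fun _ => ∅) w, mrg_mem (C := On) (fun _ => isOrdinal_empty) hw, fun y hy => ?_⟩
    rw [sat_ren, mrg_cons, ← h1 _ (cons_mem hy fun _ => hc.sub hc.empty_mem)]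
    rfl

theorem hod_ord [Ctx C On] {x : ZFSet.{u}} (hx : x.IsOrdinal) : HOD C x := by
  induction x using ZFSet.inductionOn with
  | _ x ih => exact hereditarily_iff.2 ⟨od_iff.2 (Tm.ofOrd hx), fun y hy => ih y hy (hx.mem hy)⟩

theorem hod_upair [Ctx C On] {x y : ZFSet.{u}} (hx : HOD C x) (hy : HOD C y) :
    HOD C {x, y} := by
  have := od_iff.1 hx.self
  have := od_iff.1 hy.self
  refine hereditarily_iff.2 ⟨od_iff.2 inferInstance, fun z hz => ?_⟩
  rcases mem_pair.1 hz with rfl | rfl <;> assumption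

theorem hod_gr [hc : Ctx C On] {a : ZFSet.{u}} (ha : a.IsOrdinal) (F : ZFSet.{u} → ZFSet.{u})
    [hF : Tm C On (fun v => F (v 0))] (h : ∀ i ∈ a, ∀ x ∈ F i, x.IsOrdinal) :
    HOD C (gr F a) := by
  have : Tm C On (fun _ => a) := Tm.ofOrd ha
  refine hereditarily_iff.2 ⟨od_iff.2 (Tm.gr (fun _ => a) (fun _ => F) (h := hF)),
    fun z hz => ?_⟩
  obtain ⟨i, hi, rfl⟩ := mem_img.1 hz
  have h1 : HOD C i := hod_ord (ha.mem hi)
  have : Tm C On (fun _ => i) := Tm.ofOrd (ha.mem hi)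
  have h2 : HOD C (F i) := hereditarily_iff.2
    ⟨od_iff.2 (Tm.one F fun _ => i), fun x hx => hod_ord (h i hi x hx)⟩
  have h3 := hod_upair h1 h1
  rw [pair_eq_singleton] at h3
  exact hod_upair h3 (hod_upair h1 h2)

/-- The `e`-least element of `D` with property `p`. -/
noncomputable def leastBy (D : ZFSet.{u}) (e : ZFSet.{u} → ZFSet.{u}) (p : ZFSet.{u} → Prop) :
    ZFSet.{u} :=
  ⋃₀ (D.sep fun x => p x ∧ ∀ y, y ∈ D → p y → e y ∉ e x)

theorem leastBy_spec {D : ZFSet.{u}} {e : ZFSet.{u} → ZFSet.{u}} {p : ZFSet.{u} → Prop}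
    (h1 : ∀ x ∈ D, (e x).IsOrdinal) (h2 : ∀ x ∈ D, ∀ y ∈ D, e x = e y → x = y)
    (h : ∃ x ∈ D, p x) : leastBy D e p ∈ D ∧ p (leastBy D e p) := by
  obtain ⟨x0, h⟩ := h
  obtain ⟨x, ⟨hx, hp⟩, h3⟩ := (InvImage.wf e mem_wf).has_min {x | x ∈ D ∧ p x} ⟨x0, h⟩
  have : (D.sep fun x => p x ∧ ∀ y, y ∈ D → p y → e y ∉ e x) = {x} := by
    ext y
    rw [mem_sep, mem_singleton]
    refine ⟨fun ⟨hy, hp', h4⟩ => ?_, fun e => e ▸ ⟨hx, hp, fun y hy hp' => h3 y ⟨hy, hp'⟩⟩⟩
    rcases (h1 y hy).mem_trichotomous (h1 x hx) with h5 | h5 | h5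
    · exact absurd h5 (h3 y ⟨hy, hp'⟩)
    · exact h2 y hy x hx h5
    · exact absurd h5 (h4 x hx hp)
  rw [leastBy, this, sUnion_singleton]
  exact ⟨hx, hp⟩

theorem leastBy_id {D : ZFSet.{u}} {p : ZFSet.{u} → Prop} (hD : D.IsOrdinal) (h : ∃ x ∈ D, p x) :
    leastBy D (fun x => x) p ∈ D ∧ p (leastBy D (fun x => x) p) :=
  leastBy_spec (fun _ => hD.mem) (fun _ _ _ _ e => e) h

theorem Tm.leastBy [Ctx C On] (D : ZFSet.{u}) (e : ZFSet.{u} → ZFSet.{u})
    (p : ZFSet.{u} → ZFSet.{u} → Prop) [Tm C On (fun _ => D)] [Tm C On (fun v => e (v 0))]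
    [Df C On (fun v => p (v 0) (v 1))] : Tm C On (fun v => leastBy D e (p (v 0))) := by
  have := Tm.one (C := C) (A := On) e
  have := Df.two (C := C) (A := On) p
  exact Tm.of (fun v => ⋃₀ (D.sep fun x => p (v 0) x ∧ ∀ y, y ∈ D → p (v 0) y → e y ∉ e x))
    (by infer_instance) fun _ _ => rfl

/-- There is an ordinal definable one-to-one function from `a` to `b`. -/
def DInj (C : Set ZFSet.{u}) (a b : ZFSet.{u}) : Prop :=
  ∃ F : ZFSet.{u} → ZFSet.{u}, Tm C On (fun v => F (v 0)) ∧ (∀ x ∈ a, F x ∈ b) ∧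
    ∀ x ∈ a, ∀ y ∈ a, F x = F y → x = y

namespace DInj

variable [hc : Ctx C On] {a b c d : ZFSet.{u}}

theorem trans (h1 : DInj C a b) (h2 : DInj C b c) : DInj C a c := by
  obtain ⟨F, f0, f1, f2⟩ := h1
  obtain ⟨G, g0, g1, g2⟩ := h2
  exact ⟨fun x => G (F x), Tm.one G _, fun x hx => g1 _ (f1 x hx),
    fun x hx y hy e => f2 x hx y hy (g2 _ (f1 x hx) _ (f1 y hy) e)⟩

theorem of_subset (h : a ⊆ b) : DInj C a b :=
  ⟨fun x => x, inferInstance, fun _ hx => h hx, fun _ _ _ _ e => e⟩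

theorem prod (h1 : DInj C a b) (h2 : DInj C c d) : DInj C (prod a c) (prod b d) := by
  obtain ⟨F, f0, f1, f2⟩ := h1
  obtain ⟨G, g0, g1, g2⟩ := h2
  have := Tm.one (C := C) (A := On) F
  have := Tm.one (C := C) (A := On) G
  refine ⟨fun z => pair (F (fst z)) (G (snd z)), inferInstance, fun z hz => ?_,
    fun z hz z' hz' e => ?_⟩
  · obtain ⟨x, hx, y, hy, rfl⟩ := mem_prod.1 hz
    simpa using ⟨f1 x hx, g1 y hy⟩
  · obtain ⟨x, hx, y, hy, rfl⟩ := mem_prod.1 hz
    obtain ⟨x', hx', y', hy', rfl⟩ := mem_prod.1 hz'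
    simp only [fst_pair, snd_pair, pair_inj] at e ⊢
    exact ⟨f2 x hx x' hx' e.1, g2 y hy y' hy' e.2⟩

omit hc in
theorem card_le (h : DInj C a b) : card a ≤ card b := by
  obtain ⟨F, -, f1, f2⟩ := h
  exact card_le_of_inj F f1 f2

theorem inv [Tm C On (fun _ => a)] (F : ZFSet.{u} → ZFSet.{u}) [Tm C On (fun v => F (v 0))]
    (h1 : ∀ x ∈ a, ∀ y ∈ a, F x = F y → x = y) (h2 : ∀ y ∈ b, ∃ x ∈ a, F x = y) :
    DInj C b a := by
  have := Tm.one (C := C) (A := On) F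
  have key : ∀ x ∈ a, (⋃₀ (a.sep fun z => F z = F x) : ZFSet.{u}) = x := fun x hx => by
    have : (a.sep fun z => F z = F x) = {x} := by
      ext z; rw [mem_sep, mem_singleton]
      exact ⟨fun h => h1 z h.1 x hx h.2, fun e => by rw [e]; exact ⟨hx, rfl⟩⟩
    rw [this, sUnion_singleton]
  refine ⟨fun y => ⋃₀ (a.sep fun z => F z = y), inferInstance, fun y hy => ?_,
    fun y hy y' hy' e => ?_⟩
  · obtain ⟨x, hx, rfl⟩ := h2 y hy
    simpa only [key x hx]
  · obtain ⟨x, hx, rfl⟩ := h2 y hy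
    obtain ⟨x', hx', rfl⟩ := h2 y' hy'
    simp only [key x hx, key x' hx'] at e
    rw [e]

theorem hotel (ha : a.IsOrdinal) (h : om ⊆ a) : DInj C (insert a a) a := by
  have : Tm C On (fun _ => a) := Tm.ofOrd ha
  have h0 : ∅ ∈ om := (mem_om_iff isOrdinal_empty).2 (by rw [card_empty]; exact aleph0_pos)
  have h1 : ∀ x ∈ om, insert x x ∈ om := fun x hx => by
    have hx' := (isOrdinal_toZFSet _).mem hx
    exact (mem_om_iff (isOrdinal_succ hx')).2 (card_insert_le.trans_lt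
      (add_lt_aleph0 ((mem_om_iff hx').1 hx) one_lt_aleph0))
  have h2 : ∀ x : ZFSet.{u}, insert x x ≠ ∅ := fun x e => notMem_empty x (e ▸ mem_insert x x)
  refine ⟨fun x => if x = a then ∅ else if x ∈ om then insert x x else x, inferInstance,
    fun x hx => ?_, fun x hx y hy e => ?_⟩
  · dsimp only
    split_ifs with e1 e2
    exacts [h h0, h (h1 x e2), (mem_insert_iff.1 hx).resolve_left e1]
  · dsimp only at e
    split_ifs at e with e1 e2 e3 e4 e5 e6 e7 e8
    · rw [e1, e2]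
    · exact absurd e.symm (h2 y)
    · exact absurd (e ▸ h0) e3
    · exact absurd e (h2 x)
    · have hx' := mem_insert x x
      have hy' := mem_insert y y
      rw [e] at hx'
      rw [← e] at hy'
      rcases mem_insert_iff.1 hx' with h3 | h3
      · exact h3
      · rcases mem_insert_iff.1 hy' with h4 | h4
        · exact h4.symm
        · exact absurd h3 (mem_asymm h4)
    · exact absurd (e ▸ h1 x e4) e6
    · exact absurd (e ▸ h0) e4
    · exact absurd (e ▸ h1 y e8) e4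
    · exact e

/-- The pairing function on an infinite ordinal. -/
theorem pairing (ha : a.IsOrdinal) (h : om ⊆ a) : DInj C (ZFSet.prod a a) a := by
  induction a using ZFSet.inductionOn with
  | _ a ih =>
  have hinf := (om_subset_iff ha).1 h
  by_cases h1 : ∃ b ∈ a, DInj C a b
  · obtain ⟨b, hb, h1⟩ := h1
    exact ((h1.prod h1).trans (ih b hb (ha.mem hb)
      ((om_subset_iff (ha.mem hb)).2 (hinf.trans h1.card_le)))).trans
      (of_subset (ha.subset_of_mem hb))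
  have : Tm C On (fun _ => a) := Tm.ofOrd ha
  let f : ZFSet.{u} → Ordinal.{u} ×ₗ Ordinal.{u} ×ₗ Ordinal.{u} := fun z =>
    toLex (rank (fst z ∪ snd z), toLex (rank (fst z), rank (snd z)))
  have hD : ∀ z ∈ ZFSet.prod a a, fst z ∈ a ∧ snd z ∈ a ∧ z = pair (fst z) (snd z) := by
    intro z hz
    obtain ⟨x, hx, y, hy, rfl⟩ := mem_prod.1 hz
    simp [hx, hy]
  have hc : Tm C On (fun v => col (ZFSet.prod a a) f (v 0)) :=
    Tm.col (fun _ => ZFSet.prod a a) (fun _ => f)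
      (fun _ y x => fst y ∪ snd y ∈ fst x ∪ snd x ∨ fst y ∪ snd y = fst x ∪ snd x ∧
        (fst y ∈ fst x ∨ fst y = fst x ∧ snd y ∈ snd x)) fun _ _ x hx y hy => by
      have x1 := ha.mem (hD x hx).1
      have x2 := ha.mem (hD x hx).2.1
      have y1 := ha.mem (hD y hy).1
      have y2 := ha.mem (hD y hy).2.1
      simp only [f, Prod.Lex.toLex_lt_toLex]
      rw [(isOrdinal_union y1 y2).rank_lt_iff_mem (isOrdinal_union x1 x2),
        (isOrdinal_union y1 y2).rank_inj (isOrdinal_union x1 x2), y1.rank_lt_iff_mem x1,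
        y1.rank_inj x1, y2.rank_lt_iff_mem x2]
  have hinj : ∀ x ∈ ZFSet.prod a a, ∀ y ∈ ZFSet.prod a a,
      col (ZFSet.prod a a) f x = col (ZFSet.prod a a) f y → x = y := by
    intro x hx y hy e
    rw [col_eq_col hx hy] at e
    simp only [f, toLex_inj, Prod.mk.injEq] at e
    rw [(hD x hx).2.2, (hD y hy).2.2,
      ((ha.mem (hD x hx).1).rank_inj (ha.mem (hD y hy).1)).1 e.2.1,
      ((ha.mem (hD x hx).2.1).rank_inj (ha.mem (hD y hy).2.1)).1 e.2.2]
  refine ⟨_, hc, fun z hz => ?_, hinj⟩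
  by_contra h2
  rw [(col_ord z).notMem_iff_subset ha] at h2
  obtain ⟨z1, z2, -⟩ := hD z hz
  have hm := union_mem ha z1 z2
  obtain ⟨m, hm'⟩ : ∃ m, m = fst z ∪ snd z := ⟨_, rfl⟩
  rw [← hm'] at hm
  have hmo := ha.mem hm
  have hg := isOrdinal_succ hmo
  have hga : insert m m ⊆ a := fun x hx => by
    rcases mem_insert_iff.1 hx with rfl | hx
    exacts [hm, ha.mem_trans hx hm]
  have : Tm C On (fun _ => m) := Tm.ofOrd hmo
  have h3 : DInj C a (ZFSet.prod (insert m m) (insert m m)) := by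
    have hs : ZFSet.prod (insert m m) (insert m m) ⊆ ZFSet.prod a a := fun w hw => by
      obtain ⟨x, hx, y, hy, rfl⟩ := mem_prod.1 hw
      exact pair_mem_prod.2 ⟨hga hx, hga hy⟩
    refine inv _ (fun x hx y hy => hinj x (hs hx) y (hs hy)) fun y hy => ?_
    obtain ⟨-, w, hw, h3, rfl⟩ := mem_col.1 (h2 hy)
    refine ⟨w, ?_, rfl⟩
    obtain ⟨w1, w2, w3⟩ := hD w hw
    have h4 : fst w ∪ snd w ⊆ m := by
      rw [← (isOrdinal_union (ha.mem w1) (ha.mem w2)).rank_le_iff_subset hmo, hm']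
      simp only [f, Prod.Lex.toLex_lt_toLex] at h3
      exact h3.elim le_of_lt fun h => h.1.le
    have h5 : ∀ x : ZFSet.{u}, x.IsOrdinal → x ⊆ m → x ∈ insert m m := fun x hx h =>
      mem_insert_iff.2 (hx.eq_or_mem_of_subset hmo h)
    rw [w3]
    exact pair_mem_prod.2 ⟨h5 _ (ha.mem w1) fun x hx => h4 (mem_union.2 (Or.inl hx)),
      h5 _ (ha.mem w2) fun x hx => h4 (mem_union.2 (Or.inr hx))⟩
  by_cases h4 : om ⊆ m
  · have h5 := hotel (C := C) hmo h4
    exact h1 ⟨m, hm, (h3.trans (h5.prod h5)).trans (ih m hm hmo h4)⟩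
  · rw [om_subset_iff hmo, not_le] at h4
    have h5 : card (insert m m) < ℵ₀ := card_insert_le.trans_lt (add_lt_aleph0 h4 one_lt_aleph0)
    exact (hinf.trans (h3.card_le.trans (card_prod_le _ _))).not_gt (mul_lt_aleph0 h5 h5)

end DInj

/-- Enumeration of the classes of a definable equivalence relation. -/
theorem exists_quot [Ctx C On] (D : ZFSet.{u}) [Tm C On (fun _ => D)] {a : ZFSet.{u}}
    (ha : a.IsOrdinal) (hD : DInj C D a) (T : ZFSet.{u} → ZFSet.{u})
    [Tm C On (fun v => T (v 0))] : ∃ c : ZFSet.{u} → ZFSet.{u}, Tm C On (fun v => c (v 0)) ∧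
      (img c D).IsOrdinal ∧ ∀ x ∈ D, ∀ y ∈ D, c x = c y ↔ T x = T y := by
  obtain ⟨e, e0, e1, e2⟩ := hD
  have := Tm.one (C := C) (A := On) T
  have := Tm.one (C := C) (A := On) e
  let rep : ZFSet.{u} → ZFSet.{u} := fun x => leastBy D e fun y => T y = T x
  have h0 : Tm C On (fun v => rep (v 0)) := Tm.leastBy D e fun x y => T y = T x
  have := Tm.one (C := C) (A := On) rep
  have h1 : ∀ x ∈ D, rep x ∈ D ∧ T (rep x) = T x := fun x hx =>
    leastBy_spec (fun x hx => ha.mem (e1 x hx)) e2 ⟨x, hx, rfl⟩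
  have h2 : ∀ x ∈ D, (e (rep x)).IsOrdinal := fun x hx => ha.mem (e1 _ (h1 x hx).1)
  refine ⟨col D fun x => rank (e (rep x)), Tm.col (fun _ => D) (fun _ x => rank (e (rep x)))
    (fun _ y x => e (rep y) ∈ e (rep x))
    fun _ _ x hx y hy => ((h2 y hy).rank_lt_iff_mem (h2 x hx)).symm, otp_ord _ _,
    fun x hx y hy => ?_⟩
  rw [col_eq_col hx hy, (h2 x hx).rank_inj (h2 y hy)]
  refine ⟨fun h => ?_, fun h => by simp only [rep, h]⟩
  rw [← (h1 x hx).2, ← (h1 y hy).2, e2 _ (h1 x hx).1 _ (h1 y hy).1 h]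

end Pool.Agent.MP_ecfd11_lc
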