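import Pool.Agent.MP_ecfd11_lc.Terms

/-!
Definability of the basic predicates.
-/

namespace Pool.Agent.MP_ecfd11_lc

universe u

open ZFSet Function Classical

variable {C A : Set ZFSet.{u}}

theorem Df.of {Q : (ℕ → ZFSet.{u}) → Prop} (P : (ℕ → ZFSet.{u}) → Prop) (h : Df C A P)
    (e : ∀ v, (∀ n, v n ∈ C) → (P v ↔ Q v)) : Df C A Q := Df.congr (h := h) e

theorem Tm.of {t : (ℕ → ZFSet.{u}) → ZFSet.{u}} (s : (ℕ → ZFSet.{u}) → ZFSet.{u}) (h : Tm C A s)
    (e : ∀ v, (∀ n, v n ∈ C) → s v = t v) : Tm C A t := Tm.congr (h := h) e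

namespace Df

variable [hc : Ctx C A] (s t r : (ℕ → ZFSet.{u}) → ZFSet.{u}) [hs : Tm C A s] [ht : Tm C A t]
  [hr : Tm C A r]

section
variable (Q : (ℕ → ZFSet.{u}) → ZFSet.{u} → Prop)
  [h : Df C A (fun v => Q (fun n => v (n + 1)) (v 0))]

instance allSnd : Df C A (fun v => ∀ y, pair (s v) y ∈ t v → Q v y) :=
  Df.of (fun v => ∀ y, y ∈ C → pair (s v) y ∈ t v → Q v y) (by infer_instance) fun v hv =>
    ⟨fun h y hy => h y (hc.im.snd_mem (ht.mem v hv) hy) hy, fun h y _ => h y⟩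

instance exSnd : Df C A (fun v => ∃ y, pair (s v) y ∈ t v ∧ Q v y) :=
  Df.of (fun v => ¬ ∀ y, pair (s v) y ∈ t v → ¬ Q v y) (by infer_instance) fun _ _ => by simp

instance allFst : Df C A (fun v => ∀ y, pair y (s v) ∈ t v → Q v y) :=
  Df.of (fun v => ∀ y, y ∈ C → pair y (s v) ∈ t v → Q v y) (by infer_instance) fun v hv =>
    ⟨fun h y hy => h y (hc.im.fst_mem (ht.mem v hv) hy) hy, fun h y _ => h y⟩

instance exFst : Df C A (fun v => ∃ y, pair y (s v) ∈ t v ∧ Q v y) :=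
  Df.of (fun v => ¬ ∀ y, pair y (s v) ∈ t v → ¬ Q v y) (by infer_instance) fun _ _ => by simp

end

instance exSnd' : Df C A (fun v => ∃ y, pair (s v) y ∈ t v) :=
  Df.of (fun v => ∃ y, pair (s v) y ∈ t v ∧ True) (by infer_instance) fun _ _ => by simp

instance exFst' : Df C A (fun v => ∃ y, pair y (s v) ∈ t v) :=
  Df.of (fun v => ∃ y, pair y (s v) ∈ t v ∧ True) (by infer_instance) fun _ _ => by simp

instance exIn' : Df C A (fun v => ∃ y, y ∈ t v) :=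
  Df.of (fun v => ∃ y, y ∈ t v ∧ True) (by infer_instance) fun _ _ => by simp

section
variable (Q : (ℕ → ZFSet.{u}) → ZFSet.{u} → ZFSet.{u} → Prop)
  [h : Df C A (fun v => Q (fun n => v (n + 1 + 1)) (v 1) (v 0))]

instance allPair : Df C A (fun v => ∀ x y, pair x y ∈ t v → Q v x y) :=
  haveI : Df C A (fun v => Q (fun n => v (n + 1 + 1)) (v (0 + 1)) (v 0)) := h
  Df.of (fun v => ∀ x, x ∈ C → ∀ y, pair x y ∈ t v → Q v x y) (by infer_instance) fun v hv =>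
    ⟨fun h x y hy => h x (hc.im.fst_mem (ht.mem v hv) hy) y hy, fun h x _ => h x⟩

instance exPair : Df C A (fun v => ∃ x y, pair x y ∈ t v ∧ Q v x y) :=
  Df.of (fun v => ¬ ∀ x y, pair x y ∈ t v → ¬ Q v x y) (by infer_instance) fun _ _ => by simp

end

instance isTransitive : Df C A (fun v => (t v).IsTransitive) :=
  Df.of (fun v => ∀ y, y ∈ t v → y ⊆ t v) (by infer_instance) fun _ _ => Iff.rfl

instance isOrdinal : Df C A (fun v => (t v).IsOrdinal) :=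
  Df.of (fun v => (t v).IsTransitive ∧ ∀ y, y ∈ t v → y.IsTransitive) (by infer_instance)
    fun _ _ => isOrdinal_iff_forall_mem_isTransitive.symm

instance isFunc : Df C A (fun v => IsFunc (s v) (t v) (r v)) :=
  Df.of (fun v => r v ⊆ prod (s v) (t v) ∧ ∀ z, z ∈ s v →
    ∃ w, pair z w ∈ r v ∧ ∀ y, pair z y ∈ r v → y = w) (by infer_instance) fun _ _ => Iff.rfl

instance isInj : Df C A (fun v => IsInj (s v) (t v) (r v)) :=
  Df.of (fun v => IsFunc (s v) (t v) (r v) ∧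
    ∀ x y, pair x y ∈ r v → ∀ x', pair x' y ∈ r v → x = x') (by infer_instance) fun _ _ =>
      and_congr_right fun _ => ⟨fun h x x' y h1 h2 => h x y h1 x' h2,
        fun h x y h1 x' h2 => h x x' y h1 h2⟩

instance club : Df C A (fun v => Club (s v) (t v)) :=
  Df.of (fun v => t v ⊆ s v ∧ (∀ b, b ∈ s v → ∃ x, x ∈ t v ∧ b ∈ x) ∧
    ∀ g, g ∈ s v → (∃ b, b ∈ g) → (∀ b, b ∈ g → ∃ x, x ∈ t v ∧ b ∈ x ∧ x ∈ g) → g ∈ t v)
    (by infer_instance) fun _ _ => Iff.rfl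

instance stat : Df C A (fun v => Stat C (s v) (t v)) :=
  Df.of (fun v => t v ⊆ s v ∧ ∀ c, c ∈ C → Club (s v) c → ∃ x, x ∈ t v ∧ x ∈ c)
    (by infer_instance) fun _ _ => Iff.rfl

instance cofOmega : Df C A (fun v => CofOmega C (t v)) :=
  Df.of (fun v => (t v).IsOrdinal ∧ ∃ f, f ∈ C ∧ IsFunc Ordinal.omega0.toZFSet (t v) f ∧
    ∀ b, b ∈ t v → ∃ n y, pair n y ∈ f ∧ b ∈ y) (by infer_instance) fun _ _ => Iff.rfl

end Df

end Pool.Agent.MP_ecfd11_lc
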