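import Pool.Agent.MP_ecfd11_lc.Preds

/-!
Recursion inside an inner model.
-/

namespace Pool.Agent.MP_ecfd11_lc

universe u

open ZFSet Function Classical

theorem exists_rec (pred : ZFSet.{u} → ZFSet.{u}) (wf : WellFounded fun y x => y ∈ pred x)
    (F : ZFSet.{u} → ZFSet.{u} → ZFSet.{u}) :
    ∃ H : ZFSet.{u} → ZFSet.{u}, ∀ x, H x = F x (gr H (pred x)) :=
  ⟨wf.fix fun x IH => F x (range fun y : pred x => pair y (IH y y.2)), fun x => by
    rw [WellFounded.fix_eq]; rfl⟩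

/-- The function defined by recursion along `pred`. -/
noncomputable def recF (pred : ZFSet.{u} → ZFSet.{u}) (F : ZFSet.{u} → ZFSet.{u} → ZFSet.{u}) :
    ZFSet.{u} → ZFSet.{u} :=
  if h : WellFounded fun y x => y ∈ pred x then (exists_rec pred h F).choose else fun _ => ∅

theorem recF_eq {pred : ZFSet.{u} → ZFSet.{u}} (wf : WellFounded fun y x => y ∈ pred x)
    (F : ZFSet.{u} → ZFSet.{u} → ZFSet.{u}) (x : ZFSet.{u}) :
    recF pred F x = F x (gr (recF pred F) (pred x)) := by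
  rw [recF, dif_pos wf]
  exact (exists_rec pred wf F).choose_spec x

theorem gr_congr {F G : ZFSet.{u} → ZFSet.{u}} {x : ZFSet.{u}} (h : ∀ a ∈ x, F a = G a) :
    gr F x = gr G x :=
  img_congr fun a ha => by rw [h a ha]

/-- Restriction of a set function. -/
noncomputable def res (g d : ZFSet.{u}) : ZFSet.{u} := g.sep fun z => fst z ∈ d

theorem res_gr {F : ZFSet.{u} → ZFSet.{u}} {x d : ZFSet.{u}} (h : d ⊆ x) :
    res (gr F x) d = gr F d := by
  ext z
  simp only [res, gr, mem_sep, mem_img]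
  constructor
  · rintro ⟨⟨a, -, rfl⟩, h2⟩
    exact ⟨a, by simpa using h2, rfl⟩
  · rintro ⟨a, ha, rfl⟩
    exact ⟨⟨a, h ha, rfl⟩, by simpa using ha⟩

/-- Transitive closure along `pred`. -/
noncomputable def tcl (pred : ZFSet.{u} → ZFSet.{u}) : ZFSet.{u} → ZFSet.{u} :=
  recF pred fun x g => pred x ∪ ⋃₀ img snd g

section tcl

variable {pred : ZFSet.{u} → ZFSet.{u}} (wf : WellFounded fun y x => y ∈ pred x)
include wf

theorem tcl_eq (x : ZFSet.{u}) : tcl pred x = pred x ∪ ⋃₀ img (tcl pred) (pred x) := by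
  rw [tcl, recF_eq wf, snd_gr]

theorem mem_tcl {x y : ZFSet.{u}} :
    y ∈ tcl pred x ↔ y ∈ pred x ∨ ∃ z ∈ pred x, y ∈ tcl pred z := by
  rw [tcl_eq wf]; simp

theorem pred_subset_tcl (x : ZFSet.{u}) : pred x ⊆ tcl pred x :=
  fun _ h => (mem_tcl wf).2 (Or.inl h)

theorem tcl_trans {x y z : ZFSet.{u}} (h1 : z ∈ tcl pred y) (h2 : y ∈ tcl pred x) :
    z ∈ tcl pred x := by
  induction x using wf.induction with
  | _ x ih =>
    rcases (mem_tcl wf).1 h2 with h | ⟨w, hw, h⟩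
    · exact (mem_tcl wf).2 (Or.inr ⟨y, h, h1⟩)
    · exact (mem_tcl wf).2 (Or.inr ⟨w, hw, ih w hw h⟩)

theorem tcl_least {x c : ZFSet.{u}} (h1 : pred x ⊆ c) (h2 : ∀ y ∈ c, pred y ⊆ c) :
    tcl pred x ⊆ c := by
  induction x using wf.induction with
  | _ x ih =>
    intro y hy
    rcases (mem_tcl wf).1 hy with h | ⟨w, hw, h⟩
    · exact h1 h
    · exact ih w hw (h2 w (h1 hw)) h

theorem tcl_wf : WellFounded fun y x => y ∈ tcl pred x := by
  refine Subrelation.wf (fun {y x} h => ?_) wf.transGen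
  induction x using wf.induction with
  | _ x ih =>
    rcases (mem_tcl wf).1 h with h | ⟨w, hw, h⟩
    · exact .single h
    · exact .tail (ih w hw h) hw

end tcl

variable {C A : Set ZFSet.{u}}

theorem Tm.fam [Ctx C A] (F : (ℕ → ZFSet.{u}) → ZFSet.{u} → ZFSet.{u})
    [Tm C A (fun v => F (fun n => v (n + 1)) (v 0))] (g : ℕ → ℕ)
    (s : (ℕ → ZFSet.{u}) → ZFSet.{u}) [hs : Tm C A s] :
    Tm C A (fun v => F (fun n => v (g n)) (s v)) :=
  Tm.substAll (fun v => F (fun n => v (n + 1)) (v 0))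
    (MP_ecfd11_lc.tcons s fun i v => v (g i)) (Tm.tcons hs fun i => Tm.var (g i))

theorem Tm.fam2 [Ctx C A] (F : (ℕ → ZFSet.{u}) → ZFSet.{u} → ZFSet.{u} → ZFSet.{u})
    [Tm C A (fun v => F (fun n => v (n + 1 + 1)) (v 0) (v 1))] (g : ℕ → ℕ)
    (s t : (ℕ → ZFSet.{u}) → ZFSet.{u}) [hs : Tm C A s] [ht : Tm C A t] :
    Tm C A (fun v => F (fun n => v (g n)) (s v) (t v)) :=
  Tm.substAll (fun v => F (fun n => v (n + 1 + 1)) (v 0) (v 1))
    (MP_ecfd11_lc.tcons s (MP_ecfd11_lc.tcons t fun i v => v (g i)))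
    (Tm.tcons hs (Tm.tcons ht fun i => Tm.var (g i)))

instance Tm.res [Ctx C A] (s t : (ℕ → ZFSet.{u}) → ZFSet.{u}) [Tm C A s] [Tm C A t] :
    Tm C A (fun v => res (s v) (t v)) :=
  Tm.of (fun v => (s v).sep fun z => MP_ecfd11_lc.fst z ∈ t v) (by infer_instance)
    fun _ _ => rfl

theorem Tm.tcl [hc : Ctx C A] (pred : (ℕ → ZFSet.{u}) → ZFSet.{u} → ZFSet.{u})
    [hp : Tm C A (fun v => pred (fun n => v (n + 1)) (v 0))]
    (wf : ∀ v, (∀ n, v n ∈ C) → WellFounded fun y x => y ∈ pred v x) :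
    Tm C A (fun v => tcl (pred fun n => v (n + 1)) (v 0)) := by
  have hp' := Tm.fam (C := C) (A := A) pred
  let R : (ℕ → ZFSet.{u}) → ZFSet.{u} → ZFSet.{u} → Prop := fun v a b =>
    pred v a ⊆ b ∧ (∀ y, y ∈ b → pred v y ⊆ b) ∧
      ∀ c, c ∈ C → pred v a ⊆ c → (∀ y, y ∈ c → pred v y ⊆ c) → b ⊆ c
  have hR : Df C A (fun v => R (fun n => v (n + 1 + 1)) (v 1) (v 0)) := by
    simp only [R]; infer_instance
  have key : ∀ v, (∀ n, v n ∈ C) → ∀ a, MP_ecfd11_lc.tcl (pred v) a ∈ C →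
      ∀ b, R v a b ↔ b = MP_ecfd11_lc.tcl (pred v) a := by
    intro v hv a ha b
    have h1 := pred_subset_tcl (wf v hv)
    have h2 : ∀ y ∈ MP_ecfd11_lc.tcl (pred v) a, pred v y ⊆ MP_ecfd11_lc.tcl (pred v) a :=
      fun y hy z hz => tcl_trans (wf v hv) (h1 y hz) hy
    constructor
    · rintro ⟨r1, r2, r3⟩
      exact subset_antisymm (r3 _ ha (h1 a) h2) (tcl_least (wf v hv) r1 r2)
    · rintro rfl
      exact ⟨h1 a, h2, fun c _ c1 c2 => tcl_least (wf v hv) c1 c2⟩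
  have hm : ∀ v, (∀ n, v n ∈ C) → ∀ a ∈ C, MP_ecfd11_lc.tcl (pred v) a ∈ C := by
    intro v hv a
    induction a using (wf v hv).induction with
    | _ a ih =>
      intro ha
      have h1 : pred v a ∈ C := hp.mem (cons a v) (cons_mem ha hv)
      have h2 : ∀ y ∈ pred v a, MP_ecfd11_lc.tcl (pred v) y ∈ C :=
        fun y hy => ih y hy (hc.im.trans _ h1 _ hy)
      rw [tcl_eq (wf v hv)]
      exact hc.im.union _ (hc.im.pairing _ h1 _ (hc.im.union _
        (img_mem (A := A) R hv h1 h2 fun y hy b _ => key v hv y (h2 y hy) b)))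
  exact ⟨fun v hv => hm _ (fun n => hv _) _ (hv 0), Df.of _ hR fun v hv =>
    key _ (fun n => hv _) _ (hm _ (fun n => hv _) _ (hv _)) _⟩

theorem Tm.recT [hc : Ctx C A] (pred : (ℕ → ZFSet.{u}) → ZFSet.{u} → ZFSet.{u})
    (F : (ℕ → ZFSet.{u}) → ZFSet.{u} → ZFSet.{u} → ZFSet.{u})
    (H : (ℕ → ZFSet.{u}) → ZFSet.{u} → ZFSet.{u})
    [hp : Tm C A (fun v => pred (fun n => v (n + 1)) (v 0))]
    [hF : Tm C A (fun v => F (fun n => v (n + 1 + 1)) (v 0) (v 1))]
    (wf : ∀ v, (∀ n, v n ∈ C) → WellFounded fun y x => y ∈ pred v x)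
    (tr : ∀ v, (∀ n, v n ∈ C) → ∀ x y, y ∈ pred v x → pred v y ⊆ pred v x)
    (eq : ∀ v, (∀ n, v n ∈ C) → ∀ x ∈ C, H v x = F v x (MP_ecfd11_lc.gr (H v) (pred v x))) :
    Tm C A (fun v => H (fun n => v (n + 1)) (v 0)) := by
  have hp' := Tm.fam (C := C) (A := A) pred
  have hF' := Tm.fam2 (C := C) (A := A) F
  let Good : (ℕ → ZFSet.{u}) → ZFSet.{u} → ZFSet.{u} → Prop := fun v x g =>
    g = MP_ecfd11_lc.gr (fun y => F v y (MP_ecfd11_lc.res g (pred v y))) (pred v x)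
  have hpm : ∀ v, (∀ n, v n ∈ C) → ∀ x ∈ C, pred v x ∈ C :=
    fun v hv x hx => hp.mem (cons x v) (cons_mem hx hv)
  have hFm : ∀ v, (∀ n, v n ∈ C) → ∀ x ∈ C, ∀ g ∈ C, F v x g ∈ C :=
    fun v hv x hx g hg => hF.mem (cons x (cons g v)) (cons_mem hx (cons_mem hg hv))
  have key : ∀ v, (∀ n, v n ∈ C) → ∀ x ∈ C, ∀ g,
      Good v x g ↔ g = MP_ecfd11_lc.gr (H v) (pred v x) := by
    intro v hv x hx g
    have hy : ∀ y ∈ pred v x, y ∈ C := hc.im.trans _ (hpm v hv x hx)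
    constructor
    · intro hg
      have : ∀ y, y ∈ pred v x → F v y (MP_ecfd11_lc.res g (pred v y)) = H v y := by
        intro y
        induction y using (wf v hv).induction with
        | _ y ih =>
          intro hyx
          have e : MP_ecfd11_lc.res g (pred v y) = MP_ecfd11_lc.gr (H v) (pred v y) := by
            conv_lhs => rw [hg, res_gr (tr v hv x y hyx)]
            exact gr_congr fun z hz => ih z hz (tr v hv x y hyx hz)
          rw [e, eq v hv y (hy y hyx)]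
      rw [hg]
      exact gr_congr this
    · rintro rfl
      exact gr_congr fun y hyx => by rw [res_gr (tr v hv x y hyx), ← eq v hv y (hy y hyx)]
  let R : (ℕ → ZFSet.{u}) → ZFSet.{u} → ZFSet.{u} → Prop := fun v a b =>
    ∃ g, g ∈ C ∧ Good v a g ∧ b = F v a g
  have hR : Df C A (fun v => R (fun n => v (n + 1 + 1)) (v 1) (v 0)) := by
    simp only [R, Good]; infer_instance
  have key2 : ∀ v, (∀ n, v n ∈ C) → ∀ x ∈ C, MP_ecfd11_lc.gr (H v) (pred v x) ∈ C →
      ∀ b, R v x b ↔ b = H v x := by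
    intro v hv x hx hg b
    rw [eq v hv x hx]
    exact ⟨fun ⟨g, _, h1, h2⟩ => by rw [h2, (key v hv x hx g).1 h1],
      fun h => ⟨_, hg, (key v hv x hx _).2 rfl, h⟩⟩
  have hm : ∀ v, (∀ n, v n ∈ C) → ∀ x ∈ C, MP_ecfd11_lc.gr (H v) (pred v x) ∈ C := by
    intro v hv x
    induction x using (wf v hv).induction with
    | _ x ih =>
      intro hx
      have hy : ∀ y ∈ pred v x, y ∈ C := hc.im.trans _ (hpm v hv x hx)
      have hH : ∀ y ∈ pred v x, H v y ∈ C := fun y hyx => by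
        rw [eq v hv y (hy y hyx)]; exact hFm v hv y (hy y hyx) _ (ih y hyx (hy y hyx))
      have hR' : ∀ (g : ℕ → ℕ) (s t : (ℕ → ZFSet.{u}) → ZFSet.{u}) [Tm C A s] [Tm C A t],
          Df C A (fun v => R (fun n => v (g n)) (s v) (t v)) := by
        intro g s t _ _; simp only [R, Good]; infer_instance
      refine img_mem (A := A) (fun v a b => ∃ c, c ∈ C ∧ R v a c ∧ b = ZFSet.pair a c) hv
        (hpm v hv x hx) (fun y hyx => (Tm.pair (C := C) (A := A) (fun v => v 0) fun v => v 1).mem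
          (cons y fun _ => H v y) (cons_mem (hy y hyx) fun _ => hH y hyx)) fun y hyx b _ => ?_
      simp only [key2 v hv y (hy y hyx) (ih y hyx (hy y hyx))]
      exact ⟨fun ⟨c, _, h1, h2⟩ => h1 ▸ h2, fun h => ⟨_, hH y hyx, rfl, h⟩⟩
  refine ⟨fun v hv => ?_, Df.of _ hR fun v hv =>
    key2 _ (fun n => hv _) _ (hv _) (hm _ (fun n => hv _) _ (hv _)) _⟩
  rw [eq _ (fun n => hv _) _ (hv 0)]
  exact hFm _ (fun n => hv _) _ (hv 0) _ (hm _ (fun n => hv _) _ (hv 0))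

/-- Functions defined by recursion along a definable well-founded set-like relation are terms. -/
theorem Tm.recursion [hc : Ctx C A] (pred : (ℕ → ZFSet.{u}) → ZFSet.{u} → ZFSet.{u})
    (F : (ℕ → ZFSet.{u}) → ZFSet.{u} → ZFSet.{u} → ZFSet.{u})
    (H : (ℕ → ZFSet.{u}) → ZFSet.{u} → ZFSet.{u})
    [hp : Tm C A (fun v => pred (fun n => v (n + 1)) (v 0))]
    [hF : Tm C A (fun v => F (fun n => v (n + 1 + 1)) (v 0) (v 1))]
    (wf : ∀ v, (∀ n, v n ∈ C) → WellFounded fun y x => y ∈ pred v x)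
    (eq : ∀ v, (∀ n, v n ∈ C) → ∀ x ∈ C, H v x = F v x (MP_ecfd11_lc.gr (H v) (pred v x))) :
    Tm C A (fun v => H (fun n => v (n + 1)) (v 0)) := by
  have hp' := Tm.fam (C := C) (A := A) pred
  have hF' := Tm.fam2 (C := C) (A := A) F
  have ht := Tm.tcl (C := C) (A := A) pred wf
  exact Tm.recT (fun v => MP_ecfd11_lc.tcl (pred v))
    (fun v x g => F v x (MP_ecfd11_lc.res g (pred v x))) H
    (fun v hv => tcl_wf (wf v hv)) (fun v hv x y h z hz => tcl_trans (wf v hv) hz h)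
    fun v hv x hx => by rw [res_gr (pred_subset_tcl (wf v hv) x), ← eq v hv x hx]

/-- Transitive closure. -/
noncomputable def tc : ZFSet.{u} → ZFSet.{u} := tcl fun x => x

theorem subset_tc (x : ZFSet.{u}) : x ⊆ tc x := pred_subset_tcl (pred := fun x => x) mem_wf x

theorem isTransitive_tc (x : ZFSet.{u}) : (tc x).IsTransitive :=
  fun y hy _ hz => tcl_trans (pred := fun x => x) mem_wf (subset_tc y hz) hy

instance Tm.tc [Ctx C A] (t : (ℕ → ZFSet.{u}) → ZFSet.{u}) [Tm C A t] :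
    Tm C A (fun v => tc (t v)) :=
  haveI : Tm C A (fun v => MP_ecfd11_lc.tc (v 0)) :=
    Tm.tcl (C := C) (A := A) (fun _ x => x) fun _ _ => mem_wf
  Tm.one MP_ecfd11_lc.tc t

end Pool.Agent.MP_ecfd11_lc
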