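import Pool.Agent.MP_ecfd11_lc.Core

/-!
The cumulative hierarchy of an inner model, satisfaction for set models, and reflection.
-/

set_option synthInstance.maxSize 4000

namespace Pool.Agent.MP_ecfd11_lc

universe u

open ZFSet Function Classical Cardinal

/-- The cumulative hierarchy of `C`. -/
noncomputable def vC (C : Set ZFSet.{u}) : ZFSet.{u} → ZFSet.{u} :=
  recF (fun x => x) fun _ g => ⋃₀ img (fun y => pw C y) (img (fun z => snd z) g)

theorem vC_eq (C : Set ZFSet.{u}) (x : ZFSet.{u}) :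
    vC C x = ⋃₀ img (fun y => pw C y) (img (fun z => snd z) (gr (vC C) x)) :=
  recF_eq (pred := fun x => x) mem_wf _ x

instance Tm.vC {C A : Set ZFSet.{u}} [Ctx C A] (t : (ℕ → ZFSet.{u}) → ZFSet.{u}) [Tm C A t] :
    Tm C A (fun v => vC C (t v)) :=
  haveI : Tm C A (fun v => MP_ecfd11_lc.vC C (v 0)) :=
    Tm.recursion (fun _ x => x) (fun _ _ g => ⋃₀ MP_ecfd11_lc.img (fun y => MP_ecfd11_lc.pw C y)
      (MP_ecfd11_lc.img (fun z => MP_ecfd11_lc.snd z) g)) (fun _ => MP_ecfd11_lc.vC C)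
      (fun _ _ => mem_wf) fun _ _ x _ => vC_eq C x
  Tm.one (MP_ecfd11_lc.vC C) t

theorem mem_vC {C : Set ZFSet.{u}} (hC : InnerModel C) {o : Ordinal.{u}} {x : ZFSet.{u}} :
    x ∈ vC C o.toZFSet ↔ x ∈ C ∧ rank x < o := by
  induction o using Ordinal.induction generalizing x with
  | _ o ih =>
    rw [vC_eq, show img (fun z => snd z) (gr (vC C) o.toZFSet) = _ from snd_gr _ _]
    simp only [mem_sUnion, mem_img, Ordinal.mem_toZFSet_iff]
    constructor
    · rintro ⟨_, ⟨_, ⟨_, ⟨a, ha, rfl⟩, rfl⟩, rfl⟩, hx⟩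
      obtain ⟨h1, h2⟩ := mem_pw.1 hx
      exact ⟨h2, lt_of_le_of_lt (rank_le_iff.2 fun y hy => ((ih a ha).1 (h1 hy)).2) ha⟩
    · rintro ⟨h1, h2⟩
      exact ⟨_, ⟨_, ⟨_, ⟨_, h2, rfl⟩, rfl⟩, rfl⟩, mem_pw.2 ⟨fun y hy =>
        (ih _ h2).2 ⟨hC.trans _ h1 _ hy, rank_lt_of_mem hy⟩, h1⟩⟩

/-- The natural number `n` as a set. -/
noncomputable def nat (n : ℕ) : ZFSet.{u} := (n : Ordinal.{u}).toZFSet

instance Tm.nat {C A : Set ZFSet.{u}} [Ctx C A] (n : ℕ) : Tm C A (fun _ => nat n) := Tm.ord _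

theorem nat_inj {m n : ℕ} : nat.{u} m = nat n ↔ m = n := by
  simp [nat, Ordinal.toZFSet_injective.eq_iff]

theorem nat_succ (n : ℕ) : nat.{u} (n + 1) = insert (nat n) (nat n) := by
  simp [nat]

/-- The assignment coded by a list. -/
noncomputable def asg (l : ZFSet.{u}) (n : ℕ) : ZFSet.{u} := fst (snd^[n] l)

theorem asg_pair (a l : ZFSet.{u}) : asg (pair a l) = cons a (asg l) := by
  funext n; cases n <;> simp [asg]

/-- Iterated tail of a list. -/
noncomputable def tl (l : ZFSet.{u}) : ZFSet.{u} → ZFSet.{u} :=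
  recF (fun x => x) fun i g => if i = ∅ then l else snd (app g (⋃₀ i))

theorem tl_eq (l i : ZFSet.{u}) :
    tl l i = if i = ∅ then l else snd (app (gr (tl l) i) (⋃₀ i)) :=
  recF_eq (pred := fun x => x) mem_wf _ i

instance Tm.tl {C A : Set ZFSet.{u}} [Ctx C A] (s t : (ℕ → ZFSet.{u}) → ZFSet.{u}) [Tm C A s]
    [Tm C A t] : Tm C A (fun v => tl (s v) (t v)) :=
  haveI : Tm C A (fun v => MP_ecfd11_lc.tl (v 1) (v 0)) :=
    Tm.recursion (fun _ x => x) (fun v i g => if i = ∅ then v 0 else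
      MP_ecfd11_lc.snd (MP_ecfd11_lc.app g (⋃₀ i))) (fun v => MP_ecfd11_lc.tl (v 0))
      (fun _ _ => mem_wf) fun _ _ x _ => tl_eq _ x
  Tm.two (fun a b => MP_ecfd11_lc.tl b a) t s

theorem tl_nat (l : ZFSet.{u}) (n : ℕ) : tl l (nat n) = snd^[n] l := by
  induction n with
  | zero => rw [tl_eq, if_pos (by simp [nat])]; rfl
  | succ n ih =>
    have h1 : (⋃₀ insert (nat n) (nat n) : ZFSet.{u}) = nat n := by
      ext x
      simp only [mem_sUnion, mem_insert_iff]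
      exact ⟨fun ⟨y, h1, h2⟩ => h1.elim (fun e => e ▸ h2)
        fun h => (isOrdinal_toZFSet _).mem_trans h2 h, fun h => ⟨_, Or.inl rfl, h⟩⟩
    rw [tl_eq, nat_succ, if_neg fun e => notMem_empty _ (e ▸ mem_insert _ _), h1,
      app_gr (mem_insert _ _), ih, iterate_succ_apply']

/-- The code of a formula. -/
noncomputable def code : Fml → ZFSet.{u}
  | .mem i j => pair (nat 0) (pair (nat i) (nat j))
  | .eq i j => pair (nat 1) (pair (nat i) (nat j))
  | .neg φ => pair (nat 2) (code φ)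
  | .and φ ψ => pair (nat 3) (pair (code φ) (code ψ))
  | .all φ => pair (nat 4) (code φ)

/-- One step in the definition of satisfaction. -/
noncomputable def satStep (N m g : ZFSet.{u}) : ZFSet.{u} :=
  N.sep fun l =>
    (fst m = nat 0 ∧ fst (tl l (fst (snd m))) ∈ fst (tl l (snd (snd m)))) ∨
    (fst m = nat 1 ∧ fst (tl l (fst (snd m))) = fst (tl l (snd (snd m)))) ∨
    (fst m = nat 2 ∧ l ∉ app g (snd m)) ∨
    (fst m = nat 3 ∧ l ∈ app g (fst (snd m)) ∧ l ∈ app g (snd (snd m))) ∨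
    (fst m = nat 4 ∧ ∀ a, a ∈ N → pair a l ∈ app g (snd m))

/-- The set of lists that satisfy the formula coded by `m` in `N`. -/
noncomputable def satSet (N : ZFSet.{u}) : ZFSet.{u} → ZFSet.{u} := recF tc (satStep N)

theorem tc_wf : WellFounded fun y x : ZFSet.{u} => y ∈ tc x := tcl_wf mem_wf

instance Tm.satSet {C A : Set ZFSet.{u}} [Ctx C A] (s t : (ℕ → ZFSet.{u}) → ZFSet.{u}) [Tm C A s]
    [Tm C A t] : Tm C A (fun v => satSet (s v) (t v)) :=
  haveI : Tm C A (fun v => MP_ecfd11_lc.satSet (v 1) (v 0)) :=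
    Tm.recursion (fun _ x => MP_ecfd11_lc.tc x) (fun v => satStep (v 0))
      (fun v => MP_ecfd11_lc.satSet (v 0)) (hF := by unfold satStep; infer_instance)
      (fun _ _ => tc_wf) fun _ _ x _ => recF_eq tc_wf _ x
  Tm.two (fun a b => MP_ecfd11_lc.satSet b a) t s

theorem fst_mem_tc (a b : ZFSet.{u}) : a ∈ tc (pair a b) :=
  (isTransitive_tc _).mem_trans (y := {a}) (by simp) (subset_tc _ (by simp [pair]))

theorem snd_mem_tc (a b : ZFSet.{u}) : b ∈ tc (pair a b) :=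
  (isTransitive_tc _).mem_trans (y := {a, b}) (by simp) (subset_tc _ (by simp [pair]))

theorem tc_trans {x y z : ZFSet.{u}} (h1 : z ∈ tc y) (h2 : y ∈ tc x) : z ∈ tc x :=
  tcl_trans (pred := fun x => x) mem_wf h1 h2

theorem mem_satSet {N : ZFSet.{u}} (hN : ∀ a ∈ N, ∀ b ∈ N, pair a b ∈ N) (φ : Fml)
    {l : ZFSet.{u}} (hl : l ∈ N) : l ∈ satSet N (code φ) ↔ Sat N φ (asg l) := by
  induction φ generalizing l with
  | mem i j =>
    rw [satSet, recF_eq tc_wf, satStep, mem_sep]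
    simp [code, nat_inj, hl, tl_nat, Sat, asg]
  | eq i j =>
    rw [satSet, recF_eq tc_wf, satStep, mem_sep]
    simp [code, nat_inj, hl, tl_nat, Sat, asg]
  | neg φ ih =>
    rw [satSet, recF_eq tc_wf, satStep, mem_sep, ← satSet]
    simp [code, nat_inj, hl, Sat, app_gr (snd_mem_tc _ _), ih hl]
  | and φ ψ ih1 ih2 =>
    rw [satSet, recF_eq tc_wf, satStep, mem_sep, ← satSet]
    simp [code, nat_inj, hl, Sat, app_gr (tc_trans (fst_mem_tc _ _) (snd_mem_tc _ _)),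
      app_gr (tc_trans (snd_mem_tc _ _) (snd_mem_tc _ _)), ih1 hl, ih2 hl]
  | all φ ih =>
    rw [satSet, recF_eq tc_wf, satStep, mem_sep, ← satSet]
    simp only [code, fst_pair, snd_pair, nat_inj, hl, Sat, app_gr (snd_mem_tc _ _)]
    simp only [Nat.reduceEqDiff, false_and, true_and, false_or, SetLike.mem_coe]
    exact forall_congr' fun a => forall_congr' fun ha => by rw [ih (hN a ha l hl), asg_pair]

/-- Reflection. -/
theorem exists_reflect {C : Set ZFSet.{u}} (hC : InnerModel C) (o : Ordinal.{u}) :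
    ∃ b : Ordinal.{u}, o < b ∧
      (∀ x ∈ vC C b.toZFSet, ∀ y ∈ vC C b.toZFSet, pair x y ∈ vC C b.toZFSet) ∧
      ∀ φ, ∀ l ∈ vC C b.toZFSet, Sat (vC C b.toZFSet) φ (asg l) ↔ Sat C φ (asg l) := by
  have h1 : ∀ (φ : Fml) (l : ZFSet.{u}), ∃ a, (∃ a ∈ C, ¬ Sat C φ (cons a (asg l))) →
      a ∈ C ∧ ¬ Sat C φ (cons a (asg l)) := fun φ l => by
    by_cases h : ∃ a ∈ C, ¬ Sat C φ (cons a (asg l))
    · exact h.imp fun _ h _ => h
    · exact ⟨∅, fun h' => absurd h' h⟩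
  choose W hW using h1
  let g : Ordinal.{u} → Ordinal.{u} := fun o =>
    max (o + 1 + 1) (⨆ p : Fml × vonNeumann o, rank (W p.1 p.2)) + 1
  have g1 : ∀ o, o + 1 + 1 < g o := fun o => Order.lt_add_one_iff.2 (le_max_left _ _)
  have g2 : ∀ o φ l, rank l < o → rank (W φ l) < g o := fun o φ l h =>
    Order.lt_add_one_iff.2 ((Ordinal.le_iSup (fun p : Fml × vonNeumann o => rank (W p.1 p.2))
      (φ, ⟨l, mem_vonNeumann.2 h⟩)).trans (le_max_right _ _))
  have g3 : ∀ o, o < g o := fun o =>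
    ((Order.lt_add_one_iff.2 le_rfl).trans (Order.lt_add_one_iff.2 le_rfl)).trans (g1 o)
  have g4 : Monotone fun n : ℕ => g^[n] o := monotone_nat_of_le_succ fun n => by
    rw [iterate_succ_apply']; exact (g3 _).le
  have g5 : ∀ n : ℕ, g (g^[n] o) ≤ ⨆ n : ℕ, g^[n] o := fun n => by
    rw [← iterate_succ_apply' g]; exact Ordinal.le_iSup (fun n : ℕ => g^[n] o) _
  have h2 : ∀ x ∈ vC C (⨆ n : ℕ, g^[n] o).toZFSet, ∀ y ∈ vC C (⨆ n : ℕ, g^[n] o).toZFSet,
      pair x y ∈ vC C (⨆ n : ℕ, g^[n] o).toZFSet := fun x hx y hy => by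
    rw [mem_vC hC] at hx hy ⊢
    obtain ⟨m, hm⟩ := Ordinal.lt_iSup_iff.1 hx.2
    obtain ⟨n, hn⟩ := Ordinal.lt_iSup_iff.1 hy.2
    refine ⟨hC.pair_mem hx.1 hy.1, lt_of_lt_of_le (lt_of_le_of_lt ?_ (g1 _)) (g5 (max m n))⟩
    have a1 : rank x + 1 ≤ g^[max m n] o + 1 :=
      add_le_add_left (hm.le.trans (g4 (le_max_left m n))) _
    have a2 : rank y + 1 ≤ g^[max m n] o + 1 :=
      add_le_add_left (hn.le.trans (g4 (le_max_right m n))) _
    simp only [pair, rank_insert, rank_singleton, Order.succ_eq_add_one, max_le_iff]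
    exact ⟨add_le_add_left a1 _, add_le_add_left (max_le a1 a2) _⟩
  refine ⟨_, (g3 o).trans_le (g5 0), h2, fun φ => ?_⟩
  induction φ with
  | mem i j => exact fun _ _ => Iff.rfl
  | eq i j => exact fun _ _ => Iff.rfl
  | neg φ ih => exact fun l hl => not_congr (ih l hl)
  | and φ ψ ih1 ih2 => exact fun l hl => and_congr (ih1 l hl) (ih2 l hl)
  | all φ ih =>
    intro l hl
    refine ⟨fun h => by_contra fun h' => ?_, fun h a ha => ?_⟩
    · simp only [Sat, not_forall] at h'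
      obtain ⟨a, ha, h'⟩ := h'
      obtain ⟨w1, w2⟩ := hW φ l ⟨a, ha, h'⟩
      obtain ⟨m, hm⟩ := Ordinal.lt_iSup_iff.1 ((mem_vC hC).1 hl).2
      have w3 := (mem_vC hC).2 ⟨w1, (g2 _ φ l hm).trans_le (g5 m)⟩
      have := ih _ (h2 _ w3 l hl)
      rw [asg_pair] at this
      exact w2 (this.1 (h _ w3))
    · have := ih _ (h2 a ha l hl)
      rw [asg_pair] at this
      exact this.2 (h a ((mem_vC hC).1 ha).1)

end Pool.Agent.MP_ecfd11_lc
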