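import Pool.Agent.MP_ecfd11_lc.Truth

/-!
Covering, approximation, and preservation of large regular cardinals and stationary sets.
-/

set_option synthInstance.maxSize 4000

namespace Pool.Agent.MP_ecfd11_lc

universe u

open ZFSet Function Classical Cardinal

theorem InnerModel.pair_mem {M : Set ZFSet.{u}} (h : InnerModel M) {x y : ZFSet.{u}} (hx : x ∈ M)
    (hy : y ∈ M) : pair x y ∈ M :=
  haveI := h.ctx
  (Tm.pair (C := M) (A := M) (fun v => v 0) fun v => v 1).mem (cons x fun _ => y)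
    (cons_mem hx fun _ => hy)

theorem Tm.val_mem {M A : Set ZFSet.{u}} [h : Ctx M A] {x : ZFSet.{u}}
    (hx : Tm M A (fun _ => x)) : x ∈ M :=
  hx.mem (fun _ => ∅) fun _ => h.sub h.empty_mem

namespace FC

variable {M : Set ZFSet.{u}} {P le G : ZFSet.{u}} {val : ZFSet.{u} → ZFSet.{u}}
  (h : FC M P le G val)
include h

theorem interface' (a : ZFSet.{u}) : ∃ R : ZFSet.{u} → ZFSet.{u} → Prop,
    Df M M (fun v => R (v 0) (v 1)) ∧ (∀ p ∈ G, ∀ x ∈ M, R p x → x ∈ a) ∧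
    ∀ x ∈ M, x ∈ a → ∃ p ∈ G, R p x := by
  obtain ⟨R, h1, h2, h3⟩ := h.interface a
  refine ⟨R, h1, h2, fun x hx hxa => ?_⟩
  obtain ⟨p, hp, h4⟩ := h3 {x, x} (h.im.pairing _ hx _ hx) fun y hy => by
    simp at hy; rwa [hy]
  exact ⟨p, hp, h4 x (by simp)⟩

variable {k : Cardinal.{u}} (hk : ℵ₀ ≤ k) (hPk : card P ≤ k)
include hk hPk

theorem cover {a b : ZFSet.{u}} (hb : b ∈ M) (hab : a ⊆ b) (ha : card a ≤ k) :
    ∃ c ∈ M, a ⊆ c ∧ c ⊆ b ∧ card c ≤ k := by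
  have := h.ctx
  have := h.tmP
  have : Tm M M (fun _ => b) := Tm.ofMem hb
  obtain ⟨F, hF⟩ := exists_surj_of_card_le (a := k.ord.toZFSet) (b := a) (by rwa [card_ord'])
  obtain ⟨R, h1, h2, h3⟩ := h.interface' (gr F k.ord.toZFSet)
  have := Df.two (C := M) (A := M) R
  have hc : Tm M M (fun _ => b.sep fun x => ∃ p, p ∈ P ∧ ∃ i, i ∈ k.ord.toZFSet ∧
      R p (pair i x) ∧ ∀ y, y ∈ b → R p (pair i y) → y = x) := inferInstance
  refine ⟨_, hc.val_mem, fun x hx => mem_sep.2 ⟨hab hx, ?_⟩, sep_subset, ?_⟩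
  · obtain ⟨i, hi, rfl⟩ := hF x hx
    have hiM := h.im.ord _ ((isOrdinal_toZFSet _).mem hi)
    obtain ⟨p, hp, h4⟩ := h3 (pair i (F i)) (h.im.pair_mem hiM (h.im.trans _ hb _ (hab hx)))
      (pair_mem_gr.2 ⟨hi, rfl⟩)
    exact ⟨p, h.gen.sub hp, i, hi, h4, fun y hy h5 => (pair_mem_gr.1
      (h2 p hp _ (h.im.pair_mem hiM (h.im.trans _ hb _ hy)) h5)).2.symm⟩
  · refine (card_le_of_surj (a := prod P k.ord.toZFSet)
      (fun z => ⋃₀ (b.sep fun x => R (fst z) (pair (snd z) x))) fun x hx => ?_).trans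
      ((card_prod_le _ _).trans ?_)
    · obtain ⟨hx, p, hp, i, hi, h4, h5⟩ := mem_sep.1 hx
      refine ⟨pair p i, pair_mem_prod.2 ⟨hp, hi⟩, ?_⟩
      have : (b.sep fun x => R p (pair i x)) = {x} := by
        ext y; rw [mem_sep, mem_singleton]
        exact ⟨fun hy => h5 y hy.1 hy.2, fun e => e ▸ ⟨hx, h4⟩⟩
      simp only [fst_pair, snd_pair, this, sUnion_singleton]
    · rw [card_ord']
      exact (mul_le_mul_left hPk k).trans (mul_eq_self hk).le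

theorem approx {a b : ZFSet.{u}} (hb : b ∈ M) (hab : a ⊆ b)
    (ha : ∀ c ∈ M, c ⊆ b → card c ≤ k → a ∩ c ∈ M) : a ∈ M := by
  have := h.ctx
  have : Tm M M (fun _ => b) := Tm.ofMem hb
  obtain ⟨R, h1, h2, h3⟩ := h.interface a
  have := Df.two (C := M) (A := M) R
  by_contra h4
  have h5 : ∀ p ∈ G, ∃ x ∈ a, ¬ R p x := fun p hp => by
    by_contra h5
    push Not at h5
    have : Tm M M (fun _ => p) := Tm.ofMem (h.im.trans _ h.hP _ (h.gen.sub hp))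
    have hc : Tm M M (fun _ => b.sep fun x => R p x) := inferInstance
    refine h4 ((?_ : (b.sep fun x => R p x) = a) ▸ hc.val_mem)
    ext x
    rw [mem_sep]
    exact ⟨fun hx => h2 p hp x (h.im.trans _ hb _ hx.1) hx.2, fun hx => ⟨hab hx, h5 x hx⟩⟩
  choose! X hX1 hX2 using h5
  obtain ⟨c, hc, h6, h7, h8⟩ := h.cover hk hPk (a := img X G) hb
    (fun y hy => by obtain ⟨p, hp, rfl⟩ := mem_img.1 hy; exact hab (hX1 p hp))
    ((card_img_le _ _).trans ((card_mono h.gen.sub).trans hPk))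
  obtain ⟨p, hp, h9⟩ := h3 _ (ha c hc h7 h8) fun x hx => (mem_inter.1 hx).1
  exact hX2 p hp (h9 _ (mem_inter.2 ⟨hX1 p hp, h6 (mem_img.2 ⟨p, hp, rfl⟩)⟩))

omit hk in
theorem regular {l : ZFSet.{u}} (hl : Regular M l) (hkl : (Order.succ k).ord.toZFSet ⊆ l) :
    Regular Set.univ l := by
  have := h.ctx
  refine ⟨hl.1, hl.2.1, fun a ha f _ hf => ?_⟩
  have : Tm M M (fun _ => l) := Tm.ofOrd hl.1
  have : Tm M M (fun _ => a) := Tm.ofOrd (hl.1.mem ha)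
  obtain ⟨R, h1, h2, h3⟩ := h.interface' f
  have := Df.two (C := M) (A := M) R
  obtain ⟨g, e, hg, he, e1, e2, e3⟩ := h.im.exists_enum h.hP
  have := Tm.one (C := M) (A := M) e
  have hgl : g ∈ l :=
    hkl ((mem_ord_iff hg).2 (Order.lt_succ_of_le ((card_le_of_inj e e1 e3).trans hPk)))
  obtain ⟨b, hb, h4⟩ := hl.bdd h.im hgl (fun z x => ∃ i, i ∈ a ∧ R (e z) (pair i x) ∧
      ∀ y, y ∈ l → R (e z) (pair i y) → y = x) inferInstance fun z hz => by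
    have : Tm M M (fun _ => z) := Tm.ofOrd (hg.mem hz)
    obtain ⟨b, hb, h4⟩ := hl.bdd h.im ha (fun i x => R (e z) (pair i x) ∧
        ∀ y, y ∈ l → R (e z) (pair i y) → y = x) inferInstance fun i _ => by
      by_cases h4 : ∃ x ∈ l, R (e z) (pair i x) ∧ ∀ y, y ∈ l → R (e z) (pair i y) → y = x
      · obtain ⟨x, hx, -, h4⟩ := h4
        obtain ⟨b, hb, h5⟩ := hl.succ h.im hx
        exact ⟨b, hb, fun y hy h6 => h4 y hy h6.1 ▸ h5⟩
      · exact ⟨∅, hl.empty_mem, fun y hy h6 => absurd ⟨y, hy, h6⟩ h4⟩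
    exact ⟨b, hb, fun x hx ⟨i, hi, h5⟩ => h4 i hi x hx h5⟩
  refine ⟨b, hb, fun x y hxy => ?_⟩
  obtain ⟨hx, hy⟩ := pair_mem_prod.1 (hf.1 hxy)
  have hxM := h.im.ord _ ((hl.1.mem ha).mem hx)
  obtain ⟨p, hp, h5⟩ := h3 _ (h.im.pair_mem hxM (h.im.ord _ (hl.1.mem hy))) hxy
  obtain ⟨z, hz, rfl⟩ := e2 p (h.gen.sub hp)
  exact h4 z hz y hy ⟨x, hx, h5, fun y' hy' h6 => (hf.2 x hx).unique
    (h2 _ hp _ (h.im.pair_mem hxM (h.im.ord _ (hl.1.mem hy'))) h6) hxy⟩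

omit hk hPk in
theorem stat_iff {l S : ZFSet.{u}} (hl : Regular Set.univ l) (hPl : card P < card l) :
    Stat M l S ↔ Stat Set.univ l S := by
  refine ⟨fun hS => ⟨hS.1, fun c _ hc => ?_⟩, fun hS => ⟨hS.1, fun c _ hc => hS.2 c trivial hc⟩⟩
  have := h.ctx
  have : Tm M M (fun _ => l) := Tm.ofOrd hl.1
  obtain ⟨R, h1, h2, h3⟩ := h.interface' c
  have := Df.two (C := M) (A := M) R
  have h4 : ∃ p ∈ G, ∀ b ∈ l, ∃ y ∈ l, R p y ∧ b ∈ y := by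
    by_contra h4
    push Not at h4
    choose! B hB1 hB2 using h4
    obtain ⟨b, hb, h4⟩ := hl.bddV ((card_mono h.gen.sub).trans_lt hPl) B hB1
    obtain ⟨y, hy, h5⟩ := hc.2.1 b hb
    obtain ⟨p, hp, h6⟩ := h3 y (h.im.ord _ (hl.1.mem (hc.1 hy))) hy
    exact hB2 p hp y (hc.1 hy) h6 ((hl.1.mem (hc.1 hy)).mem_trans (h4 p hp) h5)
  obtain ⟨p, hp, h4⟩ := h4
  have : Tm M M (fun _ => p) := Tm.ofMem (h.im.trans _ h.hP _ (h.gen.sub hp))
  have hd : Tm M M (fun _ => l.sep fun g => (∃ b, b ∈ g) ∧ ∀ i, i ∈ ({∅} : ZFSet.{u}) →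
      ∀ b, b ∈ g → ∃ y, y ∈ (l.sep fun y => R p y) ∧ b ∈ y ∧ y ∈ g) := inferInstance
  obtain ⟨g, hg, h5⟩ := hS.2 _ hd.val_mem (hl.club_lim (x := {∅})
    (by rw [card_singleton]; exact one_lt_aleph0.trans hl.aleph0_lt)
    (fun _ => l.sep fun y => R p y) fun _ _ b hb => by
      obtain ⟨y, hy, h5, h6⟩ := h4 b hb
      exact ⟨y, mem_sep.2 ⟨hy, h5⟩, hy, h6⟩)
  obtain ⟨h6, h7, h8⟩ := mem_sep.1 h5
  refine ⟨g, hg, hc.2.2 g h6 h7 fun b hb => ?_⟩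
  obtain ⟨y, hy, h9⟩ := h8 ∅ (by simp) b hb
  exact ⟨y, h2 p hp y (h.im.ord _ (hl.1.mem (mem_sep.1 hy).1)) (mem_sep.1 hy).2, h9⟩

end FC

end Pool.Agent.MP_ecfd11_lc
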