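import Pool.Agent.MP_ecfd11_lc.Df

/-!
Basic terms and predicates over an inner model.
-/

namespace Pool.Agent.MP_ecfd11_lc

universe u

open ZFSet Function Classical

/-- The class of ordinals. -/
def On : Set ZFSet.{u} := {x | x.IsOrdinal}

theorem innerModel_univ : InnerModel (Set.univ : Set ZFSet.{u}) where
  trans := fun _ _ _ _ => trivial
  ord := fun _ _ => trivial
  pairing := fun _ _ _ _ => trivial
  union := fun _ _ => trivial
  power := fun x _ => ⟨powerset x, trivial, fun z => by simp⟩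
  sep := fun φ v _ x _ =>
    ⟨ZFSet.sep (fun z => Sat Set.univ φ (cons z v)) x, trivial, fun z => by simp⟩
  repl := fun φ v _ x _ h => by
    choose! f hf using h
    refine ⟨range (fun a : x => f a), trivial, fun b _ => ?_⟩
    simp only [mem_range]
    constructor
    · rintro ⟨a, rfl⟩
      exact ⟨a, a.2, (hf a a.2).1.2⟩
    · rintro ⟨a, ha, h⟩
      exact ⟨⟨a, ha⟩, ((hf a ha).2 b ⟨trivial, h⟩).symm⟩
  choice := fun x _ h1 h2 => by
    choose! f hf using h1
    refine ⟨range (fun a : x => f a), trivial, fun y hy =>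
      ⟨f y, ⟨hf y hy, mem_range.2 ⟨⟨y, hy⟩, rfl⟩⟩, ?_⟩⟩
    rintro z ⟨hz, hz'⟩
    obtain ⟨a, rfl⟩ := mem_range.1 hz'
    by_cases e : y = a
    · rw [e]
    · exact absurd (hf a a.2) (h2 y hy a a.2 e _ hz)

theorem InnerModel.ctx {M : Set ZFSet.{u}} (h : InnerModel M) : Ctx M M :=
  ⟨h, subset_rfl, h.ord⟩

theorem InnerModel.ctxOn {M : Set ZFSet.{u}} (h : InnerModel M) : Ctx M On :=
  ⟨h, fun x hx => h.ord x hx, fun _ hx => hx⟩

instance : Ctx (Set.univ : Set ZFSet.{u}) On := innerModel_univ.ctxOn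

/-- The image of a set under a function. -/
noncomputable def img (F : ZFSet.{u} → ZFSet.{u}) (x : ZFSet.{u}) : ZFSet.{u} :=
  range (fun a : x => F a)

@[simp] theorem mem_img {F : ZFSet.{u} → ZFSet.{u}} {x y : ZFSet.{u}} :
    y ∈ img F x ↔ ∃ a ∈ x, F a = y := by
  simp [img]

theorem img_congr {F G : ZFSet.{u} → ZFSet.{u}} {x : ZFSet.{u}} (h : ∀ a ∈ x, F a = G a) :
    img F x = img G x := by
  ext y; simp only [mem_img]
  exact exists_congr fun a => and_congr_right fun ha => by rw [h a ha]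

/-- The power set in the sense of `C`. -/
noncomputable def pw (C : Set ZFSet.{u}) (x : ZFSet.{u}) : ZFSet.{u} :=
  (powerset x).sep (· ∈ C)

@[simp] theorem mem_pw {C : Set ZFSet.{u}} {x y : ZFSet.{u}} : y ∈ pw C x ↔ y ⊆ x ∧ y ∈ C := by
  simp [pw]

/-- First coordinate of a pair. -/
noncomputable def fst (z : ZFSet.{u}) : ZFSet.{u} :=
  ⋃₀ ((⋃₀ z : ZFSet.{u}).sep fun x => ∀ w ∈ z, x ∈ w)

/-- Second coordinate of a pair. -/
noncomputable def snd (z : ZFSet.{u}) : ZFSet.{u} :=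
  ⋃₀ ((⋃₀ z : ZFSet.{u}).sep fun y => z = pair (fst z) y)

@[simp] theorem fst_pair (a b : ZFSet.{u}) : fst (pair a b) = a := by
  have : ((⋃₀ pair a b : ZFSet.{u}).sep fun x => ∀ w ∈ pair a b, x ∈ w) = {a} := by
    ext x; simp [pair]; aesop
  rw [fst, this, sUnion_singleton]

@[simp] theorem snd_pair (a b : ZFSet.{u}) : snd (pair a b) = b := by
  have : ((⋃₀ pair a b : ZFSet.{u}).sep fun y => pair a b = pair (fst (pair a b)) y) = {b} := by
    ext x; rw [fst_pair, mem_sep, pair_inj]; simp [pair]; aesop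
  rw [snd, this, sUnion_singleton]

/-- Value of a set function. -/
noncomputable def app (f x : ZFSet.{u}) : ZFSet.{u} :=
  ⋃₀ ((img snd f).sep fun y => pair x y ∈ f)

theorem app_eq {f x y : ZFSet.{u}} (h : pair x y ∈ f) (hu : ∀ y', pair x y' ∈ f → y' = y) :
    app f x = y := by
  have : ((img snd f).sep fun y => pair x y ∈ f) = {y} := by
    ext z; rw [mem_sep, mem_singleton, mem_img]
    exact ⟨fun h => hu _ h.2, fun e => e ▸ ⟨⟨_, h, snd_pair _ _⟩, h⟩⟩
  rw [app, this, sUnion_singleton]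

/-- The graph of `F` on `x`. -/
noncomputable def gr (F : ZFSet.{u} → ZFSet.{u}) (x : ZFSet.{u}) : ZFSet.{u} :=
  img (fun y => pair y (F y)) x

@[simp] theorem pair_mem_gr {F : ZFSet.{u} → ZFSet.{u}} {x a b : ZFSet.{u}} :
    pair a b ∈ gr F x ↔ a ∈ x ∧ F a = b := by
  simp only [gr, mem_img, pair_inj]
  exact ⟨fun ⟨_, h, e1, e2⟩ => e1 ▸ ⟨h, e2⟩, fun ⟨h, e⟩ => ⟨a, h, rfl, e⟩⟩

theorem app_gr {F : ZFSet.{u} → ZFSet.{u}} {x a : ZFSet.{u}} (h : a ∈ x) :
    app (gr F x) a = F a :=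
  app_eq (pair_mem_gr.2 ⟨h, rfl⟩) fun _ h' => (pair_mem_gr.1 h').2.symm

theorem snd_gr (F : ZFSet.{u} → ZFSet.{u}) (x : ZFSet.{u}) : img snd (gr F x) = img F x := by
  ext y; simp [gr]

theorem isFunc_gr {F : ZFSet.{u} → ZFSet.{u}} {x y : ZFSet.{u}} (h : ∀ a ∈ x, F a ∈ y) :
    IsFunc x y (gr F x) := by
  refine ⟨fun z hz => ?_, fun a ha => ⟨F a, pair_mem_gr.2 ⟨ha, rfl⟩,
    fun _ h' => (pair_mem_gr.1 h').2.symm⟩⟩
  obtain ⟨a, ha, rfl⟩ := mem_img.1 hz
  exact pair_mem_prod.2 ⟨ha, h a ha⟩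

theorem _root_.ZFSet.IsFunc.app_mem {x y f a : ZFSet.{u}} (h : IsFunc x y f) (ha : a ∈ x) :
    pair a (app f a) ∈ f := by
  obtain ⟨b, hb, hu⟩ := h.2 a ha
  rwa [app_eq hb hu]

theorem _root_.ZFSet.IsFunc.app_eq {x y f a b : ZFSet.{u}} (h : IsFunc x y f)
    (hb : pair a b ∈ f) : app f a = b := by
  have ha := (pair_mem_prod.1 (h.1 hb)).1
  exact (h.2 a ha).unique (h.app_mem ha) hb

variable {C A : Set ZFSet.{u}}

theorem InnerModel.fst_mem (h : InnerModel C) {a b f : ZFSet.{u}} (hf : f ∈ C)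
    (hab : pair a b ∈ f) : a ∈ C :=
  h.trans _ (h.trans _ (h.trans _ hf _ hab) {a} (by simp [pair])) _ (by simp)

theorem InnerModel.snd_mem (h : InnerModel C) {a b f : ZFSet.{u}} (hf : f ∈ C)
    (hab : pair a b ∈ f) : b ∈ C :=
  h.trans _ (h.trans _ (h.trans _ hf _ hab) {a, b} (by simp [pair])) _ (by simp)

theorem sep_mem [hc : Ctx C A] (Q : (ℕ → ZFSet.{u}) → ZFSet.{u} → Prop)
    [h : Df C A (fun v => Q (fun n => v (n + 1)) (v 0))] {v : ℕ → ZFSet.{u}}
    (hv : ∀ n, v n ∈ C) {x : ZFSet.{u}} (hx : x ∈ C) : x.sep (Q v) ∈ C := by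
  obtain ⟨φ, w, hw, h⟩ := h.ex
  obtain ⟨y, hy, e⟩ := hc.im.sep
    (ren (fun n => if n = 0 then 0 else if n % 2 = 0 then n - 1 else n + 1) φ) (mrg v w)
    (mrg_mem hv fun n => hc.sub (hw n)) x hx
  have : x.sep (Q v) = y := by
    ext z
    rw [mem_sep, e, sat_ren, mrg_cons]
    exact and_congr_right fun hz => h (cons z v) (cons_mem (hc.im.trans _ hx _ hz) hv)
  rwa [this]

theorem img_mem [hc : Ctx C A] (R : (ℕ → ZFSet.{u}) → ZFSet.{u} → ZFSet.{u} → Prop)
    [h : Df C A (fun v => R (fun n => v (n + 1 + 1)) (v 1) (v 0))] {v : ℕ → ZFSet.{u}}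
    (hv : ∀ n, v n ∈ C) {x : ZFSet.{u}} (hx : x ∈ C) {F : ZFSet.{u} → ZFSet.{u}}
    (hF : ∀ a ∈ x, F a ∈ C) (hR : ∀ a ∈ x, ∀ b ∈ C, R v a b ↔ b = F a) : img F x ∈ C := by
  obtain ⟨φ, w, hw, h⟩ := h.ex
  let g : ℕ → ℕ := fun n => if n = 0 then 0 else if n % 2 = 0 then n - 1 else n + 1
  have key : ∀ a ∈ x, ∀ b ∈ C,
      Sat C (ren (fun n => up g (g n)) φ) (cons b (cons a (mrg v w))) ↔ b = F a := by
    intro a ha b hb
    rw [sat_ren, ← hR a ha b hb]
    have e : (fun n => cons b (cons a (mrg v w)) (up g (g n))) = mrg (cons b (cons a v)) w := by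
      rw [← mrg_cons, ← mrg_cons]
      funext n
      change _ = cons b (fun n => cons a (mrg v w) (g n)) (g n)
      cases g n <;> rfl
    rw [e]
    exact (h (cons b (cons a v)) (cons_mem hb (cons_mem (hc.im.trans _ hx _ ha) hv))).symm
  obtain ⟨y, hy, e⟩ := hc.im.repl (ren (fun n => up g (g n)) φ) (mrg v w)
    (mrg_mem hv fun n => hc.sub (hw n)) x hx fun a ha =>
      ⟨F a, ⟨hF a ha, (key a ha _ (hF a ha)).2 rfl⟩, fun b hb => (key a ha b hb.1).1 hb.2⟩
  have : img F x = y := by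
    ext b
    rw [mem_img]
    constructor
    · rintro ⟨a, ha, rfl⟩
      exact (e _ (hF a ha)).2 ⟨a, ha, (key a ha _ (hF a ha)).2 rfl⟩
    · intro hb
      have hb' := hc.im.trans _ hy _ hb
      obtain ⟨a, ha, h⟩ := (e _ hb').1 hb
      exact ⟨a, ha, ((key a ha _ hb').1 h).symm⟩
  rwa [this]

namespace Tm

variable [hc : Ctx C A] (s t : (ℕ → ZFSet.{u}) → ZFSet.{u}) [hs : Tm C A s] [ht : Tm C A t]

instance sep (Q : (ℕ → ZFSet.{u}) → ZFSet.{u} → Prop)
    [h : Df C A (fun v => Q (fun n => v (n + 1)) (v 0))] :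
    Tm C A (fun v => (t v).sep (Q v)) :=
  Tm.of_mem _ (fun v hv => sep_mem (A := A) Q hv (ht.mem v hv))
    (h := Df.congr (h := by infer_instance) (P := fun v => v 0 ∈ t (fun n => v (n + 1)) ∧ Q (fun n => v (n + 1)) (v 0))
      fun _ _ => mem_sep.symm)

instance img (F : (ℕ → ZFSet.{u}) → ZFSet.{u} → ZFSet.{u})
    [h : Tm C A (fun v => F (fun n => v (n + 1)) (v 0))] :
    Tm C A (fun v => img (F v) (t v)) := by
  have h1 : Df C A (fun v => v 0 = F (fun n => v (n + 1 + 1)) (v 1)) := h.df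
  have h2 : Tm C A (fun v => F (fun n => v (n + 1 + 1)) (v 0)) :=
    Tm.shift (fun v => F (fun n => v (n + 1)) (v 0)) (up fun n => n + 1)
  refine Tm.of_mem _ (fun v hv => img_mem (A := A) (fun v a b => b = F v a) hv (ht.mem v hv)
    (fun a ha => h.mem (cons a v) (cons_mem (hc.im.trans _ (ht.mem v hv) _ ha) hv))
    fun _ _ _ _ => Iff.rfl)
    (h := Df.congr (h := by infer_instance) (P := fun v => ∃ a, a ∈ t (fun n => v (n + 1)) ∧
      F (fun n => v (n + 1)) a = v 0) fun _ _ => mem_img.symm)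

instance sUnion : Tm C A (fun v => (⋃₀ t v : ZFSet.{u})) :=
  Tm.of_mem _ (fun v hv => hc.im.union _ (ht.mem v hv))
    (h := Df.congr (h := by infer_instance) (P := fun v => ∃ a, a ∈ t (fun n => v (n + 1)) ∧ v 0 ∈ a)
      fun _ _ => mem_sUnion.symm)

theorem upair : Tm C A (fun v => ({s v, t v} : ZFSet.{u})) :=
  Tm.of_mem _ (fun v hv => hc.im.pairing _ (hs.mem v hv) _ (ht.mem v hv))
    (h := Df.congr (h := by infer_instance) (P := fun v => v 0 = s (fun n => v (n + 1)) ∨ v 0 = t (fun n => v (n + 1)))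
      fun _ _ => mem_pair.symm)

instance sing : Tm C A (fun v => ({t v} : ZFSet.{u})) :=
  Tm.congr (h := upair t t) fun _ _ => pair_eq_singleton _

instance union : Tm C A (fun v => s v ∪ t v) :=
  haveI := upair (C := C) (A := A) s t
  Tm.congr (s := fun v => (⋃₀ {s v, t v} : ZFSet.{u})) fun _ _ => rfl

instance ins : Tm C A (fun v => insert (s v) (t v)) :=
  Tm.congr (s := fun v => {s v} ∪ t v) fun _ _ => (insert_eq _ _).symm

instance inter : Tm C A (fun v => s v ∩ t v) :=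
  Tm.congr (s := fun v => (s v).sep (· ∈ t v)) fun _ _ => rfl

instance sdiff : Tm C A (fun v => s v \ t v) :=
  Tm.congr (s := fun v => (s v).sep (· ∉ t v)) fun _ _ => rfl

instance pair : Tm C A (fun v => pair (s v) (t v)) :=
  Tm.congr (s := fun v => ({{s v}, {s v, t v}} : ZFSet.{u})) fun _ _ => rfl

instance prod : Tm C A (fun v => prod (s v) (t v)) :=
  Tm.congr (s := fun v => (⋃₀ MP_ecfd11_lc.img (fun a => MP_ecfd11_lc.img (fun b => ZFSet.pair a b)
    (t v)) (s v) : ZFSet.{u})) fun _ _ => by ext z; simp [eq_comm]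

instance pw : Tm C A (fun v => pw C (t v)) :=
  Tm.of_mem _ (fun v hv => by
      obtain ⟨p, hp, e⟩ := hc.im.power _ (ht.mem v hv)
      have : MP_ecfd11_lc.pw C (t v) = p := by ext z; rw [e, mem_pw, and_comm]
      rwa [this])
    (h := Df.congr (h := by infer_instance) (P := fun v => v 0 ⊆ t (fun n => v (n + 1)))
      fun _ hv => by simp [hv 0])

instance fst : Tm C A (fun v => fst (t v)) :=
  Tm.congr (s := fun v => (⋃₀ ((⋃₀ t v : ZFSet.{u}).sep fun x => ∀ w ∈ t v, x ∈ w) : ZFSet.{u}))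
    fun _ _ => rfl

instance snd : Tm C A (fun v => snd (t v)) :=
  Tm.congr (s := fun v => (⋃₀ ((⋃₀ t v : ZFSet.{u}).sep
    fun y => t v = ZFSet.pair (MP_ecfd11_lc.fst (t v)) y) : ZFSet.{u})) fun _ _ => rfl

instance app : Tm C A (fun v => app (s v) (t v)) :=
  Tm.congr (s := fun v => (⋃₀ ((MP_ecfd11_lc.img (fun z => MP_ecfd11_lc.snd z) (s v)).sep
    fun y => ZFSet.pair (t v) y ∈ s v) : ZFSet.{u})) fun _ _ => rfl

instance gr (F : (ℕ → ZFSet.{u}) → ZFSet.{u} → ZFSet.{u})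
    [h : Tm C A (fun v => F (fun n => v (n + 1)) (v 0))] :
    Tm C A (fun v => gr (F v) (t v)) :=
  Tm.congr (s := fun v => MP_ecfd11_lc.img (fun y => ZFSet.pair y (F v y)) (t v)) fun _ _ => rfl

instance ite (P : (ℕ → ZFSet.{u}) → Prop) [Df C A P] :
    Tm C A (fun v => if P v then s v else t v) :=
  Tm.of_mem _ (fun v hv => by split_ifs; exacts [hs.mem v hv, ht.mem v hv])
    (h := Df.congr (P := fun v => (P (fun n => v (n + 1)) ∧ v 0 ∈ s (fun n => v (n + 1))) ∨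
      (¬ P (fun n => v (n + 1)) ∧ v 0 ∈ t (fun n => v (n + 1))))
      (h := by have := Df.rename (C := C) (A := A) P (fun n => n + 1); infer_instance)
      fun v _ => by by_cases h : P (fun n => v (n + 1)) <;> simp [h])

end Tm

instance Tm.powerset [Ctx Set.univ A] (t : (ℕ → ZFSet.{u}) → ZFSet.{u}) [Tm Set.univ A t] :
    Tm Set.univ A (fun v => powerset (t v)) :=
  Tm.congr (s := fun v => MP_ecfd11_lc.pw Set.univ (t v)) fun _ _ => by ext; simp

end Pool.Agent.MP_ecfd11_lc
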