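import Pool.Agent.MP_ecfd11_lc.Frc

/-!
The truth lemma of forcing.
-/

set_option synthInstance.maxSize 4000

namespace Pool.Agent.MP_ecfd11_lc

universe u

open ZFSet Function Classical

/-- The data of a forcing extension `V = M[G]`. -/
structure FC (M : Set ZFSet.{u}) (P le G : ZFSet.{u}) (val : ZFSet.{u} → ZFSet.{u}) : Prop where
  im : InnerModel M
  hP : P ∈ M
  hle : le ∈ M
  gen : Generic M P le G
  val_iff : ∀ t x, x ∈ val t ↔ ∃ s p, p ∈ G ∧ pair s p ∈ t ∧ val s = x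
  surj : ∀ x, ∃ t ∈ M, val t = x

theorem Feq.mono {M : Set ZFSet.{u}} {P le G p q σ τ : ZFSet.{u}} (hG : Generic M P le G)
    (h : Feq P le p σ τ) (hq : q ∈ P) (hqp : pair q p ∈ le) : Feq P le q σ τ := by
  rw [feq_iff] at h ⊢
  exact ⟨hq, fun s q' h1 h2 r hr h3 => h.2.1 s q' h1 h2 r hr (hG.trans _ _ _ h3 hqp),
    fun s q' h1 h2 r hr h3 => h.2.2 s q' h1 h2 r hr (hG.trans _ _ _ h3 hqp)⟩

theorem Fmem.mono {M : Set ZFSet.{u}} {P le G p q σ τ : ZFSet.{u}} (hG : Generic M P le G)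
    (h : Fmem P le p σ τ) (hq : q ∈ P) (hqp : pair q p ∈ le) : Fmem P le q σ τ :=
  ⟨hq, fun r hr h3 => h.2 r hr (hG.trans _ _ _ h3 hqp)⟩

theorem Frc.mono {M : Set ZFSet.{u}} {P le G : ZFSet.{u}} (hG : Generic M P le G) {φ : Fml}
    {p q : ZFSet.{u}} {σ : ℕ → ZFSet.{u}} (h : Frc M P le φ p σ) (hq : q ∈ P)
    (hqp : pair q p ∈ le) : Frc M P le φ q σ := by
  induction φ generalizing σ with
  | mem i j => exact Fmem.mono hG h hq hqp
  | eq i j => exact Feq.mono hG h hq hqp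
  | neg φ _ => exact fun r hr h3 => h r hr (hG.trans _ _ _ h3 hqp)
  | and φ ψ ih1 ih2 => exact ⟨ih1 h.1, ih2 h.2⟩
  | all φ _ => exact fun τ hτ r hr h3 => h τ hτ r hr (hG.trans _ _ _ h3 hqp)

namespace FC

variable {M : Set ZFSet.{u}} {P le G : ZFSet.{u}} {val : ZFSet.{u} → ZFSet.{u}}
  (h : FC M P le G val)
include h

theorem ctx : Ctx M M := h.im.ctx

theorem tmP : Tm M M (fun _ => P) := haveI := h.ctx; Tm.ofMem h.hP

theorem tmLe : Tm M M (fun _ => le) := haveI := h.ctx; Tm.ofMem h.hle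

theorem meets (D : ZFSet.{u} → Prop) (hD : Df M M (fun v => D (v 0)))
    (dense : ∀ p ∈ P, ∃ q ∈ P, pair q p ∈ le ∧ D q) : ∃ p ∈ G, D p := by
  have := h.ctx
  obtain ⟨p, hp, h1⟩ := h.gen.meets (P.sep D)
    (sep_mem (A := M) (fun _ => D) (v := fun _ => ∅) (fun _ => this.empty_mem) h.hP) sep_subset
    fun p hp => by
      obtain ⟨q, h1, h2, h3⟩ := dense p hp
      exact ⟨q, mem_sep.2 ⟨h1, h3⟩, h2⟩
  exact ⟨p, hp, (mem_sep.1 h1).2⟩

theorem meets_below (D : ZFSet.{u} → Prop) (hD : Df M M (fun v => D (v 0))) {p : ZFSet.{u}}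
    (hp : p ∈ G) (dense : ∀ r, r ∈ P → pair r p ∈ le → ∃ q, q ∈ P ∧ pair q r ∈ le ∧ D q) :
    ∃ p ∈ G, D p := by
  have := h.ctx
  have := h.tmP
  have := h.tmLe
  have : Tm M M (fun _ => p) := Tm.ofMem (h.im.trans _ h.hP _ (h.gen.sub hp))
  obtain ⟨q, hq, h1⟩ := h.meets
    (fun q => D q ∨ ∀ r, r ∈ P → pair r q ∈ le → pair r p ∉ le) inferInstance fun q hq => by
      by_cases h1 : ∃ r ∈ P, pair r q ∈ le ∧ pair r p ∈ le
      · obtain ⟨r, hr, h1, h2⟩ := h1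
        obtain ⟨r', h3, h4, h5⟩ := dense r hr h2
        exact ⟨r', h3, h.gen.trans _ _ _ h4 h1, Or.inl h5⟩
      · push Not at h1
        exact ⟨q, hq, h.gen.refl q hq, Or.inr h1⟩
  rcases h1 with h1 | h1
  · exact ⟨q, hq, h1⟩
  · obtain ⟨r, hr, h2, h3⟩ := h.gen.dir q hq p hp
    exact absurd h3 (h1 r (h.gen.sub hr) h2)

theorem nonempty : ∃ p, p ∈ G :=
  haveI := h.ctx
  (h.meets (fun _ => True) inferInstance fun p hp => ⟨p, hp, h.gen.refl p hp, trivial⟩).imp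
    fun _ h => h.1

theorem val_chk (x : ZFSet.{u}) : val (chk P x) = x := by
  induction x using inductionOn with
  | _ x ih =>
    ext y
    rw [h.val_iff, chk_eq, snd_gr]
    constructor
    · rintro ⟨s, p, -, h1, rfl⟩
      obtain ⟨z, hz, rfl⟩ := mem_img.1 (pair_mem_prod.1 h1).1
      rwa [ih z hz]
    · intro hy
      obtain ⟨p, hp⟩ := h.nonempty
      exact ⟨chk P y, p, hp, pair_mem_prod.2 ⟨mem_img.2 ⟨y, hy, rfl⟩, h.gen.sub hp⟩, ih y hy⟩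

theorem truth_eq {σ τ : ZFSet.{u}} (hσ : σ ∈ M) (hτ : τ ∈ M) :
    val σ = val τ ↔ ∃ p ∈ G, Feq P le p σ τ := by
  have := h.ctx
  have := h.tmP
  have := h.tmLe
  induction σ using dom_wf.induction generalizing τ with
  | _ σ ih =>
  have ih' : ∀ s q, pair s q ∈ σ → ∀ t q', pair t q' ∈ τ →
      (val s = val t ↔ ∃ p ∈ G, Feq P le p s t) := fun s q hs t q' ht =>
    ih s (mem_dom.2 ⟨q, hs⟩) (h.im.fst_mem hσ hs) (h.im.fst_mem hτ ht)
  have : Tm M M (fun _ => σ) := Tm.ofMem hσ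
  have : Tm M M (fun _ => τ) := Tm.ofMem hτ
  constructor
  · intro e
    obtain ⟨p, hp, h1 | ⟨s, q, hs, hq, h1, h2⟩ | ⟨t, q, ht, hq, h1, h2⟩⟩ := h.meets
      (fun p => Feq P le p σ τ ∨
        (∃ s q, pair s q ∈ σ ∧ q ∈ P ∧ pair p q ∈ le ∧ ∀ r', r' ∈ P → pair r' p ∈ le →
          ¬ ∃ t q', pair t q' ∈ τ ∧ q' ∈ P ∧ pair r' q' ∈ le ∧ Feq P le r' s t) ∨
        (∃ t q', pair t q' ∈ τ ∧ q' ∈ P ∧ pair p q' ∈ le ∧ ∀ r', r' ∈ P → pair r' p ∈ le →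
          ¬ ∃ s q, pair s q ∈ σ ∧ q ∈ P ∧ pair r' q ∈ le ∧ Feq P le r' s t))
      inferInstance fun p hp => by
        by_cases h1 : Feq P le p σ τ
        · exact ⟨p, hp, h.gen.refl p hp, Or.inl h1⟩
        · rw [feq_iff, FeqStep, and_iff_right hp, not_and_or] at h1
          rcases h1 with h1 | h1
          · simp only [not_forall, not_exists (α := ZFSet.{u}) (p := fun r' => r' ∈ P ∧ _),
              not_and] at h1
            obtain ⟨s, q, hs, hq, r, hr, h1, h2, h3⟩ := h1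
            exact ⟨r, hr, h1, Or.inr (Or.inl ⟨s, q, hs, hq, h2, h3⟩)⟩
          · simp only [not_forall, not_exists (α := ZFSet.{u}) (p := fun r' => r' ∈ P ∧ _),
              not_and] at h1
            obtain ⟨s, q, hs, hq, r, hr, h1, h2, h3⟩ := h1
            exact ⟨r, hr, h1, Or.inr (Or.inr ⟨s, q, hs, hq, h2, h3⟩)⟩
    · exact ⟨p, hp, h1⟩
    · have : val s ∈ val τ := e ▸ (h.val_iff _ _).2 ⟨s, q, h.gen.up p hp q hq h1, hs, rfl⟩
      obtain ⟨t, q', hq', ht, e'⟩ := (h.val_iff _ _).1 this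
      obtain ⟨r, hr, h3⟩ := (ih' s q hs t q' ht).1 e'.symm
      obtain ⟨a, ha, h4, h5⟩ := h.gen.dir p hp q' hq'
      obtain ⟨b, hb, h6, h7⟩ := h.gen.dir a ha r hr
      exact absurd ⟨t, q', ht, h.gen.sub hq', h.gen.trans _ _ _ h6 h5,
        h3.mono h.gen (h.gen.sub hb) h7⟩ (h2 b (h.gen.sub hb) (h.gen.trans _ _ _ h6 h4))
    · have : val t ∈ val σ := e ▸ (h.val_iff _ _).2 ⟨t, q, h.gen.up p hp q hq h1, ht, rfl⟩
      obtain ⟨s, q', hq', hs, e'⟩ := (h.val_iff _ _).1 this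
      obtain ⟨r, hr, h3⟩ := (ih' s q' hs t q ht).1 e'
      obtain ⟨a, ha, h4, h5⟩ := h.gen.dir p hp q' hq'
      obtain ⟨b, hb, h6, h7⟩ := h.gen.dir a ha r hr
      exact absurd ⟨s, q', hs, h.gen.sub hq', h.gen.trans _ _ _ h6 h5,
        h3.mono h.gen (h.gen.sub hb) h7⟩ (h2 b (h.gen.sub hb) (h.gen.trans _ _ _ h6 h4))
  · rintro ⟨p, hp, h1⟩
    rw [feq_iff] at h1
    ext x
    rw [h.val_iff, h.val_iff]
    constructor
    · rintro ⟨s, q, hq, hs, rfl⟩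
      obtain ⟨a, ha, h2, h3⟩ := h.gen.dir p hp q hq
      have : Tm M M (fun _ => s) := Tm.ofMem (h.im.fst_mem hσ hs)
      obtain ⟨r, hr, t, q', ht, hq', h4, h5⟩ := h.meets_below
        (fun r' => ∃ t q', pair t q' ∈ τ ∧ q' ∈ P ∧ pair r' q' ∈ le ∧ Feq P le r' s t)
        inferInstance ha fun r hr h4 => h1.2.1 s q hs (h.gen.sub hq) r hr
          (h.gen.trans _ _ _ h4 h2) (h.gen.trans _ _ _ h4 h3)
      exact ⟨t, q', h.gen.up r hr q' hq' h4, ht, ((ih' s q hs t q' ht).2 ⟨r, hr, h5⟩).symm⟩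
    · rintro ⟨t, q, hq, ht, rfl⟩
      obtain ⟨a, ha, h2, h3⟩ := h.gen.dir p hp q hq
      have : Tm M M (fun _ => t) := Tm.ofMem (h.im.fst_mem hτ ht)
      obtain ⟨r, hr, s, q', hs, hq', h4, h5⟩ := h.meets_below
        (fun r' => ∃ s q', pair s q' ∈ σ ∧ q' ∈ P ∧ pair r' q' ∈ le ∧ Feq P le r' s t)
        inferInstance ha fun r hr h4 => h1.2.2 t q ht (h.gen.sub hq) r hr
          (h.gen.trans _ _ _ h4 h2) (h.gen.trans _ _ _ h4 h3)
      exact ⟨s, q', h.gen.up r hr q' hq' h4, hs, (ih' s q' hs t q ht).2 ⟨r, hr, h5⟩⟩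

theorem truth_mem {σ τ : ZFSet.{u}} (hσ : σ ∈ M) (hτ : τ ∈ M) :
    val σ ∈ val τ ↔ ∃ p ∈ G, Fmem P le p σ τ := by
  have := h.ctx
  have := h.tmP
  have := h.tmLe
  have : Tm M M (fun _ => σ) := Tm.ofMem hσ
  have : Tm M M (fun _ => τ) := Tm.ofMem hτ
  constructor
  · intro h1
    obtain ⟨t, q, hq, ht, e⟩ := (h.val_iff _ _).1 h1
    obtain ⟨r, hr, h2⟩ := (h.truth_eq hσ (h.im.fst_mem hτ ht)).1 e.symm
    obtain ⟨a, ha, h3, h4⟩ := h.gen.dir r hr q hq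
    exact ⟨a, ha, h.gen.sub ha, fun b hb h5 => ⟨b, hb, h.gen.refl b hb, t, q, ht, h.gen.sub hq,
      h.gen.trans _ _ _ h5 h4, h2.mono h.gen hb (h.gen.trans _ _ _ h5 h3)⟩⟩
  · rintro ⟨p, hp, h1⟩
    obtain ⟨r, hr, t, q, ht, hq, h2, h3⟩ := h.meets_below
      (fun r' => ∃ t q, pair t q ∈ τ ∧ q ∈ P ∧ pair r' q ∈ le ∧ Feq P le r' σ t)
      inferInstance hp h1.2
    exact (h.val_iff _ _).2 ⟨t, q, h.gen.up r hr q hq h2, ht,
      ((h.truth_eq hσ (h.im.fst_mem hτ ht)).2 ⟨r, hr, h3⟩).symm⟩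

theorem df_frc (φ : Fml) {σ : ℕ → ZFSet.{u}} (hσ : ∀ n, σ n ∈ M)
    (p : (ℕ → ZFSet.{u}) → ZFSet.{u}) [Tm M M p] : Df M M (fun v => Frc M P le φ (p v) σ) :=
  haveI := h.ctx
  haveI := h.tmP
  haveI := h.tmLe
  Df.frc φ (fun _ => P) (fun _ => le) p (fun i _ => σ i) fun i => Tm.ofMem (hσ i)

theorem df_frc' (φ : Fml) {σ : ℕ → ZFSet.{u}} (hσ : ∀ n, σ n ∈ M)
    (p t : (ℕ → ZFSet.{u}) → ZFSet.{u}) [Tm M M p] [ht : Tm M M t] :
    Df M M (fun v => Frc M P le φ (p v) (cons (t v) σ)) := by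
  have := h.ctx
  have := h.tmP
  have := h.tmLe
  refine Df.of _ (Df.frc φ (fun _ => P) (fun _ => le) p (tcons t fun i _ => σ i)
    (Tm.tcons ht fun i => Tm.ofMem (hσ i))) fun v _ => ?_
  have : (fun i => tcons t (fun i _ => σ i) i v) = cons (t v) σ := by
    funext i; cases i <;> rfl
  rw [this]

/-- The truth lemma. -/
theorem truth (φ : Fml) {σ : ℕ → ZFSet.{u}} (hσ : ∀ n, σ n ∈ M) :
    Sat Set.univ φ (fun i => val (σ i)) ↔ ∃ p ∈ G, Frc M P le φ p σ := by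
  induction φ generalizing σ with
  | mem i j => exact h.truth_mem (hσ i) (hσ j)
  | eq i j => exact h.truth_eq (hσ i) (hσ j)
  | neg φ ih =>
    have := h.ctx
    have := h.tmP
    have := h.tmLe
    have := h.df_frc φ hσ
    rw [Sat, ih hσ]
    constructor
    · intro h1
      obtain ⟨p, hp, h2 | h2⟩ := h.meets
        (fun p => Frc M P le φ p σ ∨ ∀ q, q ∈ P → pair q p ∈ le → ¬ Frc M P le φ q σ)
        inferInstance fun p hp => by
          by_cases h2 : ∃ q ∈ P, pair q p ∈ le ∧ Frc M P le φ q σ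
          · obtain ⟨q, h2, h3, h4⟩ := h2
            exact ⟨q, h2, h3, Or.inl h4⟩
          · push Not at h2
            exact ⟨p, hp, h.gen.refl p hp, Or.inr h2⟩
      · exact absurd ⟨p, hp, h2⟩ h1
      · exact ⟨p, hp, h2⟩
    · rintro ⟨p, hp, h1⟩ ⟨q, hq, h2⟩
      obtain ⟨r, hr, h3, h4⟩ := h.gen.dir p hp q hq
      exact h1 r (h.gen.sub hr) h3 (h2.mono h.gen (h.gen.sub hr) h4)
  | and φ ψ ih1 ih2 =>
    rw [Sat, ih1 hσ, ih2 hσ]
    refine ⟨fun ⟨⟨p, hp, h1⟩, q, hq, h2⟩ => ?_,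
      fun ⟨p, hp, h1⟩ => ⟨⟨p, hp, h1.1⟩, p, hp, h1.2⟩⟩
    obtain ⟨r, hr, h3, h4⟩ := h.gen.dir p hp q hq
    exact ⟨r, hr, h1.mono h.gen (h.gen.sub hr) h3, h2.mono h.gen (h.gen.sub hr) h4⟩
  | all φ ih =>
    have e : ∀ τ, cons (val τ) (fun i => val (σ i)) = fun i => val (cons τ σ i) := fun τ => by
      funext i; cases i <;> rfl
    have := h.ctx
    have := h.tmP
    have := h.tmLe
    have h0 := h.df_frc (.all φ) hσ
    have h0' := h.df_frc' φ hσ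
    constructor
    · intro h1
      obtain ⟨p, hp, h2 | ⟨τ, hτ, h2⟩⟩ := h.meets
        (fun p => Frc M P le (.all φ) p σ ∨
          ∃ τ, τ ∈ M ∧ ∀ q, q ∈ P → pair q p ∈ le → ¬ Frc M P le φ q (cons τ σ))
        inferInstance fun p hp => by
          by_cases h2 : Frc M P le (.all φ) p σ
          · exact ⟨p, hp, h.gen.refl p hp, Or.inl h2⟩
          · simp only [Frc, not_forall, not_exists, not_and] at h2
            obtain ⟨τ, hτ, r, hr, h2, h3⟩ := h2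
            exact ⟨r, hr, h2, Or.inr ⟨τ, hτ, h3⟩⟩
      · exact ⟨p, hp, h2⟩
      · have := h1 (val τ) trivial
        rw [e, ih (cons_mem hτ hσ)] at this
        obtain ⟨q, hq, h3⟩ := this
        obtain ⟨r, hr, h4, h5⟩ := h.gen.dir p hp q hq
        exact absurd (h3.mono h.gen (h.gen.sub hr) h5) (h2 r (h.gen.sub hr) h4)
    · rintro ⟨p, hp, h1⟩ a _
      obtain ⟨τ, hτ, rfl⟩ := h.surj a
      rw [e, ih (cons_mem hτ hσ)]
      exact h.meets_below _ (h.df_frc φ (cons_mem hτ hσ) _) hp (h1 τ hτ)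

/-- Every set of the extension is approximated from the ground model. -/
theorem interface (a : ZFSet.{u}) : ∃ R : ZFSet.{u} → ZFSet.{u} → Prop,
    Df M M (fun v => R (v 0) (v 1)) ∧ (∀ p ∈ G, ∀ x ∈ M, R p x → x ∈ a) ∧
    ∀ b ∈ M, b ⊆ a → ∃ p ∈ G, ∀ x ∈ b, R p x := by
  have := h.ctx
  have := h.tmP
  have := h.tmLe
  obtain ⟨τ, hτ, rfl⟩ := h.surj a
  have : Tm M M (fun _ => τ) := Tm.ofMem hτ
  have hc : ∀ x ∈ M, chk P x ∈ M := fun x hx =>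
    (Tm.chk (C := M) (A := M) (fun _ => P) fun v => v 0).mem (fun _ => x) fun _ => hx
  have key : ∀ x ∈ M, x ∈ val τ ↔ ∃ p ∈ G, Fmem P le p (chk P x) τ := fun x hx => by
    rw [← h.truth_mem (hc x hx) hτ, h.val_chk]
  refine ⟨fun p x => Fmem P le p (chk P x) τ, inferInstance,
    fun p hp x hx h1 => (key x hx).2 ⟨p, hp, h1⟩, fun b hb hba => ?_⟩
  have : Tm M M (fun _ => b) := Tm.ofMem hb
  obtain ⟨p, hp, h1 | ⟨x, hx, h1⟩⟩ := h.meets
    (fun p => (∀ x, x ∈ b → Fmem P le p (chk P x) τ) ∨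
      ∃ x, x ∈ b ∧ ∀ r, r ∈ P → pair r p ∈ le → ¬ Fmem P le r (chk P x) τ)
    inferInstance fun p hp => by
      by_cases h1 : ∀ x, x ∈ b → Fmem P le p (chk P x) τ
      · exact ⟨p, hp, h.gen.refl p hp, Or.inl h1⟩
      · simp only [not_forall] at h1
        obtain ⟨x, hx, h1⟩ := h1
        rw [Fmem, and_iff_right hp] at h1
        simp only [not_forall] at h1
        obtain ⟨r, hr, h2, h3⟩ := h1
        refine ⟨r, hr, h2, Or.inr ⟨x, hx, fun q hq h4 h5 => h3 ?_⟩⟩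
        obtain ⟨r', a1, a2, a3⟩ := h5.2 q hq (h.gen.refl q hq)
        exact ⟨r', a1, h.gen.trans _ _ _ a2 h4, a3⟩
  · exact ⟨p, hp, h1⟩
  · obtain ⟨q, hq, h2⟩ := (key x (h.im.trans _ hb _ hx)).1 (hba hx)
    obtain ⟨r, hr, h3, h4⟩ := h.gen.dir p hp q hq
    exact absurd (h2.mono h.gen (h.gen.sub hr) h4) (h1 r (h.gen.sub hr) h3)

end FC

end Pool.Agent.MP_ecfd11_lc
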